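import Pool.Agent.Work.MP_b30479_gt.TB.HW
import Pool.Agent.Work.MP_b30479_gt.TwoBridge

/-!
# From matrices to arrays
-/

namespace Pool.Agent.Work.MP_b30479_gt.TB

open Finset

/-- action of one crossing on arrays -/
def op (s : ℕ) (u : ℂˣ) (g : Fin 2 × Bool) (X : Arr) : Arr :=
  if g.1 = 0 then L1 (entry s u g.2) X else L2 (entry s u g.2) X

/-- action of a word on arrays -/
def opL (s : ℕ) (u : ℂˣ) (w : List (Fin 2 × Bool)) (X : Arr) : Arr := w.foldr (op s u) X

lemma opL_nil (s : ℕ) (u : ℂˣ) (X : Arr) : opL s u [] X = X := rfl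
lemma opL_cons (s : ℕ) (u : ℂˣ) (g : Fin 2 × Bool) (w : List (Fin 2 × Bool)) (X : Arr) :
    opL s u (g :: w) X = op s u g (opL s u w X) := rfl
lemma opL_append (s : ℕ) (u : ℂˣ) (v w : List (Fin 2 × Bool)) (X : Arr) :
    opL s u (v ++ w) X = opL s u v (opL s u w X) := by
  unfold opL; rw [List.foldr_append]

/-- triples as functions -/
def e3 (N : ℕ) : (Fin N × Fin N × Fin N) ≃ (Fin 3 → Fin N) where
  toFun p := ![p.1, p.2.1, p.2.2]
  invFun f := (f 0, f 1, f 2)
  left_inv := by rintro ⟨a, b, c⟩; rfl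
  right_inv := by
    intro f
    funext l
    fin_cases l <;> rfl

lemma sum_fin3 {N : ℕ} (F : (Fin 3 → Fin N) → ℂ) :
    ∑ z, F z = ∑ a, ∑ b, ∑ c, F ![a, b, c] := by
  rw [← Equiv.sum_comp (e3 N), Fintype.sum_prod_type]
  apply Finset.sum_congr rfl
  intro a _
  rw [Fintype.sum_prod_type]
  rfl

lemma crossing_zero {s : ℕ} {u : ℂˣ} (pos : Bool) (y : Fin 3 → Fin (2 * s + 1))
    (a b c : Fin (2 * s + 1)) :
    crossing (r := 2) s u (0, pos) y ![a, b, c] =
      if y 2 = c then entry s u pos a b (y 0) (y 1) else 0 := by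
  unfold crossing
  have : (∀ l : Fin 3, l ≠ (0 : Fin 2).castSucc → l ≠ (0 : Fin 2).succ →
      y l = (![a, b, c] : Fin 3 → Fin (2 * s + 1)) l) ↔ y 2 = c := by
    constructor
    · intro hl
      exact hl 2 (by decide) (by decide)
    · intro hc l h1 h2
      fin_cases l
      · exact absurd rfl h1
      · exact absurd rfl h2
      · exact hc
  simp only [this]
  rfl

lemma crossing_one {s : ℕ} {u : ℂˣ} (pos : Bool) (y : Fin 3 → Fin (2 * s + 1))
    (a b c : Fin (2 * s + 1)) :
    crossing (r := 2) s u (1, pos) y ![a, b, c] =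
      if y 0 = a then entry s u pos b c (y 1) (y 2) else 0 := by
  unfold crossing
  have : (∀ l : Fin 3, l ≠ (1 : Fin 2).castSucc → l ≠ (1 : Fin 2).succ →
      y l = (![a, b, c] : Fin 3 → Fin (2 * s + 1)) l) ↔ y 0 = a := by
    constructor
    · intro hl
      exact hl 0 (by decide) (by decide)
    · intro hc l h1 h2
      fin_cases l
      · exact hc
      · exact absurd rfl h1
      · exact absurd rfl h2
  simp only [this]
  rfl

lemma entry_ne {s : ℕ} {u : ℂˣ} {pos : Bool} {i j a b : ℕ} (h : a + b ≠ i + j) :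
    entry s u pos i j a b = 0 := by
  unfold entry
  cases pos
  · simp only [Bool.false_eq_true, if_false]
    rw [if_neg (by tauto)]
  · simp only [if_true]
    rw [if_neg (by tauto)]

lemma sum_sq {N m : ℕ} (hm : m < N) (f : ℕ → ℕ → ℂ) (hf : ∀ a b, a + b ≠ m → f a b = 0) :
    ∑ a : Fin N, ∑ b : Fin N, f a b = ∑ p ∈ AD m, f p.1 p.2 := by
  have e1 : ∀ a : ℕ, ∑ b : Fin N, f a b = if a ≤ m then f a (m - a) else 0 := by
    intro a
    rw [Fin.sum_univ_eq_sum_range (fun b => f a b) N]
    by_cases ha : a ≤ m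
    · rw [if_pos ha, Finset.sum_eq_single (m - a)]
      · intro b _ hb
        exact hf a b (by omega)
      · intro hc
        rw [mem_range] at hc
        omega
    · rw [if_neg ha]
      apply Finset.sum_eq_zero
      intro b _
      exact hf a b (by omega)
  have e2 : ∑ a : Fin N, ∑ b : Fin N, f a b =
      ∑ a ∈ range N, (if a ≤ m then f a (m - a) else 0) := by
    rw [← Fin.sum_univ_eq_sum_range (fun a => if a ≤ m then f a (m - a) else 0) N]
    apply Finset.sum_congr rfl
    intro a _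
    exact e1 a
  rw [e2]
  unfold AD
  rw [Finset.Nat.sum_antidiagonal_eq_sum_range_succ_mk]
  symm
  apply Finset.sum_subset_zero_on_sdiff
  · intro x hx
    rw [mem_range] at hx ⊢
    omega
  · intro x hx
    rw [mem_sdiff, mem_range, mem_range] at hx
    rw [if_neg (by omega)]
  · intro x hx
    rw [mem_range] at hx
    rw [if_pos (by omega)]

/-- the vector of an array -/
def vec (s : ℕ) (X : Arr) : (Fin 3 → Fin (2 * s + 1)) → ℂ := fun y =>
  if (y 0 : ℕ) + (y 1 : ℕ) + (y 2 : ℕ) = 2 * s then X (y 0) (y 1) (y 2) else 0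

lemma crossing_vec {s : ℕ} {u : ℂˣ} (g : Fin 2 × Bool) (X : Arr)
    (y : Fin 3 → Fin (2 * s + 1)) :
    ∑ z, crossing (r := 2) s u g y z * vec s X z = vec s (op s u g X) y := by
  obtain ⟨g1, pos⟩ := g
  rw [sum_fin3]
  have hy0 := (y 0).isLt
  have hy1 := (y 1).isLt
  have hy2 := (y 2).isLt
  fin_cases g1
  · have e1 : ∀ a b : Fin (2 * s + 1), ∑ c : Fin (2 * s + 1),
        crossing (r := 2) s u (0, pos) y ![a, b, c] * vec s X ![a, b, c] =
        entry s u pos a b (y 0) (y 1) * (if (a : ℕ) + b + y 2 = 2 * s then X a b (y 2) else 0) := by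
      intro a b
      rw [Finset.sum_eq_single (y 2)]
      · rw [crossing_zero, if_pos rfl]
        rfl
      · intro c _ hc
        rw [crossing_zero, if_neg (fun hh => hc hh.symm), zero_mul]
      · intro hc
        exact absurd (Finset.mem_univ _) hc
    show ∑ a, ∑ b, ∑ c, crossing (r := 2) s u (0, pos) y ![a, b, c] * vec s X ![a, b, c] = _
    simp only [e1]
    unfold vec op
    simp only [if_true]
    unfold L1 M
    by_cases hs : (y 0 : ℕ) + (y 1 : ℕ) + (y 2 : ℕ) = 2 * s
    · rw [if_pos hs]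
      rw [sum_sq (m := (y 0 : ℕ) + (y 1 : ℕ)) (by omega)
        (fun a b => entry s u pos a b (y 0) (y 1) *
          (if a + b + y 2 = 2 * s then X a b (y 2) else 0))]
      · apply Finset.sum_congr rfl
        intro p hp
        rw [mem_AD] at hp
        rw [if_pos (by omega)]
      · intro a b hab
        rw [entry_ne (by omega), zero_mul]
    · rw [if_neg hs]
      apply Finset.sum_eq_zero
      intro a _
      apply Finset.sum_eq_zero
      intro b _
      by_cases hab : (a : ℕ) + b = (y 0 : ℕ) + (y 1 : ℕ)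
      · rw [if_neg (by omega), mul_zero]
      · rw [entry_ne (by omega), zero_mul]
  · have e1 : ∀ a : Fin (2 * s + 1), ∑ b : Fin (2 * s + 1), ∑ c : Fin (2 * s + 1),
        crossing (r := 2) s u (1, pos) y ![a, b, c] * vec s X ![a, b, c] =
        if y 0 = a then ∑ b : Fin (2 * s + 1), ∑ c : Fin (2 * s + 1),
        entry s u pos b c (y 1) (y 2) * (if (y 0 : ℕ) + b + c = 2 * s then X (y 0) b c else 0)
        else 0 := by
      intro a
      by_cases ha : y 0 = a
      · rw [if_pos ha]
        apply Finset.sum_congr rfl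
        intro b _
        apply Finset.sum_congr rfl
        intro c _
        rw [crossing_one, if_pos ha, ← ha]
        rfl
      · rw [if_neg ha]
        apply Finset.sum_eq_zero
        intro b _
        apply Finset.sum_eq_zero
        intro c _
        rw [crossing_one, if_neg ha, zero_mul]
    show ∑ a, ∑ b, ∑ c, crossing (r := 2) s u (1, pos) y ![a, b, c] * vec s X ![a, b, c] = _
    simp only [e1]
    rw [Finset.sum_ite_eq, if_pos (Finset.mem_univ _)]
    unfold vec op
    simp only [one_ne_zero, if_false]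
    unfold L2 M
    by_cases hs : (y 0 : ℕ) + (y 1 : ℕ) + (y 2 : ℕ) = 2 * s
    · rw [if_pos hs]
      rw [sum_sq (m := (y 1 : ℕ) + (y 2 : ℕ)) (by omega)
        (fun b c => entry s u pos b c (y 1) (y 2) *
          (if (y 0 : ℕ) + b + c = 2 * s then X (y 0) b c else 0))]
      · apply Finset.sum_congr rfl
        intro p hp
        rw [mem_AD] at hp
        rw [if_pos (by omega)]
      · intro a b hab
        rw [entry_ne (by omega), zero_mul]
    · rw [if_neg hs]
      apply Finset.sum_eq_zero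
      intro a _
      apply Finset.sum_eq_zero
      intro b _
      by_cases hab : (a : ℕ) + b = (y 1 : ℕ) + (y 2 : ℕ)
      · rw [if_neg (by omega), mul_zero]
      · rw [entry_ne (by omega), zero_mul]

lemma braid_vec {s : ℕ} {u : ℂˣ} (w : List (Fin 2 × Bool)) (X : Arr)
    (y : Fin 3 → Fin (2 * s + 1)) :
    ∑ z, braidMatrix (r := 2) s u w y z * vec s X z = vec s (opL s u w X) y := by
  induction w generalizing y with
  | nil =>
    unfold braidMatrix
    simp only [List.map_nil, List.prod_nil, Matrix.one_apply, ite_mul, one_mul, zero_mul]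
    rw [Finset.sum_ite_eq, if_pos (Finset.mem_univ _)]
    rfl
  | cons g w ih =>
    have e1 : braidMatrix (r := 2) s u (g :: w) = crossing s u g * braidMatrix s u w := by
      unfold braidMatrix; simp
    rw [e1, opL_cons, ← crossing_vec]
    simp only [Matrix.mul_apply, Finset.sum_mul]
    rw [Finset.sum_comm]
    apply Finset.sum_congr rfl
    intro x _
    rw [← ih, Finset.mul_sum]
    apply Finset.sum_congr rfl
    intro z _
    ring

lemma cup_vec {s : ℕ} {u : ℂˣ} (F : (Fin 3 → Fin (2 * s + 1)) → ℂ) :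
    ∑ z, F z * vec s (eta s u) z =
      ∑ j : Fin (2 * s + 1), ((u : ℂ) ^ (s * (j : ℕ))) * F ![0, j, Fin.rev j] := by
  rw [sum_fin3, Finset.sum_eq_single 0]
  · apply Finset.sum_congr rfl
    intro j _
    rw [Finset.sum_eq_single (Fin.rev j)]
    · unfold vec eta
      have hj := j.isLt
      have : ((![0, j, Fin.rev j] : Fin 3 → Fin (2 * s + 1)) 0 : ℕ) +
        ((![0, j, Fin.rev j] : Fin 3 → Fin (2 * s + 1)) 1 : ℕ) +
        ((![0, j, Fin.rev j] : Fin 3 → Fin (2 * s + 1)) 2 : ℕ) = 2 * s := by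
        show ((0 : Fin (2 * s + 1)) : ℕ) + (j : ℕ) + (Fin.rev j : ℕ) = 2 * s
        rw [Fin.val_rev, Fin.val_zero]
        omega
      rw [if_pos this]
      show F _ * (if ((0 : Fin (2 * s + 1)) : ℕ) = 0 then (u : ℂ) ^ (s * (j : ℕ)) else 0) = _
      rw [if_pos (by simp), mul_comm]
    · intro c _ hc
      unfold vec
      have hj := j.isLt
      have hcl := c.isLt
      rw [if_neg, mul_zero]
      show ¬ (((0 : Fin (2 * s + 1)) : ℕ) + (j : ℕ) + (c : ℕ) = 2 * s)
      intro hh
      apply hc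
      apply Fin.ext
      rw [Fin.val_rev]
      rw [Fin.val_zero] at hh
      omega
    · intro hc
      exact absurd (Finset.mem_univ _) hc
  · intro a _ ha
    apply Finset.sum_eq_zero
    intro b _
    apply Finset.sum_eq_zero
    intro c _
    unfold vec eta
    have : ((![a, b, c] : Fin 3 → Fin (2 * s + 1)) 0 : ℕ) ≠ 0 := by
      show (a : ℕ) ≠ 0
      intro hh
      exact ha (Fin.ext hh)
    rw [if_neg this, ite_self, mul_zero]
  · intro hc
    exact absurd (Finset.mem_univ _) hc

lemma HH_eta_left {s : ℕ} {t : ℂ} (h : IsPrimitiveRoot t (2 * s + 1)) (X : Arr) :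
    HH (2 * s) (eta s t) X = ∑ i : Fin (2 * s + 1),
      t ^ (-(2 * (s : ℤ) ^ 2)) * t ^ (s * (i : ℕ)) * X i (Fin.rev i : Fin (2 * s + 1)) 0 := by
  have h0 : t ≠ 0 := h.ne_zero (by omega)
  unfold HH
  have e1 : ∀ p ∈ AD (2 * s), ∑ q ∈ AD p.2, star (eta s t q.2 q.1 p.1) * X p.1 q.1 q.2 =
      t⁻¹ ^ (s * p.2) * X p.1 p.2 0 := by
    intro p _
    rw [Finset.sum_eq_single (p.2, 0)]
    · unfold eta
      simp only [if_true]
      rw [star_pow, star_root h]
    · rintro ⟨a, b⟩ hq hne
      rw [mem_AD] at hq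
      have hb : b ≠ 0 := by
        rintro rfl
        apply hne
        simp only [add_zero] at hq
        rw [hq]
      unfold eta
      rw [if_neg hb, star_zero, zero_mul]
    · intro hc
      exact absurd (mem_AD.mpr (by simp)) hc
  rw [Finset.sum_congr rfl e1]
  unfold AD
  rw [Finset.Nat.sum_antidiagonal_eq_sum_range_succ_mk,
    ← Fin.sum_univ_eq_sum_range (fun i => t⁻¹ ^ (s * (2 * s - i)) * X i (2 * s - i) 0)]
  apply Finset.sum_congr rfl
  intro i _
  have hi := i.isLt
  rw [Fin.val_rev, show 2 * s + 1 - ((i : ℕ) + 1) = 2 * s - i by omega]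
  congr 1
  rw [inv_pow, ← zpow_natCast, ← zpow_natCast, ← zpow_neg, ← zpow_add₀ h0]
  congr 1
  have : ((2 * s - (i : ℕ) : ℕ) : ℤ) = 2 * s - i := by omega
  push_cast
  rw [this]
  ring

lemma tangleValue_eq {s : ℕ} {u : ℂˣ} (h : IsPrimitiveRoot (u : ℂ) (2 * s + 1))
    (w : List (Fin 2 × Bool)) :
    tangleValue s w u = HH (2 * s) (eta s u) (opL s u w (eta s u)) := by
  rw [HH_eta_left h]
  unfold tangleValue
  rw [Finset.mul_sum]
  apply Finset.sum_congr rfl
  intro i _
  have hi := i.isLt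
  have e1 := braid_vec (u := u) w (eta s u) ![i, Fin.rev i, 0]
  rw [cup_vec (fun z => braidMatrix (r := 2) s u w ![i, Fin.rev i, 0] z)] at e1
  have e2 : vec s (opL s u w (eta s u)) ![i, Fin.rev i, 0] =
      opL s u w (eta s u) i (Fin.rev i : Fin (2 * s + 1)) 0 := by
    unfold vec
    rw [if_pos]
    · rfl
    · show (i : ℕ) + (Fin.rev i : ℕ) + ((0 : Fin (2 * s + 1)) : ℕ) = 2 * s
      rw [Fin.val_rev, Fin.val_zero]
      omega
  rw [← e2, ← e1, Finset.mul_sum, Finset.mul_sum]
  apply Finset.sum_congr rfl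
  intro j _
  rw [Units.val_zpow_eq_zpow_val, Units.val_pow_eq_pow_val, mul_add, pow_add]
  ring

end Pool.Agent.Work.MP_b30479_gt.TB
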