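import Mathlib

/-!
# The Lobachevsky function and Riemann sums of `log (2 sin)`
-/

namespace Pool.Agent.Work.MP_b30479_gt.Lob

open Real MeasureTheory intervalIntegral Set

/-- `log (2 sin x)` -/
noncomputable def ff (x : ℝ) : ℝ := Real.log (2 * Real.sin x)

/-- minus the Lobachevsky function -/
noncomputable def LF (x : ℝ) : ℝ := ∫ u in (0 : ℝ)..x, ff u

lemma ii (a b : ℝ) : IntervalIntegrable ff volume a b := by
  have h : MeromorphicOn (fun x : ℝ => 2 * Real.sin x) (uIcc a b) :=
    (analyticOnNhd_const.mul analyticOnNhd_sin).meromorphicOn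
  exact h.intervalIntegrable_log

lemma LF_sub (a b : ℝ) : LF b - LF a = ∫ u in a..b, ff u := by
  unfold LF
  rw [integral_interval_sub_left (ii 0 b) (ii 0 a)]

lemma LF_zero : LF 0 = 0 := by simp [LF]

lemma ff_le (x : ℝ) : ff x ≤ Real.log 2 := by
  unfold ff
  rcases eq_or_ne (2 * Real.sin x) 0 with h0 | h0
  · rw [h0, Real.log_zero]
    exact Real.log_nonneg (by norm_num)
  · rw [← Real.log_abs]
    apply Real.log_le_log (abs_pos.mpr h0)
    rw [abs_mul, abs_two]
    have := Real.abs_sin_le_one x
    linarith only [this]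

lemma ff_sub (x : ℝ) : ff (π - x) = ff x := by
  unfold ff
  rw [Real.sin_pi_sub]

/-- `∫ log (2 sin) = (b - a) log 2 + ∫ log sin` -/
lemma integral_ff (a b : ℝ) : ∫ u in a..b, ff u = (b - a) * Real.log 2 +
    ∫ u in a..b, Real.log (Real.sin u) := by
  have e1 : ∫ u in a..b, ff u = ∫ u in a..b, (Real.log 2 + Real.log (Real.sin u)) := by
    apply intervalIntegral.integral_congr_codiscreteWithin
    apply Filter.codiscreteWithin_mono (Set.subset_univ _)
    have t₀ : Real.sin ⁻¹' {0}ᶜ ∈ Filter.codiscrete ℝ := by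
      apply analyticOnNhd_sin.preimage_zero_mem_codiscrete (x := π / 2)
      simp
    filter_upwards [t₀] with y hy
    unfold ff
    rw [Real.log_mul (by norm_num) (by simpa using hy)]
  have hi : IntervalIntegrable (fun u => Real.log (Real.sin u)) volume a b :=
    intervalIntegrable_log_sin
  rw [e1, integral_add intervalIntegrable_const hi]
  simp

lemma LF_pi : LF π = 0 := by
  unfold LF
  rw [integral_ff, integral_log_sin_zero_pi]
  ring

lemma LF_pi_half : LF (π / 2) = 0 := by
  unfold LF
  rw [integral_ff, integral_log_sin_zero_pi_div_two]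
  ring

lemma LF_reflect (x : ℝ) : LF (π - x) = -LF x := by
  have h1 := LF_sub (π - x) π
  have h2 : ∫ u in (π - x)..π, ff u = ∫ u in (0 : ℝ)..x, ff (π - u) := by
    rw [intervalIntegral.integral_comp_sub_left (fun u => ff u) π]
    simp
  simp only [ff_sub] at h2
  rw [h2, LF_pi] at h1
  have : LF x = ∫ u in (0 : ℝ)..x, ff u := rfl
  rw [← this] at h1
  linarith only [h1]

lemma sin_pi_six_le {x : ℝ} (h1 : π / 6 ≤ x) (h2 : x ≤ 5 * π / 6) : 1 / 2 ≤ Real.sin x := by
  have hpi := Real.pi_pos
  rcases le_total x (π / 2) with h3 | h3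
  · rw [← Real.sin_pi_div_six]
    exact Real.sin_le_sin_of_le_of_le_pi_div_two (by linarith only [hpi]) h3 h1
  · rw [← Real.sin_pi_div_six, ← Real.sin_pi_sub x]
    exact Real.sin_le_sin_of_le_of_le_pi_div_two (by linarith only [hpi]) (by linarith only [h3]) (by linarith only [h2])

lemma ff_nonneg {x : ℝ} (h1 : π / 6 ≤ x) (h2 : x ≤ 5 * π / 6) : 0 ≤ ff x := by
  unfold ff
  apply Real.log_nonneg
  have := sin_pi_six_le h1 h2
  linarith only [this]

lemma ff_nonpos {x : ℝ} (h1 : 0 ≤ x) (h2 : x ≤ π / 6) : ff x ≤ 0 := by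
  have hpi := Real.pi_pos
  unfold ff
  apply Real.log_nonpos
  · have := Real.sin_nonneg_of_nonneg_of_le_pi h1 (by linarith only [h2, hpi])
    linarith only [this]
  · have : Real.sin x ≤ 1 / 2 := by
      rw [← Real.sin_pi_div_six]
      exact Real.sin_le_sin_of_le_of_le_pi_div_two (by linarith only [h1, hpi]) (by linarith only [hpi]) h2
    linarith only [this]

lemma LF_antitone_small {x y : ℝ} (h0 : 0 ≤ x) (hxy : x ≤ y) (hy : y ≤ π / 6) : LF y ≤ LF x := by
  have h1 := LF_sub x y
  have h2 : ∫ u in x..y, ff u ≤ ∫ u in x..y, (0 : ℝ) := by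
    apply integral_mono_on_of_le_Ioo hxy (ii x y) intervalIntegrable_const
    intro u hu
    exact ff_nonpos (by linarith only [h0, hu, hu.1]) (by linarith only [hy, hu, hu.2])
  rw [intervalIntegral.integral_zero] at h2
  linarith only [h1, h2]

lemma LF_monotone_mid {x y : ℝ} (h0 : π / 6 ≤ x) (hxy : x ≤ y) (hy : y ≤ 5 * π / 6) :
    LF x ≤ LF y := by
  have h1 := LF_sub x y
  have h2 : ∫ u in x..y, (0 : ℝ) ≤ ∫ u in x..y, ff u := by
    apply integral_mono_on_of_le_Ioo hxy intervalIntegrable_const (ii x y)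
    intro u hu
    exact ff_nonneg (by linarith only [h0, hu, hu.1]) (by linarith only [hy, hu, hu.2])
  rw [intervalIntegral.integral_zero] at h2
  linarith only [h1, h2]

/-- the minimum of `LF` on `[0, π/2]` is at `π/6` -/
lemma LF_ge {y : ℝ} (h0 : 0 ≤ y) (h1 : y ≤ π / 2) : LF (π / 6) ≤ LF y := by
  have hpi := Real.pi_pos
  rcases le_total y (π / 6) with h2 | h2
  · exact LF_antitone_small h0 h2 le_rfl
  · exact LF_monotone_mid le_rfl h2 (by linarith only [h1, hpi])

lemma LF_pi_six_nonpos : LF (π / 6) ≤ 0 := by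
  have := LF_antitone_small (x := 0) (y := π / 6) le_rfl (by positivity) le_rfl
  rwa [LF_zero] at this

/-- the maximum of `LF` on `[0, π]` is at `5π/6` -/
lemma LF_le {x : ℝ} (h0 : 0 ≤ x) (h1 : x ≤ π) : LF x ≤ -LF (π / 6) := by
  have hpi := Real.pi_pos
  have e : -LF (π / 6) = LF (5 * π / 6) := by
    rw [← LF_reflect]; congr 1; ring
  rcases le_total x (π / 2) with h2 | h2
  · rcases le_total x (π / 6) with h3 | h3
    · have h4 := LF_antitone_small le_rfl h0 h3
      rw [LF_zero] at h4
      have := LF_pi_six_nonpos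
      linarith only [h4, this]
    · rw [e]
      exact LF_monotone_mid h3 (by linarith only [hpi, h2]) le_rfl
  · have h3 := LF_reflect (π - x)
    rw [sub_sub_cancel] at h3
    have h4 := LF_ge (y := π - x) (by linarith only [h1]) (by linarith only [h2])
    linarith only [h3, h4]

/-- duplication formula -/
lemma LF_dup {x : ℝ} : LF x = 2 * LF (x / 2) - 2 * LF (π / 2 - x / 2) := by
  have e1 : LF x = 2 * ∫ v in (0 : ℝ)..(x / 2), ff (2 * v) := by
    rw [intervalIntegral.integral_comp_mul_left (fun u => ff u) two_ne_zero]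
    unfold LF
    rw [mul_zero, show 2 * (x / 2) = x by ring, smul_eq_mul]
    ring
  have e2 : ∫ v in (0 : ℝ)..(x / 2), ff (2 * v) =
      ∫ v in (0 : ℝ)..(x / 2), (ff v + ff (π / 2 - v)) := by
    apply intervalIntegral.integral_congr_codiscreteWithin
    apply Filter.codiscreteWithin_mono (Set.subset_univ _)
    have t₀ : Real.sin ⁻¹' {0}ᶜ ∈ Filter.codiscrete ℝ := by
      apply analyticOnNhd_sin.preimage_zero_mem_codiscrete (x := π / 2)
      simp
    have t₁ : Real.cos ⁻¹' {0}ᶜ ∈ Filter.codiscrete ℝ := by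
      apply analyticOnNhd_cos.preimage_zero_mem_codiscrete (x := 0)
      simp
    filter_upwards [t₀, t₁] with y h1y h2y
    have h1 : Real.sin y ≠ 0 := by simpa using h1y
    have h2 : Real.cos y ≠ 0 := by simpa using h2y
    unfold ff
    rw [Real.sin_two_mul, Real.sin_pi_div_two_sub,
      ← Real.log_mul (by positivity) (by positivity)]
    congr 1
    ring
  have hi : IntervalIntegrable (fun v => ff (π / 2 - v)) volume 0 (x / 2) := by
    have := (ii (π / 2 - 0) (π / 2 - x / 2)).comp_sub_left (π / 2)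
    simpa using this
  rw [e1, e2, integral_add (ii _ _) hi, intervalIntegral.integral_comp_sub_left (fun u => ff u),
    sub_zero, ← LF_sub (π / 2 - x / 2) (π / 2), LF_pi_half]
  have : LF (x / 2) = ∫ u in (0 : ℝ)..(x / 2), ff u := rfl
  rw [← this]
  ring

lemma LF_three : 3 * LF (π / 3) = 2 * LF (π / 6) := by
  have h := LF_dup (x := π / 3)
  rw [show π / 3 / 2 = π / 6 by ring, show π / 2 - π / 6 = π / 3 by ring] at h
  linarith only [h]

/-- symmetrisation -/
lemma LF_sym {y z : ℝ} (hy : 0 ≤ y) (hyz : y ≤ z) (hs : y + z ≤ π) :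
    2 * LF ((y + z) / 2) ≤ LF y + LF z := by
  have h1 := LF_sub y ((y + z) / 2)
  have h2 := LF_sub ((y + z) / 2) z
  have h3 : ∫ u in y..((y + z) / 2), ff u ≤ ∫ u in y..((y + z) / 2), ff (y + z - u) := by
    have hi : IntervalIntegrable (fun u => ff (y + z - u)) volume y ((y + z) / 2) := by
      have := (ii (y + z - y) (y + z - (y + z) / 2)).comp_sub_left (y + z)
      simpa using this
    apply integral_mono_on_of_le_Ioo (by linarith only [hyz]) (ii _ _) hi
    intro u hu
    have hu0 : 0 < u := lt_of_le_of_lt hy hu.1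
    have hu1 : u < (y + z) / 2 := hu.2
    have hsin : 0 < Real.sin u := Real.sin_pos_of_pos_of_lt_pi hu0 (by linarith only [hs, hu0, hu1])
    unfold ff
    apply Real.log_le_log (by linarith only [hsin])
    have e1 : Real.sin (y + z - u) - Real.sin u =
        2 * Real.sin ((y + z - u - u) / 2) * Real.cos ((y + z - u + u) / 2) :=
      Real.sin_sub_sin _ _
    have e2 : 0 ≤ Real.sin ((y + z - u - u) / 2) :=
      Real.sin_nonneg_of_nonneg_of_le_pi (by linarith only [hu1]) (by linarith only [hs, hu0, hu1])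
    have e3 : 0 ≤ Real.cos ((y + z - u + u) / 2) :=
      Real.cos_nonneg_of_mem_Icc ⟨by linarith only [hs, hu0, hu1], by linarith only [hs]⟩
    have e4 := mul_nonneg e2 e3
    nlinarith only [e1, e4]
  rw [intervalIntegral.integral_comp_sub_left (fun u => ff u)] at h3
  rw [show y + z - (y + z) / 2 = (y + z) / 2 by ring, show y + z - y = z by ring] at h3
  linarith only [h1, h2, h3]

/-- the regular ideal tetrahedron maximises the volume -/
lemma LF_tetra {y z : ℝ} (hy : 0 ≤ y) (hz : 0 ≤ z) (hs : y + z ≤ π) :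
    LF (y + z) - LF y - LF z ≤ -2 * LF (π / 6) := by
  have h1 : 2 * LF ((y + z) / 2) ≤ LF y + LF z := by
    rcases le_total y z with h | h
    · exact LF_sym hy h hs
    · have := LF_sym hz h (by linarith only [hs])
      rw [add_comm z y] at this
      linarith only [this]
  have h2 := LF_dup (x := y + z)
  have h3 := LF_ge (y := π / 2 - (y + z) / 2) (by linarith only [hs]) (by linarith only [hy, hz])
  linarith only [h1, h2, h3]

/-! ### Riemann sums -/

lemma midpoint {a δ : ℝ} (hδ : 0 ≤ δ) (h1 : δ ≤ a) (h2 : a + δ ≤ π) :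
    ∫ u in (a - δ)..(a + δ), ff u ≤ 2 * δ * ff a := by
  rw [← integral_add_adjacent_intervals (ii (a - δ) a) (ii a (a + δ))]
  have e1 : ∫ u in (a - δ)..a, ff u = ∫ x in (0 : ℝ)..δ, ff (a - x) := by
    rw [intervalIntegral.integral_comp_sub_left (fun u => ff u), sub_zero]
  have e2 : ∫ u in a..(a + δ), ff u = ∫ x in (0 : ℝ)..δ, ff (a + x) := by
    rw [intervalIntegral.integral_comp_add_left (fun u => ff u), add_zero]
  have i1 : IntervalIntegrable (fun x => ff (a - x)) volume 0 δ := by
    have := (ii (a - 0) (a - δ)).comp_sub_left a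
    simpa using this
  have i2 : IntervalIntegrable (fun x => ff (a + x)) volume 0 δ := by
    have := (ii (a + 0) (a + δ)).comp_add_left a
    simpa using this
  rw [e1, e2, ← integral_add i1 i2]
  have h3 : ∫ x in (0 : ℝ)..δ, (ff (a - x) + ff (a + x)) ≤ ∫ x in (0 : ℝ)..δ, 2 * ff a := by
    apply integral_mono_on_of_le_Ioo hδ (i1.add i2) intervalIntegrable_const
    intro x hx
    have s1 : 0 < Real.sin (a - x) :=
      Real.sin_pos_of_pos_of_lt_pi (by linarith only [h1, hx, hx.2]) (by linarith only [hδ, h2, hx, hx.1])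
    have s2 : 0 < Real.sin (a + x) :=
      Real.sin_pos_of_pos_of_lt_pi (by linarith only [hδ, h1, hx, hx.1]) (by linarith only [h2, hx, hx.2])
    have s3 : 0 < Real.sin a :=
      Real.sin_pos_of_pos_of_lt_pi (by linarith only [h1, hx, hx.1, hx.2]) (by linarith only [h2, hx, hx.1, hx.2])
    unfold ff
    rw [← Real.log_mul (by positivity) (by positivity), two_mul (Real.log _),
      ← Real.log_mul (by positivity) (by positivity)]
    apply Real.log_le_log (by positivity)
    have e3 : Real.sin (a - x) * Real.sin (a + x) = Real.sin a ^ 2 - Real.sin x ^ 2 := by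
      rw [Real.sin_sub, Real.sin_add]
      have c1 := Real.sin_sq_add_cos_sq a
      have c2 := Real.sin_sq_add_cos_sq x
      have c3 : Real.cos x ^ 2 = 1 - Real.sin x ^ 2 := by linarith only [c2]
      have c4 : Real.cos a ^ 2 = 1 - Real.sin a ^ 2 := by linarith only [c1]
      ring_nf
      rw [c3, c4]
      ring
    nlinarith only [e3, sq_nonneg (Real.sin x)]
  refine h3.trans (le_of_eq ?_)
  rw [intervalIntegral.integral_const, smul_eq_mul]
  ring

lemma trapezoid {a b : ℝ} (h0 : 0 < a) (hab : a ≤ b) (hb : b < π) :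
    (b - a) * (ff a + ff b) ≤ 2 * ∫ u in a..b, ff u := by
  have e1 : ∫ u in a..b, ff u = ∫ u in a..b, ff (a + b - u) := by
    rw [intervalIntegral.integral_comp_sub_left (fun u => ff u)]
    congr 1 <;> ring
  have i1 : IntervalIntegrable (fun u => ff (a + b - u)) volume a b := by
    have := (ii (a + b - a) (a + b - b)).comp_sub_left (a + b)
    simpa using this
  have e2 : 2 * ∫ u in a..b, ff u = ∫ u in a..b, (ff u + ff (a + b - u)) := by
    rw [integral_add (ii a b) i1, ← e1]
    ring
  rw [e2]
  have h3 : ∫ u in a..b, (ff a + ff b) ≤ ∫ u in a..b, (ff u + ff (a + b - u)) := by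
    apply integral_mono_on_of_le_Ioo hab intervalIntegrable_const ((ii a b).add i1)
    intro u hu
    have s1 : 0 < Real.sin u :=
      Real.sin_pos_of_pos_of_lt_pi (by linarith only [h0, hu, hu.1]) (by linarith only [hb, hu, hu.2])
    have s2 : 0 < Real.sin (a + b - u) :=
      Real.sin_pos_of_pos_of_lt_pi (by linarith only [h0, hu, hu.2]) (by linarith only [hb, hu, hu.1])
    have s3 : 0 < Real.sin a := Real.sin_pos_of_pos_of_lt_pi h0 (by linarith only [hab, hb])
    have s4 : 0 < Real.sin b := Real.sin_pos_of_pos_of_lt_pi (by linarith only [h0, hab]) hb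
    unfold ff
    rw [← Real.log_mul (by positivity) (by positivity),
      ← Real.log_mul (by positivity) (by positivity)]
    apply Real.log_le_log (by positivity)
    have p1 : Real.sin u * Real.sin (a + b - u) =
        (Real.cos (2 * u - (a + b)) - Real.cos (a + b)) / 2 := by
      have q1 : Real.cos (2 * u - (a + b)) = Real.cos (u - (a + b - u)) := by congr 1; ring
      have q2 : Real.cos (a + b) = Real.cos (u + (a + b - u)) := by congr 1; ring
      rw [q1, q2, Real.cos_sub, Real.cos_add]
      ring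
    have p2 : Real.sin a * Real.sin b = (Real.cos (b - a) - Real.cos (a + b)) / 2 := by
      rw [Real.cos_sub, Real.cos_add]
      ring
    have p3 : Real.cos (b - a) ≤ Real.cos (2 * u - (a + b)) := by
      rw [← Real.cos_abs (2 * u - (a + b))]
      apply Real.cos_le_cos_of_nonneg_of_le_pi (abs_nonneg _) (by linarith only [h0, hb])
      rw [abs_le]
      constructor <;> linarith only [hu, hu.1, hu.2]
    nlinarith only [p1, p2, p3]
  refine le_trans (le_of_eq ?_) h3
  rw [intervalIntegral.integral_const, smul_eq_mul]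

/-- `∑_{j=1}^m log (2 sin (j h))` -/
noncomputable def SS (h : ℝ) (m : ℕ) : ℝ := ∑ j ∈ Finset.range m, ff ((j + 1) * h)

lemma SS_succ (h : ℝ) (m : ℕ) : SS h (m + 1) = SS h m + ff ((m + 1) * h) := by
  unfold SS; rw [Finset.sum_range_succ]

lemma SS_lower {h : ℝ} (h0 : 0 < h) (m : ℕ) (hm : (m + 1 / 2) * h ≤ π) :
    LF ((m + 1 / 2) * h) - LF (h / 2) ≤ h * SS h m := by
  induction m with
  | zero =>
    unfold SS
    simp only [Nat.cast_zero, zero_add, Finset.range_zero, Finset.sum_empty, mul_zero]
    rw [show (1 / 2 : ℝ) * h = h / 2 by ring]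
    linarith only []
  | succ m ih =>
    push_cast at hm ⊢
    have ih := ih (by nlinarith only [h0, hm])
    have h1 := midpoint (a := (m + 1) * h) (δ := h / 2) (by linarith only [h0])
      (by nlinarith only [h0, Nat.cast_nonneg (α := ℝ) m]) (by linarith only [hm])
    rw [← LF_sub, show (m + 1) * h - h / 2 = (m + 1 / 2) * h by ring,
      show (m + 1) * h + h / 2 = (m + 1 + 1 / 2) * h by ring] at h1
    rw [SS_succ]
    linarith only [ih, h1]

lemma SS_upper {h : ℝ} (h0 : 0 < h) (m : ℕ) (hm : (m + 1) * h < π) :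
    2 * (h * SS h (m + 1)) ≤ 2 * (LF ((m + 1) * h) - LF h) + h * (ff h + ff ((m + 1) * h)) := by
  induction m with
  | zero =>
    unfold SS
    simp only [Nat.cast_zero, zero_add, Finset.range_one, Finset.sum_singleton, one_mul]
    linarith only []
  | succ m ih =>
    push_cast at hm ⊢
    have ih := ih (by nlinarith only [h0, hm])
    have hm0 : (0 : ℝ) ≤ m := Nat.cast_nonneg m
    have h1 := trapezoid (a := (m + 1) * h) (b := (m + 1 + 1) * h) (by positivity)
      (by nlinarith only [h0]) hm
    rw [← LF_sub] at h1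
    rw [SS_succ]
    push_cast
    linarith only [ih, h1]

/-- lower bound of `LF` near `0` -/
lemma LF_small {h : ℝ} (h0 : 0 < h) (h1 : h ≤ π / 2) : h * Real.log h - h ≤ LF h := by
  have hpi := Real.pi_pos
  have e1 : ∫ u in (0 : ℝ)..h, Real.log u = h * Real.log h - h := by
    rw [integral_log]
    simp
  rw [← e1]
  unfold LF
  apply integral_mono_on_of_le_Ioo h0.le intervalIntegral.intervalIntegrable_log' (ii 0 h)
  intro u hu
  unfold ff
  apply Real.log_le_log hu.1
  have h2 := Real.mul_le_sin hu.1.le (by linarith only [h1, hu, hu.2])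
  have h3 : u ≤ 2 * (2 / π * u) := by
    have : (1 : ℝ) ≤ 2 * (2 / π) := by
      rw [show 2 * (2 / π) = 4 / π by ring, le_div_iff₀ hpi]
      linarith only [Real.pi_le_four]
    nlinarith only [this, hu, hu.1]
  linarith only [h2, h3]

end Pool.Agent.Work.MP_b30479_gt.Lob
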