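import Pool.Agent.Work.MP_b30479_gt.TB.Coord

/-!
# The Casimir operator commutes with the braiding on highest weight vectors
-/

namespace Pool.Agent.Work.MP_b30479_gt.TB

open Finset

/-- matrix entries of the braiding in the middle weight space -/
noncomputable def E1 (s : ℕ) (t : ℂ) (j k : ℕ) : ℂ :=
  (-1) ^ k * t ^ ((k.choose 2 : ℤ) - s * k - ((j : ℤ) + k - s) ^ 2) *
    ((qf t (j + k)) ^ 2 / ((qf t j) ^ 2 * qf t k))

section
variable {s : ℕ} {t : ℂ} (h : IsPrimitiveRoot t (2 * s + 1))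
include h

lemma qf_inv_mul (i : ℕ) (hi : i ≤ 2 * s) : qf t⁻¹ i * qf t (2 * s - i) = qf t (2 * s) := by
  induction i with
  | zero => simp
  | succ i ih =>
    rw [← ih (by omega), qf_succ, show 2 * s - i = (2 * s - (i + 1)) + 1 by omega, qf_succ,
      inv_pow_eq h (show i + 1 + (2 * s - (i + 1) + 1) = 2 * s + 1 by omega)]
    ring

lemma qf_inv_eq (j : ℕ) (hj : j ≤ 2 * s) : qf t⁻¹ (2 * s - j) = qf t (2 * s) / qf t j := by
  rw [eq_div_iff (qf_ne_zero h hj)]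
  have := qf_inv_mul h (2 * s - j) (by omega)
  rwa [show 2 * s - (2 * s - j) = j by omega] at this

/-- `E_{a,j} (1 - t^{k+1}) = - W t^k (1-t^{j+1})^2 E_{a,j+1}` -/
lemma E1_rel1 (j k : ℕ) (hjk : j + k + 1 ≤ 2 * s) :
    E1 s t j (k + 1) * (1 - t ^ (k + 1)) =
      -(t ^ (s + 1) * t ^ k * (1 - t ^ (j + 1)) ^ 2) * E1 s t (j + 1) k := by
  have h0 : t ≠ 0 := h.ne_zero (by omega)
  have nj : qf t j ≠ 0 := qf_ne_zero h (by omega)
  have nk : qf t k ≠ 0 := qf_ne_zero h (by omega)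
  have nj1 : 1 - t ^ (j + 1) ≠ 0 := one_sub_pow_ne h (by omega) (by omega)
  have nk1 : 1 - t ^ (k + 1) ≠ 0 := one_sub_pow_ne h (by omega) (by omega)
  unfold E1
  rw [qf_succ t k, qf_succ t j, show j + 1 + k = j + (k + 1) by ring]
  have e1 : t ^ (((k + 1).choose 2 : ℤ) - s * ((k + 1 : ℕ) : ℤ) -
      ((j : ℤ) + ((k + 1 : ℕ) : ℤ) - s) ^ 2) =
      t ^ (s + 1) * t ^ k * t ^ ((k.choose 2 : ℤ) - s * k - (((j + 1 : ℕ) : ℤ) + k - s) ^ 2) := by
    have e2 : t ^ (s + 1) * t ^ k * t ^ ((k.choose 2 : ℤ) - s * k -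
        (((j + 1 : ℕ) : ℤ) + k - s) ^ 2) = t ^ (-(2 * (s : ℤ) + 1)) *
        (t ^ (s + 1) * t ^ k * t ^ ((k.choose 2 : ℤ) - s * k -
        (((j + 1 : ℕ) : ℤ) + k - s) ^ 2)) := by
      have : t ^ (-(2 * (s : ℤ) + 1)) = 1 := by
        rw [zpow_neg, inv_eq_one]
        exact_mod_cast h.pow_eq_one
      rw [this, one_mul]
    rw [e2, ← zpow_natCast, ← zpow_natCast, ← zpow_add₀ h0, ← zpow_add₀ h0, ← zpow_add₀ h0]
    congr 1
    rw [Nat.choose_succ_succ' k 1, Nat.choose_one_right]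
    push_cast
    ring
  rw [e1]
  field_simp
  ring

/-- `E_{a+1,j} (1 - t^{k+1}) = - W t^{k-2a-2} (1-t^{a+1})^2 E_{a,j}` -/
lemma E1_rel2 (j k : ℕ) (hjk : j + k + 1 ≤ 2 * s) :
    E1 s t j (k + 1) * (1 - t ^ (k + 1)) =
      -(t ^ (s + 1) * t ^ k * (t⁻¹ ^ (j + k + 1)) ^ 2 * (1 - t ^ (j + k + 1)) ^ 2) * E1 s t j k := by
  have h0 : t ≠ 0 := h.ne_zero (by omega)
  have nj : qf t j ≠ 0 := qf_ne_zero h (by omega)
  have nk : qf t k ≠ 0 := qf_ne_zero h (by omega)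
  have nk1 : 1 - t ^ (k + 1) ≠ 0 := one_sub_pow_ne h (by omega) (by omega)
  unfold E1
  rw [qf_succ t k, show j + (k + 1) = j + k + 1 by ring, qf_succ t (j + k)]
  have e1 : t ^ (((k + 1).choose 2 : ℤ) - s * ((k + 1 : ℕ) : ℤ) -
      ((j : ℤ) + ((k + 1 : ℕ) : ℤ) - s) ^ 2) =
      t ^ (s + 1) * t ^ k * (t⁻¹ ^ (j + k + 1)) ^ 2 *
        t ^ ((k.choose 2 : ℤ) - s * k - ((j : ℤ) + k - s) ^ 2) := by
    rw [inv_pow, ← inv_pow, ← zpow_natCast (t⁻¹), inv_zpow', ← zpow_natCast (t ^ _) 2, ← zpow_mul,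
      ← zpow_natCast t, ← zpow_natCast t, ← zpow_add₀ h0, ← zpow_add₀ h0, ← zpow_add₀ h0]
    congr 1
    rw [Nat.choose_succ_succ' k 1, Nat.choose_one_right]
    push_cast
    ring
  rw [e1]
  field_simp
  ring

end

section
variable {s : ℕ} {u : ℂˣ} (h : IsPrimitiveRoot (u : ℂ) (2 * s + 1))
include h

lemma entry_E1 (j k : ℕ) (hjk : j + k ≤ 2 * s) :
    entry s u true (2 * s - j) j (j + k) (2 * s - (j + k)) = E1 s u j k := by
  have h0 : (u : ℂ) ≠ 0 := u.ne_zero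
  rw [entry_true s u (2 * s - j) j k (2 * s - (j + k)) (by omega),
    coeffPos_closed h (by omega) (by omega) (by omega), show 2 * s - j - k = 2 * s - (j + k) by omega,
    qf_inv_eq h j (by omega), qf_inv_eq h (j + k) hjk]
  have nj : qf (u : ℂ) j ≠ 0 := qf_ne_zero h (by omega)
  have nk : qf (u : ℂ) k ≠ 0 := qf_ne_zero h (by omega)
  have njk : qf (u : ℂ) (j + k) ≠ 0 := qf_ne_zero h (by omega)
  have n2 : qf (u : ℂ) (2 * s) ≠ 0 := qf_ne_zero h (by omega)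
  unfold E1
  have e1 : ((k.choose 2 : ℤ) - s * k + ((s : ℤ) - ((2 * s - j : ℕ) : ℤ) + k) * ((s : ℤ) - j - k)) =
      ((k.choose 2 : ℤ) - s * k - ((j : ℤ) + k - s) ^ 2) := by
    rw [Nat.cast_sub (by omega)]
    push_cast
    ring
  rw [e1]
  field_simp

end

/-- matrix entries of the braiding in the middle weight space -/
noncomputable def Ef (s : ℕ) (t : ℂ) (a j : ℕ) : ℂ := if j ≤ a then E1 s t j (a - j) else 0

lemma Ef_add (s : ℕ) (t : ℂ) (j k : ℕ) : Ef s t (j + k) j = E1 s t j k := by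
  unfold Ef
  rw [if_pos (by omega), Nat.add_sub_cancel_left]

lemma Ef_lt {s : ℕ} {t : ℂ} {a j : ℕ} (h : a < j) : Ef s t a j = 0 := by
  unfold Ef
  rw [if_neg (by omega)]

section
variable {s : ℕ} {t : ℂ} (h : IsPrimitiveRoot t (2 * s + 1))
include h

lemma T1 (j k : ℕ) (hjk : j + k ≤ 2 * s) :
    (if 1 ≤ j then Ef s t (j + k) (j - 1) * (1 - t⁻¹ ^ j) ^ 2 else 0) * (1 - t ^ (k + 1)) =
      -(t ^ (s + 1) * t ^ k * (1 - t ^ j) ^ 2 * (1 - t⁻¹ ^ j) ^ 2) * E1 s t j k := by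
  rcases Nat.eq_zero_or_pos j with rfl | hj
  · simp
  · obtain ⟨j, rfl⟩ : ∃ j', j = j' + 1 := ⟨j - 1, by omega⟩
    rw [if_pos (by omega), Nat.add_sub_cancel, show j + 1 + k = j + (k + 1) by ring, Ef_add]
    have := E1_rel1 h j k (by omega)
    linear_combination (1 - t⁻¹ ^ (j + 1)) ^ 2 * this

lemma T2 (j k : ℕ) (hjk : j + k ≤ 2 * s) :
    (if j < 2 * s then Ef s t (j + k) (j + 1) * (1 - t⁻¹ ^ (j + 1)) ^ 2 else 0) =
      -(t ^ s * t⁻¹ * t⁻¹ ^ k * (t⁻¹ ^ j) ^ 2 * (1 - t ^ k)) * E1 s t j k := by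
  have h0 : t ≠ 0 := h.ne_zero (by omega)
  have hV := sq_mul h
  rcases Nat.eq_zero_or_pos k with rfl | hk
  · rw [Nat.add_zero, Ef_lt (by omega)]
    simp
  · obtain ⟨k, rfl⟩ : ∃ k', k = k' + 1 := ⟨k - 1, by omega⟩
    rw [if_pos (by omega), show j + (k + 1) = (j + 1) + k by ring, Ef_add]
    have := E1_rel1 h j k (by omega)
    have nk1 : 1 - t ^ (k + 1) ≠ 0 := one_sub_pow_ne h (by omega) (by omega)
    have e1 : -(t ^ s * t⁻¹ * t⁻¹ ^ (k + 1) * (t⁻¹ ^ j) ^ 2 * (1 - t ^ (k + 1))) * E1 s t j (k + 1) =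
        -(t ^ s * t⁻¹ * t⁻¹ ^ (k + 1) * (t⁻¹ ^ j) ^ 2) * (E1 s t j (k + 1) * (1 - t ^ (k + 1))) := by
      ring
    rw [e1, this]
    have e2 : (t ^ s * t⁻¹ * t⁻¹ ^ (k + 1) * (t⁻¹ ^ j) ^ 2) * (t ^ (s + 1) * t ^ k) =
        (t⁻¹ ^ (j + 1)) ^ 2 := by
      have n1 : t ^ j ≠ 0 := pow_ne_zero _ h0
      have n2 : t ^ k ≠ 0 := pow_ne_zero _ h0
      simp only [pow_succ, inv_pow]
      field_simp
      linear_combination hV
    have e3 : (1 - t⁻¹ ^ (j + 1)) ^ 2 = (t⁻¹ ^ (j + 1)) ^ 2 * (1 - t ^ (j + 1)) ^ 2 := by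
      have n1 : t ^ (j + 1) ≠ 0 := pow_ne_zero _ h0
      simp only [inv_pow]
      field_simp
      ring
    rw [e3, ← e2]
    ring

lemma T3 (j k : ℕ) (hjk : j + k ≤ 2 * s) :
    (if 1 ≤ j + k then (1 - t ^ (j + k)) ^ 2 * Ef s t (j + k - 1) j else 0) =
      -(t ^ (s + 1) * t⁻¹ ^ k * (t ^ (j + k)) ^ 2 * (1 - t ^ k)) * E1 s t j k := by
  have h0 : t ≠ 0 := h.ne_zero (by omega)
  have hV := sq_mul h
  rcases Nat.eq_zero_or_pos k with rfl | hk
  · rw [Nat.add_zero]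
    by_cases hj : 1 ≤ j
    · rw [Ef_lt (by omega)]
      simp
    · rw [if_neg hj]
      simp
  · obtain ⟨k, rfl⟩ : ∃ k', k = k' + 1 := ⟨k - 1, by omega⟩
    rw [if_pos (by omega), show j + (k + 1) - 1 = j + k by omega, Ef_add]
    have := E1_rel2 h j k (by omega)
    have e1 : -(t ^ (s + 1) * t⁻¹ ^ (k + 1) * (t ^ (j + (k + 1))) ^ 2 * (1 - t ^ (k + 1))) *
        E1 s t j (k + 1) = -(t ^ (s + 1) * t⁻¹ ^ (k + 1) * (t ^ (j + (k + 1))) ^ 2) *
          (E1 s t j (k + 1) * (1 - t ^ (k + 1))) := by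
      ring
    rw [e1, this, ← Nat.add_assoc]
    have e2 : (t ^ (s + 1) * t⁻¹ ^ (k + 1) * (t ^ (j + k + 1)) ^ 2) *
        (t ^ (s + 1) * t ^ k * (t⁻¹ ^ (j + k + 1)) ^ 2) = 1 := by
      have n1 : t ^ (j + k + 1) ≠ 0 := pow_ne_zero _ h0
      have n2 : t ^ k ≠ 0 := pow_ne_zero _ h0
      rw [pow_succ t s, pow_succ t⁻¹ k, inv_pow, inv_pow]
      generalize t ^ (j + k + 1) = x at *
      field_simp
      linear_combination hV
    linear_combination -((1 - t ^ (j + k + 1)) ^ 2 * E1 s t j k) * e2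

lemma T4 (j k : ℕ) (hjk : j + k ≤ 2 * s) :
    (if j + k < 2 * s then (1 - t ^ (j + k + 1)) ^ 2 * Ef s t (j + k + 1) j else 0) *
      (1 - t ^ (k + 1)) =
      -(t ^ (s + 1) * t ^ k * (t⁻¹ ^ (j + k + 1)) ^ 2 * (1 - t ^ (j + k + 1)) ^ 4) *
        E1 s t j k := by
  by_cases hlt : j + k < 2 * s
  · rw [if_pos hlt, Nat.add_assoc j k 1, Ef_add]
    have := E1_rel2 h j k (by omega)
    rw [Nat.add_assoc j k 1] at this
    linear_combination (1 - t ^ (j + (k + 1))) ^ 2 * this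
  · rw [if_neg hlt, show j + k + 1 = 2 * s + 1 by omega, h.pow_eq_one]
    simp

lemma cas_comm_entry {a j : ℕ} (ha : a ≤ 2 * s) (hj : j ≤ 2 * s) :
    Ef s t a j * dg s t (2 * s - j) j +
      (if 1 ≤ j then Ef s t a (j - 1) * (1 - t⁻¹ ^ j) ^ 2 else 0) +
      (if j < 2 * s then Ef s t a (j + 1) * (1 - t⁻¹ ^ (j + 1)) ^ 2 else 0) =
    dg s t a (2 * s - a) * Ef s t a j +
      (if 1 ≤ a then (1 - t ^ a) ^ 2 * Ef s t (a - 1) j else 0) +
      (if a < 2 * s then (1 - t ^ (a + 1)) ^ 2 * Ef s t (a + 1) j else 0) := by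
  have h0 : t ≠ 0 := h.ne_zero (by omega)
  have hV := sq_mul h
  rcases lt_trichotomy j (a + 1) with hlt | heq | hgt
  · obtain ⟨k, rfl⟩ : ∃ k, a = j + k := ⟨a - j, by omega⟩
    have t1 := T1 h j k ha
    have t2 := T2 h j k ha
    have t3 := T3 h j k ha
    have t4 := T4 h j k ha
    rw [t2, t3, Ef_add]
    have d1 : dg s t (2 * s - j) j = t ^ s * (4 * t⁻¹ ^ j - t⁻¹ * (t⁻¹ ^ j) ^ 2 - (t⁻¹ ^ j) ^ 2) := by
      unfold dg
      rw [← inv_pow_eq h (show j + 1 + (2 * s - j) = 2 * s + 1 by omega)]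
      have n1 : t ^ j ≠ 0 := pow_ne_zero _ h0
      simp only [pow_succ, inv_pow]
      field_simp
      ring
    have d2 : dg s t (j + k) (2 * s - (j + k)) =
        t ^ s * (4 * t * t ^ (j + k) - t * (t ^ (j + k)) ^ 2 - t ^ 2 * (t ^ (j + k)) ^ 2) := by
      unfold dg
      rw [inv_pow_eq h (show 2 * s - (j + k) + (j + k + 1) = 2 * s + 1 by omega)]
      simp only [pow_succ]
      ring
    rw [d1, d2]
    by_cases hk : 1 - t ^ (k + 1) = 0
    · have hk1 : k = 2 * s := by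
        by_contra hne
        exact one_sub_pow_ne h (k := k + 1) (by omega) (by omega) hk
      have hj0 : j = 0 := by omega
      subst hj0
      rw [if_neg (by omega), if_neg (by omega)]
      have hx : t ^ k = t⁻¹ := by
        apply eq_inv_of_mul_eq_one_left
        rw [← pow_succ]
        exact (sub_eq_zero.mp hk).symm
      rw [Nat.zero_add, inv_pow, hx, pow_zero, pow_succ t s]
      have nV : t ^ s ≠ 0 := pow_ne_zero _ h0
      field_simp
      ring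
    · apply mul_right_cancel₀ hk
      rw [add_mul, add_mul, add_mul, add_mul, t1, t4]
      have n1 : t ^ j ≠ 0 := pow_ne_zero _ h0
      have n2 : t ^ k ≠ 0 := pow_ne_zero _ h0
      have nV : t ^ s ≠ 0 := pow_ne_zero _ h0
      simp only [pow_succ t, pow_add t, inv_pow, pow_zero, one_mul]
      generalize E1 s t j k = X
      clear t1 t2 t3 t4 hk d1 d2
      generalize t ^ j = J at *
      generalize t ^ k = K at *
      generalize t ^ s = V at *
      field_simp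
      ring
  · subst heq
    have hlt : a < 2 * s := by omega
    rw [Ef_lt (by omega), if_pos (by omega), Nat.add_sub_cancel, if_pos hlt]
    have e1 : (if a + 1 < 2 * s then Ef s t a (a + 1 + 1) * (1 - t⁻¹ ^ (a + 1 + 1)) ^ 2 else 0) = 0 := by
      rw [Ef_lt (by omega), zero_mul, ite_self]
    have e2 : (if 1 ≤ a then (1 - t ^ a) ^ 2 * Ef s t (a - 1) (a + 1) else 0) = 0 := by
      rw [Ef_lt (by omega), mul_zero, ite_self]
    rw [e1, e2]
    have e3 : Ef s t a a = E1 s t a 0 := Ef_add s t a 0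
    have e4 : Ef s t (a + 1) (a + 1) = E1 s t (a + 1) 0 := Ef_add s t (a + 1) 0
    rw [e3, e4]
    unfold E1
    have na : qf t a ≠ 0 := qf_ne_zero h (by omega)
    have na1 : qf t (a + 1) ≠ 0 := qf_ne_zero h (by omega)
    have e5 : t ^ (((0 : ℕ).choose 2 : ℤ) - s * ((0 : ℕ) : ℤ) - ((a : ℤ) + ((0 : ℕ) : ℤ) - s) ^ 2) =
        t ^ (((0 : ℕ).choose 2 : ℤ) - s * ((0 : ℕ) : ℤ) -
          (((a + 1 : ℕ) : ℤ) + ((0 : ℕ) : ℤ) - s) ^ 2) * (t ^ (a + 1)) ^ 2 := by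
      have e6 : t ^ (((0 : ℕ).choose 2 : ℤ) - s * ((0 : ℕ) : ℤ) -
          (((a + 1 : ℕ) : ℤ) + ((0 : ℕ) : ℤ) - s) ^ 2) * (t ^ (a + 1)) ^ 2 =
          t ^ (-(2 * (s : ℤ) + 1)) * (t ^ (((0 : ℕ).choose 2 : ℤ) - s * ((0 : ℕ) : ℤ) -
          (((a + 1 : ℕ) : ℤ) + ((0 : ℕ) : ℤ) - s) ^ 2) * (t ^ (a + 1)) ^ 2) := by
        have : t ^ (-(2 * (s : ℤ) + 1)) = 1 := by
          rw [zpow_neg, inv_eq_one]
          exact_mod_cast h.pow_eq_one
        rw [this, one_mul]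
      rw [e6, ← zpow_natCast, ← zpow_natCast, ← zpow_mul, ← zpow_add₀ h0, ← zpow_add₀ h0]
      congr 1
      simp only [Nat.choose_zero_succ]
      push_cast
      ring
    rw [e5]
    simp only [pow_zero, Nat.add_zero, qf_zero, mul_one]
    rw [div_self (pow_ne_zero 2 na), div_self (pow_ne_zero 2 na1)]
    have nx : t ^ (a + 1) ≠ 0 := pow_ne_zero _ h0
    rw [inv_pow]
    generalize t ^ (a + 1) = x at *
    field_simp
    ring
  · rw [Ef_lt (by omega)]
    have e1 : (if 1 ≤ j then Ef s t a (j - 1) * (1 - t⁻¹ ^ j) ^ 2 else 0) = 0 := by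
      rw [Ef_lt (by omega), zero_mul, ite_self]
    have e2 : (if j < 2 * s then Ef s t a (j + 1) * (1 - t⁻¹ ^ (j + 1)) ^ 2 else 0) = 0 := by
      rw [Ef_lt (by omega), zero_mul, ite_self]
    have e3 : (if 1 ≤ a then (1 - t ^ a) ^ 2 * Ef s t (a - 1) j else 0) = 0 := by
      rw [Ef_lt (by omega), mul_zero, ite_self]
    have e4 : (if a < 2 * s then (1 - t ^ (a + 1)) ^ 2 * Ef s t (a + 1) j else 0) = 0 := by
      rw [Ef_lt (by omega), mul_zero, ite_self]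
    rw [e1, e2, e3, e4]
    ring

end

lemma sum_shift (N : ℕ) (f : ℕ → ℂ) :
    ∑ j ∈ range (N + 1), (if j < N then f (j + 1) else 0) =
      ∑ j ∈ range (N + 1), (if 1 ≤ j then f j else 0) := by
  rw [Finset.sum_range_succ, Finset.sum_range_succ']
  rw [if_neg (by omega), if_neg (by omega)]
  congr 1
  apply Finset.sum_congr rfl
  intro j hj
  rw [mem_range] at hj
  rw [if_pos hj, if_pos (by omega)]

section
variable {s : ℕ} {u : ℂˣ} (h : IsPrimitiveRoot (u : ℂ) (2 * s + 1))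
include h

lemma entry_Ef {a j : ℕ} (ha : a ≤ 2 * s) (hj : j ≤ 2 * s) :
    entry s u true (2 * s - j) j a (2 * s - a) = Ef s u a j := by
  by_cases hja : j ≤ a
  · obtain ⟨k, rfl⟩ : ∃ k, a = j + k := ⟨a - j, by omega⟩
    rw [Ef_add, entry_E1 h j k ha]
  · rw [Ef_lt (by omega), entry_true_zero _ _ _ _ _ _ (by omega)]

lemma M_entry (Z : ℕ → ℕ → ℂ) {a : ℕ} (ha : a ≤ 2 * s) :
    M (entry s u true) Z a (2 * s - a) =
      ∑ j ∈ range (2 * s + 1), Ef s u a j * Z (2 * s - j) j := by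
  unfold M
  rw [show a + (2 * s - a) = 2 * s by omega]
  unfold AD
  rw [Finset.Nat.sum_antidiagonal_eq_sum_range_succ_mk, ← Finset.sum_range_reflect]
  apply Finset.sum_congr rfl
  intro j hj
  rw [mem_range] at hj
  simp only [Nat.succ_sub_one]
  have e1 : 2 * s - (2 * s - j) = j := by omega
  rw [e1, entry_Ef h ha (by omega)]

lemma M_comm_cas (Z : ℕ → ℕ → ℂ) {a : ℕ} (ha : a ≤ 2 * s) :
    M (entry s u true) (M (cas s u) Z) a (2 * s - a) =
      M (cas s u) (M (entry s u true) Z) a (2 * s - a) := by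
  have h0 : (u : ℂ) ≠ 0 := u.ne_zero
  rw [M_entry h _ ha, M_cas]
  -- left side
  have eL : ∑ j ∈ range (2 * s + 1), Ef s u a j * M (cas s u) Z (2 * s - j) j =
      ∑ j ∈ range (2 * s + 1), (Ef s u a j * dg s u (2 * s - j) j +
      (if 1 ≤ j then Ef s u a (j - 1) * (1 - (u : ℂ)⁻¹ ^ j) ^ 2 else 0) +
      (if j < 2 * s then Ef s u a (j + 1) * (1 - (u : ℂ)⁻¹ ^ (j + 1)) ^ 2 else 0)) *
        Z (2 * s - j) j := by
    have e1 : ∀ j ∈ range (2 * s + 1), Ef s u a j * M (cas s u) Z (2 * s - j) j =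
        Ef s u a j * dg s u (2 * s - j) j * Z (2 * s - j) j +
        (if j < 2 * s then (fun j => Ef s u a (j - 1) * (1 - (u : ℂ)⁻¹ ^ j) ^ 2 *
          Z (2 * s - j) j) (j + 1) else 0) +
        (if 1 ≤ j then (fun j => Ef s u a (j + 1) * (1 - (u : ℂ)⁻¹ ^ (j + 1)) ^ 2 *
          Z (2 * s - j) j) (j - 1) else 0) := by
      intro j hj
      rw [mem_range] at hj
      rw [M_cas, mul_add, mul_add, ← mul_assoc]
      congr 1
      · congr 1
        by_cases hj2 : j < 2 * s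
        · rw [if_pos (by omega), if_pos hj2]
          simp only [Nat.add_sub_cancel]
          rw [← inv_pow_eq h (show j + 1 + (2 * s - j) = 2 * s + 1 by omega),
            show 2 * s - j - 1 = 2 * s - (j + 1) by omega]
          ring
        · rw [if_neg (by omega), if_neg hj2, mul_zero]
      · by_cases hj2 : 1 ≤ j
        · rw [if_pos hj2, if_pos hj2]
          obtain ⟨j, rfl⟩ : ∃ j', j = j' + 1 := ⟨j - 1, by omega⟩
          simp only [Nat.add_sub_cancel]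
          rw [show 2 * s - (j + 1) + 1 = 2 * s - j by omega,
            ← inv_pow_eq h (show j + 1 + (2 * s - j) = 2 * s + 1 by omega),
            inv_pow_eq h (show 2 * s - j + (j + 1) = 2 * s + 1 by omega)]
          have nx : (u : ℂ) ^ (j + 1) ≠ 0 := pow_ne_zero _ h0
          rw [inv_pow]
          field_simp
          ring
        · rw [if_neg hj2, if_neg hj2, mul_zero]
    rw [Finset.sum_congr rfl e1, Finset.sum_add_distrib, Finset.sum_add_distrib,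
      sum_shift (2 * s) (fun j => Ef s u a (j - 1) * (1 - (u : ℂ)⁻¹ ^ j) ^ 2 * Z (2 * s - j) j)]
    have e2 : ∑ j ∈ range (2 * s + 1), (if 1 ≤ j then (fun j => Ef s u a (j + 1) *
        (1 - (u : ℂ)⁻¹ ^ (j + 1)) ^ 2 * Z (2 * s - j) j) (j - 1) else 0) =
        ∑ j ∈ range (2 * s + 1), (if j < 2 * s then Ef s u a (j + 1) *
        (1 - (u : ℂ)⁻¹ ^ (j + 1)) ^ 2 * Z (2 * s - j) j else 0) := by
      rw [← sum_shift (2 * s) (fun j => (fun j => Ef s u a (j + 1) *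
        (1 - (u : ℂ)⁻¹ ^ (j + 1)) ^ 2 * Z (2 * s - j) j) (j - 1))]
      simp only [Nat.add_sub_cancel]
    rw [e2, ← Finset.sum_add_distrib, ← Finset.sum_add_distrib]
    apply Finset.sum_congr rfl
    intro j _
    split_ifs <;> ring
  rw [eL]
  have eR1 : (if 1 ≤ a then (1 - (u : ℂ) ^ a) * (1 - (u : ℂ)⁻¹ ^ (2 * s - a + 1)) *
      M (entry s u true) Z (a - 1) (2 * s - a + 1) else 0) =
      ∑ j ∈ range (2 * s + 1), (if 1 ≤ a then (1 - (u : ℂ) ^ a) ^ 2 * Ef s u (a - 1) j else 0) *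
        Z (2 * s - j) j := by
    by_cases ha1 : 1 ≤ a
    · rw [if_pos ha1, show 2 * s - a + 1 = 2 * s - (a - 1) by omega, M_entry h _ (by omega),
        inv_pow_eq h (show 2 * s - (a - 1) + a = 2 * s + 1 by omega), Finset.mul_sum]
      apply Finset.sum_congr rfl
      intro j _
      rw [if_pos ha1]
      ring
    · simp [ha1]
  have eR2 : (if 1 ≤ 2 * s - a then (1 - (u : ℂ)⁻¹ ^ (a + 1)) * (1 - (u : ℂ) ^ (2 * s - a)) *
      ((u : ℂ) ^ (a + 1) * (u : ℂ)⁻¹ ^ (2 * s - a)) *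
      M (entry s u true) Z (a + 1) (2 * s - a - 1) else 0) =
      ∑ j ∈ range (2 * s + 1), (if a < 2 * s then (1 - (u : ℂ) ^ (a + 1)) ^ 2 *
        Ef s u (a + 1) j else 0) * Z (2 * s - j) j := by
    by_cases ha1 : a < 2 * s
    · rw [if_pos (by omega), show 2 * s - a - 1 = 2 * s - (a + 1) by omega, M_entry h _ (by omega),
        ← inv_pow_eq h (show a + 1 + (2 * s - a) = 2 * s + 1 by omega),
        inv_pow_eq h (show 2 * s - a + (a + 1) = 2 * s + 1 by omega), Finset.mul_sum]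
      apply Finset.sum_congr rfl
      intro j _
      rw [if_pos ha1]
      have nx : (u : ℂ) ^ (a + 1) ≠ 0 := pow_ne_zero _ h0
      rw [inv_pow]
      field_simp
      ring
    · rw [if_neg (by omega)]
      simp [ha1]
  rw [eR1, eR2, M_entry h _ ha, Finset.mul_sum, ← Finset.sum_add_distrib, ← Finset.sum_add_distrib]
  apply Finset.sum_congr rfl
  intro j hj
  rw [mem_range] at hj
  rw [cas_comm_entry h ha (by omega)]
  ring

/-- the Casimir operator commutes with the braiding -/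
lemma cas_comm {X : Arr} (hX : HW s u X) : ∀ k i j : ℕ, i + j + k = 2 * s →
    L1 (cas s u) (L1 (entry s u true) X) i j k = L1 (entry s u true) (L1 (cas s u) X) i j k := by
  have hY : HW s u (fun i j k => L1 (cas s u) (L1 (entry s u true) X) i j k +
      (-1) * L1 (entry s u true) (L1 (cas s u) X) i j k) :=
    HW_lin (HW_L1 (commC_cas h) (HW_L1 (commC_true h) hX))
      (HW_L1 (commC_true h) (HW_L1 (commC_cas h) hX)) (-1)
  intro k i j hijk
  have h1 := HW_inj h hY (fun i hi => by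
    have := M_comm_cas h (fun a b => X a b 0) hi
    show M (cas s u) (M (entry s u true) (fun a b => X a b 0)) i (2 * s - i) +
      (-1) * M (entry s u true) (M (cas s u) (fun a b => X a b 0)) i (2 * s - i) = 0
    rw [this]; ring) k i j hijk
  linear_combination h1

end

end Pool.Agent.Work.MP_b30479_gt.TB
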