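import Mathlib

/-!
# The root of unity
-/

namespace Pool.Agent.Work.MP_b30479_gt.TB

/-- `t = e^{2πi/n}` -/
noncomputable def tt (s : ℕ) : ℂ := Complex.exp (2 * Real.pi * Complex.I / ((2 * s + 1 : ℕ) : ℂ))

lemma tt_prim (s : ℕ) : IsPrimitiveRoot (tt s) (2 * s + 1) :=
  Complex.isPrimitiveRoot_exp (2 * s + 1) (by omega)

end Pool.Agent.Work.MP_b30479_gt.TB
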