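import Pool.Agent.Work.MP_b30479_gt.TB.Cas

/-!
# A deformation of the matrix of the braiding
-/

namespace Pool.Agent.Work.MP_b30479_gt.TB

open Finset

/-- deformed eigenvalues -/
noncomputable def cz (s : ℕ) (t z : ℂ) (k : ℕ) : ℂ := t ^ s * (t⁻¹ ^ k + z ^ 2 * t ^ (k + 1))

/-- deformed product -/
noncomputable def pz (t z : ℂ) (j k : ℕ) : ℂ := ∏ l ∈ Ico j k, (1 - z * t ^ (l + 1))

/-- deformed matrix -/
noncomputable def gz (s : ℕ) (t z : ℂ) (j k : ℕ) : ℂ :=
  if j ≤ k then t ^ (s * s) * (-1) ^ k * (t ^ s) ^ (k + j) * z ^ j * t ^ ((k + 1).choose 2 + k) /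
    (pz t z j k * qf t (k - j)) else 0

/-- powers of the deformed matrix -/
noncomputable def Gm (s : ℕ) (t z : ℂ) : ℕ → ℕ → ℕ → ℂ
  | 0, j, k => if j = k then 1 else 0
  | m + 1, j, k => ∑ l ∈ range (k + 1), Gm s t z m j l * gz s t z l k

lemma gz_lt {s : ℕ} {t z : ℂ} {j k : ℕ} (h : k < j) : gz s t z j k = 0 := by
  unfold gz; rw [if_neg (by omega)]

lemma Gm_lt {s : ℕ} {t z : ℂ} {m j k : ℕ} (h : k < j) : Gm s t z m j k = 0 := by
  induction m generalizing j k with
  | zero => unfold Gm; rw [if_neg (by omega)]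
  | succ m ih =>
    unfold Gm
    apply Finset.sum_eq_zero
    intro l hl
    rw [mem_range] at hl
    rw [ih (by omega), zero_mul]

lemma Gm_diag (s : ℕ) (t z : ℂ) (m j : ℕ) : Gm s t z m j j = gz s t z j j ^ m := by
  induction m with
  | zero => unfold Gm; simp
  | succ m ih =>
    have e : Gm s t z (m + 1) j j = ∑ l ∈ range (j + 1), Gm s t z m j l * gz s t z l j := rfl
    rw [e, Finset.sum_range_succ, ih, Finset.sum_eq_zero, zero_add, pow_succ]
    intro l hl
    rw [mem_range] at hl
    rw [Gm_lt hl, zero_mul]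

section
variable {s : ℕ} {t : ℂ} (h : IsPrimitiveRoot t (2 * s + 1))
include h

lemma gz_rec {z : ℂ} (hz : ∀ l, 1 ≤ l → l ≤ 2 * s → 1 - z * t ^ l ≠ 0) (j k : ℕ)
    (hk : k + 1 ≤ 2 * s) :
    (cz s t z (k + 1) - cz s t z j) * gz s t z j (k + 1) = gz s t z (j + 1) (k + 1) -
      gz s t z j k := by
  have h0 : t ≠ 0 := h.ne_zero (by omega)
  have hV := sq_mul h
  rcases lt_trichotomy j (k + 1) with hlt | heq | hgt
  · obtain ⟨m, rfl⟩ : ∃ m, k = j + m := ⟨k - j, by omega⟩
    have nQ : qf t m ≠ 0 := qf_ne_zero h (by omega)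
    have nd : 1 - t ^ (m + 1) ≠ 0 := one_sub_pow_ne h (by omega) (by omega)
    have na : 1 - z * t ^ (j + m + 1) ≠ 0 := hz _ (by omega) (by omega)
    have nb : 1 - z * t ^ (j + 1) ≠ 0 := hz _ (by omega) (by omega)
    have nP : pz t z j (j + m) ≠ 0 := by
      unfold pz
      rw [Finset.prod_ne_zero_iff]
      intro l hl
      rw [Finset.mem_Ico] at hl
      exact hz _ (by omega) (by omega)
    have p1 : pz t z j (j + m + 1) = pz t z j (j + m) * (1 - z * t ^ (j + m + 1)) := by
      unfold pz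
      rw [Finset.prod_Ico_succ_top (by omega)]
    have p2 : pz t z j (j + m + 1) = (1 - z * t ^ (j + 1)) * pz t z (j + 1) (j + m + 1) := by
      unfold pz
      rw [Finset.prod_eq_prod_Ico_succ_bot (by omega)]
    have p3 : pz t z (j + 1) (j + m + 1) = pz t z j (j + m) * (1 - z * t ^ (j + m + 1)) /
        (1 - z * t ^ (j + 1)) := by
      rw [eq_div_iff nb, ← p1, p2]; ring
    have eT : (j + m + 1 + 1).choose 2 + (j + m + 1) =
        ((j + m + 1).choose 2 + (j + m)) + (j + m + 2) := by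
      have := Nat.choose_succ_succ' (j + m + 1) 1
      rw [Nat.choose_one_right] at this
      simp only [Nat.reduceAdd] at this
      omega
    unfold gz
    rw [if_pos (by omega), if_pos (by omega), if_pos (by omega), p1, p3,
      show j + m + 1 - j = m + 1 by omega, show j + m + 1 - (j + 1) = m by omega,
      show j + m - j = m by omega, qf_succ, eT]
    have e1 : (cz s t z (j + m + 1) - cz s t z j) * (t ^ s * t ^ (j + m + 2)) =
        (1 - t ^ (m + 1)) * (1 - z ^ 2 * t ^ (j + m + 1) * t ^ (j + 1)) := by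
      unfold cz
      have nj : t ^ j ≠ 0 := pow_ne_zero _ h0
      have nm : t ^ m ≠ 0 := pow_ne_zero _ h0
      simp only [pow_add, inv_pow, pow_one]
      generalize t ^ j = J at *
      generalize t ^ m = K at *
      generalize t ^ s = V at *
      obtain ⟨ht, hV0⟩ := eq_inv_sq hV
      subst ht
      field_simp
      ring
    rw [pow_add t ((j + m + 1).choose 2 + (j + m)), show j + m + 1 + j = j + m + j + 1 by ring,
      show j + m + 1 + (j + 1) = j + m + j + 2 by ring, pow_succ (t ^ s), pow_add (t ^ s) _ 2,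
      pow_succ (-1 : ℂ), pow_succ z]
    generalize t ^ ((j + m + 1).choose 2 + (j + m)) = T at *
    generalize (t ^ s) ^ (j + m + j) = U at *
    generalize pz t z j (j + m) = P at *
    generalize qf t m = Q at *
    generalize (-1 : ℂ) ^ (j + m) = ε at *
    generalize z ^ j = y at *
    generalize t ^ (s * s) = α at *
    generalize cz s t z (j + m + 1) - cz s t z j = D at *
    have e2 : t ^ (j + m + 2) = t * t ^ (j + m + 1) := by ring
    rw [e2] at e1 ⊢
    clear p1 p2 p3
    generalize t ^ (j + m + 1) = A at *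
    generalize t ^ (j + 1) = B at *
    generalize t ^ (m + 1) = K at *
    obtain ⟨a, ha⟩ : ∃ a, a = 1 - z * A := ⟨_, rfl⟩
    obtain ⟨b, hb⟩ : ∃ b, b = 1 - z * B := ⟨_, rfl⟩
    obtain ⟨d, hd⟩ : ∃ d, d = 1 - K := ⟨_, rfl⟩
    have core : D * (t ^ s * (t * A)) - ((t ^ s) ^ 2 * (t * A) * z * b * d + a * d) = 0 := by
      rw [e1, ha, hb, hd]
      linear_combination (-(A * z * (1 - z * B) * (1 - K))) * hV
    rw [← ha, ← hb, ← hd]
    rw [← ha] at na
    rw [← hb] at nb
    rw [← hd] at nd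
    clear ha hb hd e1
    generalize t ^ s = V at *
    rw [← sub_eq_zero]
    have key : D * (α * (ε * -1) * (U * V) * y * (T * (t * A)) / (P * a * (Q * d))) -
        (α * (ε * -1) * (U * V ^ 2) * (y * z) * (T * (t * A)) / (P * a / b * Q) -
          α * ε * U * y * T / (P * Q)) =
        -(α * ε * U * y * T) / (P * a * Q * d) *
          (D * (V * (t * A)) - (V ^ 2 * (t * A) * z * b * d + a * d)) := by
      field_simp
      ring
    rw [key, core, mul_zero]
  · subst heq
    rw [gz_lt (show k + 1 < k + 1 + 1 by omega), gz_lt (show k < k + 1 by omega)]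
    ring
  · rw [gz_lt hgt, gz_lt (by omega), gz_lt (by omega)]
    ring

lemma Gm_rec {z : ℂ} (hz : ∀ l, 1 ≤ l → l ≤ 2 * s → 1 - z * t ^ l ≠ 0) (m j k : ℕ)
    (hk : k + 1 ≤ 2 * s) :
    (cz s t z (k + 1) - cz s t z j) * Gm s t z m j (k + 1) = Gm s t z m (j + 1) (k + 1) -
      Gm s t z m j k := by
  induction m generalizing j k with
  | zero =>
    unfold Gm
    by_cases hj : j = k + 1
    · subst hj
      rw [if_pos rfl, if_neg (by omega), if_neg (by omega)]
      ring
    · rw [if_neg hj]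
      by_cases hj2 : j = k
      · subst hj2
        rw [if_pos rfl, if_pos rfl]
        ring
      · rw [if_neg (by omega), if_neg hj2]
        ring
  | succ m ih =>
    have e : ∀ j k, Gm s t z (m + 1) j k = ∑ l ∈ range (k + 1), Gm s t z m j l * gz s t z l k :=
      fun _ _ => rfl
    rw [e, e, e, Finset.mul_sum]
    have e1 : ∀ l ∈ range (k + 1 + 1), (cz s t z (k + 1) - cz s t z j) *
        (Gm s t z m j l * gz s t z l (k + 1)) =
        Gm s t z m j l * (gz s t z (l + 1) (k + 1) - gz s t z l k) +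
        (cz s t z l - cz s t z j) * Gm s t z m j l * gz s t z l (k + 1) := by
      intro l _
      rw [← gz_rec h hz l k hk]
      ring
    rw [Finset.sum_congr rfl e1, Finset.sum_add_distrib]
    -- second sum
    have e2 : ∑ l ∈ range (k + 1 + 1), (cz s t z l - cz s t z j) * Gm s t z m j l *
        gz s t z l (k + 1) = ∑ l ∈ range (k + 1), (Gm s t z m (j + 1) (l + 1) - Gm s t z m j l) *
        gz s t z (l + 1) (k + 1) := by
      rw [Finset.sum_range_succ']
      have z0 : (cz s t z 0 - cz s t z j) * Gm s t z m j 0 * gz s t z 0 (k + 1) = 0 := by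
        rcases Nat.eq_zero_or_pos j with rfl | hj
        · ring
        · rw [Gm_lt hj]; ring
      rw [z0, add_zero]
      apply Finset.sum_congr rfl
      intro l hl
      rw [mem_range] at hl
      rw [ih j l (by omega)]
    rw [e2]
    simp only [mul_sub, sub_mul, Finset.sum_sub_distrib]
    have e3 : ∑ l ∈ range (k + 1 + 1), Gm s t z m j l * gz s t z (l + 1) (k + 1) =
        ∑ l ∈ range (k + 1), Gm s t z m j l * gz s t z (l + 1) (k + 1) := by
      rw [Finset.sum_range_succ, gz_lt (show k + 1 < k + 1 + 1 by omega)]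
      ring
    have e4 : ∑ l ∈ range (k + 1 + 1), Gm s t z m j l * gz s t z l k =
        ∑ l ∈ range (k + 1), Gm s t z m j l * gz s t z l k := by
      rw [Finset.sum_range_succ, gz_lt (show k < k + 1 by omega)]
      ring
    have e5 : ∑ l ∈ range (k + 1 + 1), Gm s t z m (j + 1) l * gz s t z l (k + 1) =
        ∑ l ∈ range (k + 1), Gm s t z m (j + 1) (l + 1) * gz s t z (l + 1) (k + 1) := by
      rw [Finset.sum_range_succ', Gm_lt (show 0 < j + 1 by omega)]
      ring
    rw [e3, e4, e5]
    ring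

end

/-! ### divided differences -/

/-- divided differences of `y` at the nodes `c j, ..., c k` -/
noncomputable def dd (c y : ℕ → ℂ) (j k : ℕ) : ℂ :=
  ∑ i ∈ Icc j k, y i / ∏ l ∈ (Icc j k).erase i, (c i - c l)

lemma dd_rec (c y : ℕ → ℂ) {j k : ℕ} (hjk : j ≤ k)
    (hc : ∀ i ∈ Icc j (k + 1), ∀ l ∈ Icc j (k + 1), i ≠ l → c i ≠ c l) :
    (c (k + 1) - c j) * dd c y j (k + 1) = dd c y (j + 1) (k + 1) - dd c y j k := by
  unfold dd
  have s1 : Icc (j + 1) (k + 1) = (Icc j (k + 1)).erase j := by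
    ext x; simp only [Finset.mem_Icc, Finset.mem_erase]; omega
  have s2 : Icc j k = (Icc j (k + 1)).erase (k + 1) := by
    ext x; simp only [Finset.mem_Icc, Finset.mem_erase]; omega
  rw [s1, s2]
  set I := Icc j (k + 1) with hI
  have hj : j ∈ I := by rw [hI, Finset.mem_Icc]; omega
  have hk : k + 1 ∈ I := by rw [hI, Finset.mem_Icc]; omega
  have f1 : ∑ i ∈ I.erase j, y i / ∏ l ∈ (I.erase j).erase i, (c i - c l) =
      ∑ i ∈ I, y i * (c i - c j) / ∏ l ∈ I.erase i, (c i - c l) := by
    rw [← Finset.add_sum_erase I _ hj]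
    simp only [sub_self, mul_zero, zero_div, zero_add]
    apply Finset.sum_congr rfl
    intro i hi
    rw [Finset.mem_erase] at hi
    have hne : c i - c j ≠ 0 := sub_ne_zero.mpr (hc i hi.2 j hj hi.1)
    have : ∏ l ∈ I.erase i, (c i - c l) = (c i - c j) * ∏ l ∈ (I.erase j).erase i, (c i - c l) := by
      rw [Finset.erase_right_comm, Finset.mul_prod_erase (I.erase i) (fun l => c i - c l)]
      rw [Finset.mem_erase]
      exact ⟨Ne.symm hi.1, hj⟩
    rw [this, mul_comm (y i), mul_div_mul_left _ _ hne]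
  have f2 : ∑ i ∈ I.erase (k + 1), y i / ∏ l ∈ (I.erase (k + 1)).erase i, (c i - c l) =
      ∑ i ∈ I, y i * (c i - c (k + 1)) / ∏ l ∈ I.erase i, (c i - c l) := by
    rw [← Finset.add_sum_erase I _ hk]
    simp only [sub_self, mul_zero, zero_div, zero_add]
    apply Finset.sum_congr rfl
    intro i hi
    rw [Finset.mem_erase] at hi
    have hne : c i - c (k + 1) ≠ 0 := sub_ne_zero.mpr (hc i hi.2 (k + 1) hk hi.1)
    have : ∏ l ∈ I.erase i, (c i - c l) =
        (c i - c (k + 1)) * ∏ l ∈ (I.erase (k + 1)).erase i, (c i - c l) := by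
      rw [Finset.erase_right_comm, Finset.mul_prod_erase (I.erase i) (fun l => c i - c l)]
      rw [Finset.mem_erase]
      exact ⟨Ne.symm hi.1, hk⟩
    rw [this, mul_comm (y i), mul_div_mul_left _ _ hne]
  rw [f1, f2, ← Finset.sum_sub_distrib, Finset.mul_sum]
  apply Finset.sum_congr rfl
  intro i _
  ring

lemma dd_diag (c y : ℕ → ℂ) (j : ℕ) : dd c y j j = y j := by
  unfold dd
  simp

section
variable {s : ℕ} {t : ℂ} (h : IsPrimitiveRoot t (2 * s + 1))
include h

/-- the powers are divided differences -/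
lemma Gm_eq_dd {z : ℂ} (hz : ∀ l, 1 ≤ l → l ≤ 2 * s → 1 - z * t ^ l ≠ 0)
    (hc : ∀ i ≤ 2 * s, ∀ l ≤ 2 * s, i ≠ l → cz s t z i ≠ cz s t z l) (m : ℕ) (d j : ℕ)
    (hd : j + d ≤ 2 * s) :
    Gm s t z m j (j + d) = dd (cz s t z) (fun i => gz s t z i i ^ m) j (j + d) := by
  induction d generalizing j with
  | zero => rw [Nat.add_zero, Gm_diag, dd_diag]
  | succ d ih =>
    have h1 := Gm_rec h hz m j (j + d) hd
    have h2 := dd_rec (cz s t z) (fun i => gz s t z i i ^ m) (show j ≤ j + d by omega)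
      (fun i hi l hl hne => hc i (by rw [Finset.mem_Icc] at hi; omega) l
        (by rw [Finset.mem_Icc] at hl; omega) hne)
    have h3 := ih j (by omega)
    have h4 := ih (j + 1) (by omega)
    rw [show j + 1 + d = j + d + 1 by ring] at h4
    have hne : cz s t z (j + d + 1) - cz s t z j ≠ 0 :=
      sub_ne_zero.mpr (hc _ hd _ (by omega) (by omega))
    apply mul_left_cancel₀ hne
    rw [← Nat.add_assoc, h1, h2, h3, h4]

end

end Pool.Agent.Work.MP_b30479_gt.TB
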