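import Pool.Agent.Work.MP_b30479_gt.TB.Norm

/-!
# Norm bounds for alternating words
-/

namespace Pool.Agent.Work.MP_b30479_gt.TB

open Finset

section
variable {s : ℕ} {u : ℂˣ} (h : IsPrimitiveRoot (u : ℂ) (2 * s + 1))
include h

/-- `σ_2^{-1}` in coordinates -/
lemma xi_L2 {Y : Arr} (hY : HW s u Y) (m : ℕ) :
    xi s u m (L2 (entry s u false) Y) =
      ∑ k ∈ range (2 * s + 1), star (al s u k m) * xi s u k Y / NN u k := by
  unfold xi
  rw [← HH_L1 (isDag_entry h (2 * s) le_rfl), parseval h hY]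
  rfl

/-- `σ_1` in coordinates -/
lemma xi_L1 {X : Arr} (hX : HW s u X) (k : ℕ) :
    xi s u k (L1 (entry s u true) X) =
      ∑ m ∈ range (2 * s + 1), al s u k m * xi s u m X / NN u m := by
  unfold xi
  rw [← HH_L2 (isDag_entry h (2 * s) le_rfl).symm, parseval h hX]
  apply Finset.sum_congr rfl
  intro m _
  congr 2
  have : xi s u m (L2 (entry s u false) (uu s u k)) = star (al s u k m) := by
    unfold xi
    rw [← HH_L1 (isDag_entry h (2 * s) le_rfl), ← HH_star]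
    rfl
  rw [this, star_star]

lemma norm_al {k : ℕ} (hk : k ≤ 2 * s) (j : ℕ) :
    ‖al s u k j‖ = ‖qf (u : ℂ) j‖ * ‖pf (u : ℂ) k j‖ * ‖qf (u : ℂ) k‖ ^ 2 := by
  have h1 : ‖(u : ℂ)‖ = 1 := h.norm'_eq_one (by omega)
  rw [al_closed h hk, norm_mul, norm_mul, norm_mul, norm_al_zero h hk, norm_pow, norm_pow, h1]
  ring

omit h in
lemma NN_norm (k : ℕ) : ‖NN (u : ℂ) k‖ = ‖qf (u : ℂ) k‖ ^ 4 := by
  unfold NN
  rw [Complex.norm_real, Real.norm_of_nonneg (by positivity)]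

/-- norm bound for `σ_1` -/
lemma qn_L1 {X : Arr} (hX : HW s u X) : qn s (L1 (entry s u true) X) ≤ LL s u * qn s X := by
  rw [qn_parseval h (HW_L1 (commC_true h) hX), qn_parseval h hX]
  unfold LL
  rw [Finset.sum_mul]
  apply Finset.sum_le_sum
  intro k hk
  rw [mem_range] at hk
  have hk' : k ≤ 2 * s := by omega
  have pk := norm_qf_pos h hk'
  rw [div_le_iff₀ (by positivity), xi_L1 h hX]
  have e1 : ‖∑ m ∈ range (2 * s + 1), al s u k m * xi s u m X / NN u m‖ ≤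
      ∑ m ∈ range (2 * s + 1), (‖al s u k m‖ / ‖qf (u : ℂ) m‖ ^ 2) *
        (‖xi s u m X‖ / ‖qf (u : ℂ) m‖ ^ 2) := by
    refine (norm_sum_le _ _).trans (le_of_eq ?_)
    apply Finset.sum_congr rfl
    intro m hm
    rw [mem_range] at hm
    have pm := norm_qf_pos h (show m ≤ 2 * s by omega)
    rw [norm_div, norm_mul, NN_norm]
    field_simp
  have e2 := Finset.sum_mul_sq_le_sq_mul_sq (range (2 * s + 1))
    (fun m => ‖al s u k m‖ / ‖qf (u : ℂ) m‖ ^ 2) (fun m => ‖xi s u m X‖ / ‖qf (u : ℂ) m‖ ^ 2)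
  have e3 : ‖∑ m ∈ range (2 * s + 1), al s u k m * xi s u m X / NN u m‖ ^ 2 ≤
      (∑ m ∈ range (2 * s + 1), (‖al s u k m‖ / ‖qf (u : ℂ) m‖ ^ 2) *
        (‖xi s u m X‖ / ‖qf (u : ℂ) m‖ ^ 2)) ^ 2 := by
    gcongr
  refine (e3.trans e2).trans (le_of_eq ?_)
  have e4 : ∑ m ∈ range (2 * s + 1), (‖al s u k m‖ / ‖qf (u : ℂ) m‖ ^ 2) ^ 2 =
      (∑ m ∈ range (2 * s + 1), ‖pf (u : ℂ) k m‖ ^ 2 / ‖qf (u : ℂ) m‖ ^ 2) *
        ‖qf (u : ℂ) k‖ ^ 4 := by
    rw [Finset.sum_mul]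
    apply Finset.sum_congr rfl
    intro m hm
    rw [mem_range] at hm
    have pm := norm_qf_pos h (show m ≤ 2 * s by omega)
    rw [norm_al h hk']
    field_simp
  have e5 : ∑ m ∈ range (2 * s + 1), (‖xi s u m X‖ / ‖qf (u : ℂ) m‖ ^ 2) ^ 2 =
      ∑ m ∈ range (2 * s + 1), ‖xi s u m X‖ ^ 2 / ‖qf (u : ℂ) m‖ ^ 4 := by
    apply Finset.sum_congr rfl
    intro m hm
    rw [div_pow]
    ring_nf
  rw [e4, e5]
  ring

/-- norm bound for `σ_2^{-1}` -/
lemma qn_L2 {X : Arr} (hX : HW s u X) : qn s (L2 (entry s u false) X) ≤ LL s u * qn s X := by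
  set Y := L2 (entry s u false) X with hYdef
  have hY : HW s u Y := HW_L2 u.ne_zero (commC_false h) hX
  have hZ : HW s u (L1 (entry s u true) Y) := HW_L1 (commC_true h) hY
  have e1 : HH (2 * s) Y Y = HH (2 * s) X (L1 (entry s u true) Y) :=
    HH_L2 (isDag_entry h (2 * s) le_rfl).symm X Y
  have e2 := cs_qn h hX hZ rfl
  rw [← e1, (qn_eq h hY).1, Complex.norm_real, Real.norm_of_nonneg (qn_eq h hY).2] at e2
  have e3 := qn_L1 h hY
  have e4 : qn s Y ^ 2 ≤ (LL s u * qn s X) * qn s Y := by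
    calc qn s Y ^ 2 ≤ qn s X * qn s (L1 (entry s u true) Y) := e2
      _ ≤ qn s X * (LL s u * qn s Y) := by
        apply mul_le_mul_of_nonneg_left e3 (qn_eq h hX).2
      _ = _ := by ring
  rcases eq_or_lt_of_le (qn_eq h hY).2 with h0 | h0
  · rw [← h0]
    apply mul_nonneg _ (qn_eq h hX).2
    unfold LL
    exact Finset.sum_nonneg fun _ _ => Finset.sum_nonneg fun _ _ => by positivity
  · rw [sq] at e4
    exact le_of_mul_le_mul_right e4 h0

lemma qn_s1_eta : qn s (L1 (entry s u true) (eta s u)) = 2 * s + 1 := by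
  rw [qn_parseval h (HW_L1 (commC_true h) (HW_eta h))]
  have : ∀ m ∈ range (2 * s + 1), ‖xi s u m (L1 (entry s u true) (eta s u))‖ ^ 2 /
      ‖qf (u : ℂ) m‖ ^ 4 = 1 := by
    intro m hm
    rw [mem_range] at hm
    have pm := norm_qf_pos h (show m ≤ 2 * s by omega)
    have e1 : ‖xi s u m (L1 (entry s u true) (eta s u))‖ = ‖qf (u : ℂ) m‖ ^ 2 :=
      norm_al_zero h (by omega)
    rw [e1]
    field_simp
  rw [Finset.sum_congr rfl this]
  simp

lemma qn_s2s1_eta : qn s (L2 (entry s u false) (L1 (entry s u true) (eta s u))) = FF s u := by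
  have h1 : ‖(u : ℂ)‖ = 1 := h.norm'_eq_one (by omega)
  have hY : HW s u (L1 (entry s u true) (eta s u)) := HW_L1 (commC_true h) (HW_eta h)
  rw [qn_parseval h (HW_L2 u.ne_zero (commC_false h) hY), FF_eq h]
  apply Finset.sum_congr rfl
  intro m hm
  rw [mem_range] at hm
  have hm' : m ≤ 2 * s := by omega
  have pm := norm_qf_pos h hm'
  have e1 : xi s u m (L2 (entry s u false) (L1 (entry s u true) (eta s u))) =
      star (((u : ℂ) ^ s) ^ m * qf (u : ℂ) m) * (2 * s + 1) := by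
    rw [xi_L2 h hY]
    have e2 : ∀ k ∈ range (2 * s + 1), star (al s u k m) *
        xi s u k (L1 (entry s u true) (eta s u)) / NN u k =
        star (((u : ℂ) ^ s) ^ m * qf (u : ℂ) m) * star (pf (u : ℂ) k m) := by
      intro k hk
      rw [mem_range] at hk
      have hk' : k ≤ 2 * s := by omega
      have e3 : xi s u k (L1 (entry s u true) (eta s u)) = al s u k 0 := rfl
      rw [e3, al_closed h hk', star_mul', star_mul']
      have e4 : star (al s u k 0) * al s u k 0 = NN u k := by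
        have h2 := Complex.normSq_eq_conj_mul_self (z := al s u k 0)
        rw [Complex.normSq_eq_norm_sq, norm_al_zero h hk'] at h2
        unfold NN
        rw [← pow_mul] at h2
        exact h2.symm
      have n1 := NN_ne h hk'
      rw [mul_assoc, e4]
      field_simp
    rw [Finset.sum_congr rfl e2, ← Finset.mul_sum, ← star_sum, sum_pf h m hm']
    congr 1
    rw [star_add, star_mul']
    simp
  rw [e1, norm_mul, norm_star, norm_mul, norm_pow, norm_pow, h1]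
  have e5 : ‖(2 * s + 1 : ℂ)‖ = 2 * s + 1 := by
    have : ((2 * s + 1 : ℕ) : ℂ) = 2 * s + 1 := by push_cast; ring
    rw [← this, Complex.norm_natCast]
    push_cast; ring
  rw [e5]
  simp only [one_pow, one_mul]
  field_simp

lemma al_zero_closed {k : ℕ} (hk : k ≤ 2 * s) :
    al s u k 0 * (u : ℂ) ^ (k.choose 2) =
      (-1) ^ k * ((u : ℂ) ^ s) ^ k * qf (u : ℂ) k ^ 2 * (u : ℂ) ^ (s * s) := by
  have h0 : (u : ℂ) ≠ 0 := u.ne_zero
  induction k with
  | zero =>
    rw [al_zero_zero h]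
    simp
  | succ k ih =>
    have ih := ih (by omega)
    rw [al_succ_zero h (by omega), Nat.choose_succ_succ' k 1, Nat.choose_one_right, qf_succ]
    have e1 : (u : ℂ)⁻¹ ^ k * (u : ℂ) ^ (k + k.choose (1 + 1)) = (u : ℂ) ^ (k.choose 2) := by
      rw [pow_add, inv_pow, ← mul_assoc, inv_mul_cancel₀ (pow_ne_zero _ h0), one_mul]
    calc _ = -((u : ℂ) ^ s * (1 - (u : ℂ) ^ (k + 1)) ^ 2) * (al s u k 0 *
          ((u : ℂ)⁻¹ ^ k * (u : ℂ) ^ (k + k.choose (1 + 1)))) := by ring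
      _ = _ := by rw [e1, ih]; ring

lemma qn_s1s1_eta : qn s (L1 (entry s u true) (L1 (entry s u true) (eta s u))) = FF s u := by
  have h0 : (u : ℂ) ≠ 0 := u.ne_zero
  have h1 : ‖(u : ℂ)‖ = 1 := h.norm'_eq_one (by omega)
  have hV := sq_mul h
  have hY : HW s u (L1 (entry s u true) (eta s u)) := HW_L1 (commC_true h) (HW_eta h)
  rw [qn_parseval h (HW_L1 (commC_true h) hY)]
  unfold FF
  apply Finset.sum_congr rfl
  intro k hk
  rw [mem_range] at hk
  have hk' : k ≤ 2 * s := by omega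
  have pk := norm_qf_pos h hk'
  have e1 : xi s u k (L1 (entry s u true) (L1 (entry s u true) (eta s u))) =
      al s u k 0 * (u : ℂ) ^ (s * s) * qf (u : ℂ) k := by
    rw [xi_L1 h hY]
    have e2 : ∀ j ∈ range (2 * s + 1), al s u k j *
        xi s u j (L1 (entry s u true) (eta s u)) / NN u j =
        al s u k 0 * (u : ℂ) ^ (s * s) *
          ((-1) ^ j * (u : ℂ) ^ (j.choose 2) * (u : ℂ) ^ j * (pf (u : ℂ) k j / qf (u : ℂ) j)) := by
      intro j hj
      rw [mem_range] at hj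
      have hj' : j ≤ 2 * s := by omega
      have e3 : xi s u j (L1 (entry s u true) (eta s u)) = al s u j 0 := rfl
      have nj := qf_ne_zero h hj'
      have e4 : NN (u : ℂ) j * (((u : ℂ) ^ ((j + 1).choose 2)) ^ 2) = qf (u : ℂ) j ^ 4 := by
        have h2 := Complex.normSq_eq_conj_mul_self (z := qf (u : ℂ) j)
        rw [Complex.normSq_eq_norm_sq] at h2
        have h3 : (starRingEnd ℂ) (qf (u : ℂ) j) = qf (u : ℂ)⁻¹ j := star_qf h j
        rw [h3] at h2
        have h4 := qf_inv h j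
        have h5 : NN (u : ℂ) j = (qf (u : ℂ)⁻¹ j * qf (u : ℂ) j) ^ 2 := by
          rw [← h2]
          unfold NN
          push_cast
          ring
        rw [h5]
        have h6 : ((-1 : ℂ) ^ j) ^ 2 = 1 := by rw [← pow_mul, mul_comm, pow_mul]; simp
        calc _ = (qf (u : ℂ)⁻¹ j * (u : ℂ) ^ ((j + 1).choose 2)) ^ 2 * qf (u : ℂ) j ^ 2 := by ring
          _ = ((-1) ^ j) ^ 2 * qf (u : ℂ) j ^ 4 := by rw [h4]; ring
          _ = _ := by rw [h6, one_mul]
      have n1 := NN_ne h hj'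
      have nx : (u : ℂ) ^ ((j + 1).choose 2) ≠ 0 := pow_ne_zero _ h0
      have e5 := al_zero_closed h hj'
      have ny : (u : ℂ) ^ (j.choose 2) ≠ 0 := pow_ne_zero _ h0
      have e6 : (u : ℂ) ^ ((j + 1).choose 2) = (u : ℂ) ^ j * (u : ℂ) ^ (j.choose 2) := by
        rw [Nat.choose_succ_succ' j 1, Nat.choose_one_right, pow_add]
      have e7 : ((u : ℂ) ^ s) ^ j * ((u : ℂ) ^ s) ^ j * (u : ℂ) ^ j = 1 := by
        rw [← mul_pow, ← mul_pow, ← sq, hV, one_pow]
      rw [e3, al_closed h hk' j]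
      rw [div_eq_iff n1]
      apply mul_right_cancel₀ (mul_ne_zero (pow_ne_zero 2 nx) ny)
      calc ((u : ℂ) ^ s) ^ j * qf (u : ℂ) j * pf (u : ℂ) k j * al s u k 0 * al s u j 0 *
            (((u : ℂ) ^ ((j + 1).choose 2)) ^ 2 * (u : ℂ) ^ (j.choose 2))
          = ((u : ℂ) ^ s) ^ j * qf (u : ℂ) j * pf (u : ℂ) k j * al s u k 0 *
            (al s u j 0 * (u : ℂ) ^ (j.choose 2)) * ((u : ℂ) ^ ((j + 1).choose 2)) ^ 2 := by ring
        _ = ((u : ℂ) ^ s) ^ j * qf (u : ℂ) j * pf (u : ℂ) k j * al s u k 0 *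
            ((-1) ^ j * ((u : ℂ) ^ s) ^ j * qf (u : ℂ) j ^ 2 * (u : ℂ) ^ (s * s)) *
            ((u : ℂ) ^ j * (u : ℂ) ^ (j.choose 2)) ^ 2 := by rw [e5, e6]
        _ = (((u : ℂ) ^ s) ^ j * ((u : ℂ) ^ s) ^ j * (u : ℂ) ^ j) * (al s u k 0 *
            (u : ℂ) ^ (s * s) * ((-1) ^ j * (u : ℂ) ^ (j.choose 2) * (u : ℂ) ^ j *
            (pf (u : ℂ) k j / qf (u : ℂ) j)) * (qf (u : ℂ) j ^ 4 * (u : ℂ) ^ (j.choose 2))) := by
            field_simp
        _ = _ := by rw [e7, ← e4]; ring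
    rw [Finset.sum_congr rfl e2, ← Finset.mul_sum, qbin h k hk' (u : ℂ)]
    congr 1
    unfold qf
    apply prod_congr rfl
    intro i _
    ring
  rw [e1, norm_mul, norm_mul, norm_al_zero h hk', norm_pow, h1]
  simp only [one_pow, mul_one]
  field_simp

end

end Pool.Agent.Work.MP_b30479_gt.TB
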