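import Pool.Agent.Work.MP_b30479_gt.TB.Defo
import Pool.Agent.Work.MP_b30479_gt.TB.Words
import Pool.Agent.Work.MP_b30479_gt.TB.Lob

/-!
# Powers of the braiding
-/

namespace Pool.Agent.Work.MP_b30479_gt.TB

open Finset Pool.Agent.Work.MP_b30479_gt.Lob

/-- powers of `σ_1` -/
noncomputable def pw (s : ℕ) (u : ℂˣ) (m : ℕ) (X : Arr) : Arr := (L1 (entry s u true))^[m] X

/-- powers of `σ_2^{-1}` -/
noncomputable def pw2 (s : ℕ) (u : ℂˣ) (m : ℕ) (X : Arr) : Arr := (L2 (entry s u false))^[m] X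

lemma pw_succ (s : ℕ) (u : ℂˣ) (m : ℕ) (X : Arr) :
    pw s u (m + 1) X = L1 (entry s u true) (pw s u m X) :=
  Function.iterate_succ_apply' _ _ _

lemma pw2_succ (s : ℕ) (u : ℂˣ) (m : ℕ) (X : Arr) :
    pw2 s u (m + 1) X = L2 (entry s u false) (pw2 s u m X) :=
  Function.iterate_succ_apply' _ _ _

lemma pw_succ' (s : ℕ) (u : ℂˣ) (m : ℕ) (X : Arr) :
    pw s u (m + 1) X = pw s u m (L1 (entry s u true) X) :=
  Function.iterate_succ_apply _ _ _

lemma pz_one {s : ℕ} {t : ℂ} (h : IsPrimitiveRoot t (2 * s + 1)) {j k : ℕ} (hjk : j ≤ k)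
    (hk : k ≤ 2 * s) : pz t 1 j k = qf t k / qf t j := by
  rw [eq_div_iff (qf_ne_zero h (by omega))]
  unfold pz qf
  rw [mul_comm, Finset.range_eq_Ico, Finset.range_eq_Ico]
  simp only [one_mul]
  exact Finset.prod_Ico_consecutive _ (Nat.zero_le j) hjk

section
variable {s : ℕ} {u : ℂˣ} (h : IsPrimitiveRoot (u : ℂ) (2 * s + 1))
include h

lemma HW_pw {X : Arr} (hX : HW s u X) (m : ℕ) : HW s u (pw s u m X) := by
  induction m with
  | zero => exact hX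
  | succ m ih => rw [pw_succ]; exact HW_L1 (commC_true h) ih

lemma HW_pw2 {X : Arr} (hX : HW s u X) (m : ℕ) : HW s u (pw2 s u m X) := by
  induction m with
  | zero => exact hX
  | succ m ih => rw [pw2_succ]; exact HW_L2 u.ne_zero (commC_false h) ih

lemma NN_mul {j : ℕ} : NN (u : ℂ) j * (((u : ℂ) ^ ((j + 1).choose 2)) ^ 2) = qf (u : ℂ) j ^ 4 := by
  have h2 := Complex.normSq_eq_conj_mul_self (z := qf (u : ℂ) j)
  rw [Complex.normSq_eq_norm_sq] at h2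
  have h3 : (starRingEnd ℂ) (qf (u : ℂ) j) = qf (u : ℂ)⁻¹ j := star_qf h j
  rw [h3] at h2
  have h4 := qf_inv h j
  have h5 : NN (u : ℂ) j = (qf (u : ℂ)⁻¹ j * qf (u : ℂ) j) ^ 2 := by
    rw [← h2]
    unfold NN
    push_cast
    ring
  rw [h5]
  have h6 : ((-1 : ℂ) ^ j) ^ 2 = 1 := by rw [← pow_mul, mul_comm, pow_mul]; simp
  calc _ = (qf (u : ℂ)⁻¹ j * (u : ℂ) ^ ((j + 1).choose 2)) ^ 2 * qf (u : ℂ) j ^ 2 := by ring
    _ = ((-1) ^ j) ^ 2 * qf (u : ℂ) j ^ 4 := by rw [h4]; ring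
    _ = _ := by rw [h6, one_mul]

/-- the deformed matrix at `z = 1` -/
lemma gz_one {j k : ℕ} (hk : k ≤ 2 * s) : gz s u 1 j k * NN u k = al s u k j := by
  have h0 : (u : ℂ) ≠ 0 := u.ne_zero
  by_cases hjk : j ≤ k
  · unfold gz
    rw [if_pos hjk, pz_one h hjk hk, al_closed h hk]
    have nj := qf_ne_zero h (show j ≤ 2 * s by omega)
    have nk := qf_ne_zero h hk
    have nkj := qf_ne_zero h (show k - j ≤ 2 * s by omega)
    have e1 := al_zero_closed h hk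
    have e2 := NN_mul h (j := k)
    have e3 := pf_mul (u : ℂ) hjk
    have e4 : (u : ℂ) ^ ((k + 1).choose 2) = (u : ℂ) ^ k * (u : ℂ) ^ (k.choose 2) := by
      rw [Nat.choose_succ_succ' k 1, Nat.choose_one_right, pow_add]
    have nx : (u : ℂ) ^ (k.choose 2) ≠ 0 := pow_ne_zero _ h0
    have ny : (u : ℂ) ^ k ≠ 0 := pow_ne_zero _ h0
    have e5 : pf (u : ℂ) k j = qf (u : ℂ) k / qf (u : ℂ) (k - j) := by
      rw [eq_div_iff nkj, e3]
    have e6 : al s u k 0 = (-1) ^ k * ((u : ℂ) ^ s) ^ k * qf (u : ℂ) k ^ 2 * (u : ℂ) ^ (s * s) /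
        (u : ℂ) ^ (k.choose 2) := by
      rw [eq_div_iff nx, e1]
    have e7 : NN (u : ℂ) k = qf (u : ℂ) k ^ 4 / ((u : ℂ) ^ k * (u : ℂ) ^ (k.choose 2)) ^ 2 := by
      rw [eq_div_iff (pow_ne_zero 2 (mul_ne_zero ny nx)), ← e2, e4]
    rw [e5, e6, e7, pow_add (u : ℂ) _ k, e4, pow_add ((u : ℂ) ^ s), one_pow, mul_one]
    field_simp
  · rw [gz_lt (by omega), zero_mul, al_closed h hk, pf_lt _ (by omega)]
    ring

/-- powers in coordinates -/
lemma xi_pw {X : Arr} (hX : HW s u X) (m : ℕ) {k : ℕ} (hk : k ≤ 2 * s) :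
    xi s u k (pw s u m X) =
      ∑ j ∈ range (2 * s + 1), xi s u j X / NN u j * (Gm s u 1 m j k * NN u k) := by
  induction m generalizing k with
  | zero =>
    rw [Finset.sum_eq_single k]
    · show xi s u k X = _
      unfold Gm
      rw [if_pos rfl, one_mul, div_mul_cancel₀ _ (NN_ne h hk)]
    · intro j _ hj
      unfold Gm
      rw [if_neg hj]
      ring
    · intro hc
      exact absurd (mem_range.mpr (by omega)) hc
  | succ m ih =>
    rw [pw_succ, xi_L1 h (HW_pw h hX m)]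
    have e1 : ∀ l ∈ range (2 * s + 1), al s u k l * xi s u l (pw s u m X) / NN u l =
        ∑ j ∈ range (2 * s + 1), xi s u j X / NN u j * (Gm s u 1 m j l * gz s u 1 l k * NN u k) := by
      intro l hl
      rw [mem_range] at hl
      have hl' : l ≤ 2 * s := by omega
      have nl := NN_ne h hl'
      rw [ih hl', ← gz_one h hk, Finset.mul_sum, Finset.sum_div]
      apply Finset.sum_congr rfl
      intro j _
      field_simp
    rw [Finset.sum_congr rfl e1, Finset.sum_comm]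
    apply Finset.sum_congr rfl
    intro j _
    rw [← Finset.mul_sum, ← Finset.sum_mul]
    congr 2
    have e2 : Gm s u 1 (m + 1) j k = ∑ l ∈ range (k + 1), Gm s u 1 m j l * gz s u 1 l k := rfl
    rw [e2]
    symm
    apply Finset.sum_subset
    · intro x hx
      rw [mem_range] at hx ⊢
      omega
    · intro x _ hx
      rw [mem_range] at hx
      rw [gz_lt (by omega), mul_zero]

/-- norm bound for powers of `σ_1` from bounds for the matrix entries -/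
lemma qn_pw {X : Arr} (hX : HW s u X) (m : ℕ) {B : ℝ}
    (hB : ∀ k ≤ 2 * s, ∀ j ≤ 2 * s, ‖Gm s u 1 m j k‖ * ‖qf (u : ℂ) k‖ ^ 2 ≤
      B * ‖qf (u : ℂ) j‖ ^ 2) :
    qn s (pw s u m X) ≤ (((2 * s + 1 : ℕ) : ℝ) * B) ^ 2 * qn s X := by
  have hB0 : 0 ≤ B := by
    have h1 := hB 0 (by omega) 0 (by omega)
    simp only [qf_zero, norm_one, one_pow, mul_one] at h1
    exact (norm_nonneg _).trans h1
  rw [qn_parseval h (HW_pw h hX m)]
  have hq := (qn_eq h hX).2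
  have key : ∀ k ∈ range (2 * s + 1), ‖xi s u k (pw s u m X)‖ ^ 2 / ‖qf (u : ℂ) k‖ ^ 4 ≤
      ((2 * s + 1 : ℕ) : ℝ) * B ^ 2 * qn s X := by
    intro k hk
    rw [mem_range] at hk
    have hk' : k ≤ 2 * s := by omega
    have pk := norm_qf_pos h hk'
    rw [div_le_iff₀ (by positivity), xi_pw h hX m hk']
    have e1 : ‖∑ j ∈ range (2 * s + 1), xi s u j X / NN u j * (Gm s u 1 m j k * NN u k)‖ ≤
        ∑ j ∈ range (2 * s + 1), (‖xi s u j X‖ / ‖qf (u : ℂ) j‖ ^ 2) *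
          (B * ‖qf (u : ℂ) k‖ ^ 2) := by
      refine (norm_sum_le _ _).trans (Finset.sum_le_sum ?_)
      intro j hj
      rw [mem_range] at hj
      have hj' : j ≤ 2 * s := by omega
      have pj := norm_qf_pos h hj'
      rw [norm_mul, norm_div, norm_mul, NN_norm, NN_norm]
      have h2 := hB k hk' j hj'
      calc ‖xi s u j X‖ / ‖qf (u : ℂ) j‖ ^ 4 * (‖Gm s u 1 m j k‖ * ‖qf (u : ℂ) k‖ ^ 4)
          = (‖xi s u j X‖ / ‖qf (u : ℂ) j‖ ^ 4 * ‖qf (u : ℂ) k‖ ^ 2) *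
            (‖Gm s u 1 m j k‖ * ‖qf (u : ℂ) k‖ ^ 2) := by ring
        _ ≤ (‖xi s u j X‖ / ‖qf (u : ℂ) j‖ ^ 4 * ‖qf (u : ℂ) k‖ ^ 2) *
            (B * ‖qf (u : ℂ) j‖ ^ 2) := mul_le_mul_of_nonneg_left h2 (by positivity)
        _ = _ := by field_simp
    have e2 := Finset.sum_mul_sq_le_sq_mul_sq (range (2 * s + 1))
      (fun j => ‖xi s u j X‖ / ‖qf (u : ℂ) j‖ ^ 2) (fun _ => B * ‖qf (u : ℂ) k‖ ^ 2)
    have e3 : ‖∑ j ∈ range (2 * s + 1), xi s u j X / NN u j * (Gm s u 1 m j k * NN u k)‖ ^ 2 ≤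
        (∑ j ∈ range (2 * s + 1), (‖xi s u j X‖ / ‖qf (u : ℂ) j‖ ^ 2) *
          (B * ‖qf (u : ℂ) k‖ ^ 2)) ^ 2 := by
      gcongr
    refine (e3.trans e2).trans (le_of_eq ?_)
    have e5 : ∑ m ∈ range (2 * s + 1), (‖xi s u m X‖ / ‖qf (u : ℂ) m‖ ^ 2) ^ 2 = qn s X := by
      rw [qn_parseval h hX]
      apply Finset.sum_congr rfl
      intro m _
      rw [div_pow]
      ring_nf
    rw [e5, Finset.sum_const, Finset.card_range, nsmul_eq_mul]
    ring
  refine (Finset.sum_le_sum key).trans (le_of_eq ?_)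
  rw [Finset.sum_const, Finset.card_range, nsmul_eq_mul]
  ring

/-- norm bound for the vector `σ_1^m η` -/
lemma qn_pw_eta (m : ℕ) {B : ℝ}
    (hB : ∀ k ≤ 2 * s, ‖Gm s u 1 m 0 k‖ * ‖qf (u : ℂ) k‖ ^ 2 ≤ B) :
    qn s (pw s u m (eta s u)) ≤ ((2 * s + 1 : ℕ) : ℝ) * B ^ 2 := by
  have hB0 : 0 ≤ B := (mul_nonneg (norm_nonneg _) (by positivity)).trans (hB 0 (by omega))
  rw [qn_parseval h (HW_pw h (HW_eta h) m)]
  have x0 : ∀ j, j ≤ 2 * s → xi s u j (eta s u) = if j = 0 then 1 else 0 := by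
    intro j hj
    split_ifs with hj0
    · subst hj0
      exact HH_eta h
    · exact HH_uu_orth h (k := 0) hj0 hj (by omega)
  have key : ∀ k ∈ range (2 * s + 1), ‖xi s u k (pw s u m (eta s u))‖ ^ 2 / ‖qf (u : ℂ) k‖ ^ 4 ≤
      B ^ 2 := by
    intro k hk
    rw [mem_range] at hk
    have hk' : k ≤ 2 * s := by omega
    have pk := norm_qf_pos h hk'
    rw [div_le_iff₀ (by positivity), xi_pw h (HW_eta h) m hk', Finset.sum_eq_single 0]
    · have n0 : NN (u : ℂ) 0 = 1 := by unfold NN; simp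
      rw [x0 0 (by omega), if_pos rfl, n0, div_one, one_mul, norm_mul, NN_norm]
      have h2 := hB k hk'
      have h3 : (‖Gm s u 1 m 0 k‖ * ‖qf (u : ℂ) k‖ ^ 2) ^ 2 ≤ B ^ 2 :=
        pow_le_pow_left₀ (by positivity) h2 2
      calc (‖Gm s u 1 m 0 k‖ * ‖qf (u : ℂ) k‖ ^ 4) ^ 2
          = (‖Gm s u 1 m 0 k‖ * ‖qf (u : ℂ) k‖ ^ 2) ^ 2 * ‖qf (u : ℂ) k‖ ^ 4 := by ring
        _ ≤ _ := mul_le_mul_of_nonneg_right h3 (by positivity)
    · intro j hj hj0
      rw [mem_range] at hj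
      rw [x0 j (by omega), if_neg hj0]
      ring
    · intro hc
      exact absurd (mem_range.mpr (by omega)) hc
  refine (Finset.sum_le_sum key).trans (le_of_eq ?_)
  rw [Finset.sum_const, Finset.card_range, nsmul_eq_mul]

/-- duality between powers of `σ_1` and of `σ_2^{-1}` -/
lemma HH_pw2 (m : ℕ) (X Y : Arr) :
    HH (2 * s) (pw2 s u m X) Y = HH (2 * s) X (pw s u m Y) := by
  induction m generalizing Y with
  | zero => rfl
  | succ m ih =>
    rw [pw2_succ, HH_L2 (isDag_entry h (2 * s) le_rfl).symm, ih, pw_succ']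

lemma qn_pw2 {X : Arr} (hX : HW s u X) (m : ℕ) {B : ℝ}
    (hB : ∀ k ≤ 2 * s, ∀ j ≤ 2 * s, ‖Gm s u 1 m j k‖ * ‖qf (u : ℂ) k‖ ^ 2 ≤
      B * ‖qf (u : ℂ) j‖ ^ 2) :
    qn s (pw2 s u m X) ≤ (((2 * s + 1 : ℕ) : ℝ) * B) ^ 2 * qn s X := by
  set Y := pw2 s u m X with hYdef
  have hY : HW s u Y := HW_pw2 h hX m
  have hZ : HW s u (pw s u m Y) := HW_pw h hY m
  have e1 : HH (2 * s) Y Y = HH (2 * s) X (pw s u m Y) := HH_pw2 h m X Y
  have e2 := cs_qn h hX hZ rfl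
  rw [← e1, (qn_eq h hY).1, Complex.norm_real, Real.norm_of_nonneg (qn_eq h hY).2] at e2
  have e3 := qn_pw h hY m hB
  set C : ℝ := (((2 * s + 1 : ℕ) : ℝ) * B) ^ 2 with hC
  have e4 : qn s Y ^ 2 ≤ (C * qn s X) * qn s Y := by
    calc qn s Y ^ 2 ≤ qn s X * qn s (pw s u m Y) := e2
      _ ≤ qn s X * (C * qn s Y) := mul_le_mul_of_nonneg_left e3 (qn_eq h hX).2
      _ = _ := by ring
  rcases eq_or_lt_of_le (qn_eq h hY).2 with h0 | h0
  · rw [← h0]
    exact mul_nonneg (sq_nonneg _) (qn_eq h hX).2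
  · rw [sq] at e4
    exact le_of_mul_le_mul_right e4 h0

end

end Pool.Agent.Work.MP_b30479_gt.TB
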