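import Pool.Agent.Work.MP_b30479_gt.TB.TwistBound

/-!
# The maximum principle
-/

namespace Pool.Agent.Work.MP_b30479_gt.TB

open Finset Pool.Agent.Work.MP_b30479_gt.Lob

section
variable {s : ℕ} (hs : 1 ≤ s)
include hs

omit hs in
lemma diff_gz {z : ℂ} (hz : ∀ l, 1 ≤ l → l ≤ 2 * s → 1 - z * tt s ^ l ≠ 0) {j k : ℕ}
    (hk : k ≤ 2 * s) : DifferentiableAt ℂ (fun z => gz s (tt s) z j k) z := by
  unfold gz
  by_cases hjk : j ≤ k
  · simp only [if_pos hjk]
    apply DifferentiableAt.div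
    · fun_prop
    · apply DifferentiableAt.mul _ (differentiableAt_const _)
      unfold pz
      apply DifferentiableAt.fun_finsetProd
      intro l _
      fun_prop
    · apply mul_ne_zero
      · unfold pz
        rw [Finset.prod_ne_zero_iff]
        intro l hl
        rw [Finset.mem_Ico] at hl
        exact hz _ (by omega) (by omega)
      · exact qf_ne_zero (tt_prim s) (by omega)
  · simp only [if_neg hjk]
    exact differentiableAt_const _

omit hs in
lemma diff_Gm {z : ℂ} (hz : ∀ l, 1 ≤ l → l ≤ 2 * s → 1 - z * tt s ^ l ≠ 0) (m : ℕ) {j k : ℕ}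
    (hk : k ≤ 2 * s) : DifferentiableAt ℂ (fun z => Gm s (tt s) z m j k) z := by
  induction m generalizing k with
  | zero =>
    simp only [Gm]
    exact differentiableAt_const _
  | succ m ih =>
    simp only [Gm]
    apply DifferentiableAt.fun_sum
    intro l hl
    rw [mem_range] at hl
    exact (ih (by omega)).mul (diff_gz hz hk)

omit hs in
lemma norm_gz_diag (z : ℂ) (i : ℕ) : ‖gz s (tt s) z i i‖ = ‖z‖ ^ i := by
  unfold gz pz
  rw [if_pos le_rfl, Nat.sub_self, Finset.Ico_self, Finset.prod_empty, qf_zero]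
  simp only [mul_one, div_one, norm_mul, norm_pow, norm_tt, one_pow, norm_neg, norm_one, one_mul]

lemma theta_le {m : ℕ} {z : ℂ} (hz : ‖z - 1‖ = rr s m) {i : ℕ} (hi : i ≤ 2 * s) :
    ‖gz s (tt s) z i i ^ m‖ ≤ Real.exp 1 := by
  have hr := rr_pos s m
  rw [norm_pow, norm_gz_diag, ← pow_mul]
  have h1 : ‖z‖ ≤ 1 + rr s m := by
    have e1 : z = 1 + (z - 1) := by ring
    calc ‖z‖ = ‖1 + (z - 1)‖ := by rw [← e1]
      _ ≤ ‖(1 : ℂ)‖ + ‖z - 1‖ := norm_add_le _ _
      _ = 1 + rr s m := by rw [hz, norm_one]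
  have h2 : ‖z‖ ≤ Real.exp (rr s m) := by
    have := Real.add_one_le_exp (rr s m)
    linarith only [h1, this]
  have h3 := pow_le_pow_left₀ (norm_nonneg z) h2 (i * m)
  rw [← Real.exp_nat_mul] at h3
  refine h3.trans (Real.exp_le_exp.mpr ?_)
  unfold rr
  rw [mul_one_div, div_le_one (by positivity)]
  push_cast
  have h4 : (i : ℝ) ≤ 2 * s + 1 := by
    have : (i : ℝ) ≤ ((2 * s : ℕ) : ℝ) := by exact_mod_cast hi
    push_cast at this
    linarith only [this]
  have h5 := n_ge_one s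
  have h6 : (0 : ℝ) ≤ m := Nat.cast_nonneg m
  have h7 : (i : ℝ) * m ≤ (2 * s + 1) * (m + 1) := by
    have h8 : (0 : ℝ) ≤ i := Nat.cast_nonneg i
    nlinarith only [h4]
  have h8 : (2 * s + 1 : ℝ) * (m + 1) ≤ (2 * s + 1) ^ 2 * (m + 1) := by
    apply mul_le_mul_of_nonneg_right _ (by linarith only [])
    nlinarith only []
  linarith only [h7, h8]

lemma cz_ne {m : ℕ} {z : ℂ} (hz : ‖z - 1‖ = rr s m) : ∀ i ≤ 2 * s, ∀ l ≤ 2 * s, i ≠ l →
    cz s (tt s) z i ≠ cz s (tt s) z l := by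
  intro i hi l hl hne hc
  have h1 : ‖cz s (tt s) z i - cz s (tt s) z l‖ = 0 := by rw [hc, sub_self, norm_zero]
  rw [norm_cz (norm_tt s)] at h1
  have h2 : 0 < ‖1 - tt s ^ ((i - l) + (l - i))‖ := by
    have h3 := mesh_lower hs (x := (i - l) + (l - i)) (by omega) (by omega)
    have h4 : (0 : ℝ) < 4 / (2 * s + 1) := by positivity
    linarith only [h3, h4]
  have h3 : 0 < ‖1 - z ^ 2 * tt s ^ (i + l + 1)‖ := by
    have h4 := norm_zzt hs hz (x := i + l + 1) (by omega) (by omega)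
    have h5 := ww_pos hs (x := i + l + 1) (by omega) (by omega)
    have h6 : 0 < rho s m (i + l + 1) := by
      unfold rho
      split_ifs
      · exact rr_pos s m
      · exact one_pos
    have h7 : (0 : ℝ) < 1 - 1 / (2 * s + 1) := by
      have h1 : (1 : ℝ) / (2 * s + 1) < 1 := by
        rw [div_lt_one (by positivity)]
        have : (1 : ℝ) ≤ s := by exact_mod_cast hs
        linarith only [this]
      linarith only [h1]
    have h8 : 0 < ww s (i + l + 1) * (1 - 1 / (2 * s + 1)) * rho s m (i + l + 1) := by positivity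
    linarith only [h4, h8]
  have := mul_pos h2 h3
  linarith only [h1, this]

/-- bound of the powers on the circle -/
lemma Gm_circle {m : ℕ} {z : ℂ} (hz : ‖z - 1‖ = rr s m) {j k : ℕ} (hjk : j ≤ k)
    (hk : k ≤ 2 * s) : ‖Gm s (tt s) z m j k‖ ≤
    (2 * Real.exp 1 ^ 2 / rr s m) * ∑ i ∈ Icc j k, Real.exp (-(SS (hh s) (i - j) +
      SS (hh s) (k - i) + SS (hh s) (i + k + 1) - SS (hh s) (i + j))) := by
  have hr := rr_pos s m
  obtain ⟨d, rfl⟩ : ∃ d, k = j + d := ⟨k - j, by omega⟩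
  rw [Gm_eq_dd (tt_prim s) (ne_zt hs hz.le) (cz_ne hs hz) m d j hk]
  unfold dd
  rw [Finset.mul_sum]
  refine (norm_sum_le _ _).trans (Finset.sum_le_sum ?_)
  intro i hi
  rw [Finset.mem_Icc] at hi
  rw [norm_div, norm_prod]
  have h1 := theta_le hs hz (i := i) (by omega)
  have h2 := den_lower hs hz hi.1 hi.2 hk
  have h3 : 0 < Real.exp (SS (hh s) (i - j) + SS (hh s) (j + d - i) + SS (hh s) (i + (j + d) + 1) -
      SS (hh s) (i + j)) * (rr s m / (2 * Real.exp 1)) := by positivity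
  refine (div_le_div₀ (Real.exp_pos _).le h1 h3 h2).trans (le_of_eq ?_)
  rw [Real.exp_neg]
  field_simp

/-- bound of the powers at `z = 1` -/
lemma Gm_bound (m : ℕ) {j k : ℕ} (hjk : j ≤ k)
    (hk : k ≤ 2 * s) : ‖Gm s (tt s) 1 m j k‖ ≤
    (2 * Real.exp 1 ^ 2 / rr s m) * ∑ i ∈ Icc j k, Real.exp (-(SS (hh s) (i - j) +
      SS (hh s) (k - i) + SS (hh s) (i + k + 1) - SS (hh s) (i + j))) := by
  have hr := rr_pos s m
  refine Complex.norm_le_of_forall_mem_frontier_norm_le (f := fun z : ℂ => Gm s (tt s) z m j k)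
    (U := Metric.ball (1 : ℂ) (rr s m)) Metric.isBounded_ball ?_ ?_ ?_
  · apply DifferentiableOn.diffContOnCl
    intro z hz
    have hz2 : z ∈ Metric.closedBall (1 : ℂ) (rr s m) := Metric.closure_ball_subset_closedBall hz
    rw [Metric.mem_closedBall, dist_eq_norm] at hz2
    exact (diff_Gm (ne_zt hs hz2) m hk).differentiableWithinAt
  · intro z hz
    rw [frontier_ball _ hr.ne', mem_sphere_iff_norm] at hz
    exact Gm_circle hs hz hjk hk
  · exact subset_closure (Metric.mem_ball_self hr)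

/-- polynomial factor -/
noncomputable def PP (s m : ℕ) : ℝ := (6 * (2 * s + 1) ^ 2) ^ 11 * (m + 1)

lemma entry_bound_aux (m : ℕ) {j k : ℕ} (hjk : j ≤ k) (hk : k ≤ 2 * s) {C : ℝ}
    (hC : ∀ i, j ≤ i → i ≤ k → LF (i * hh s + j * hh s) - LF (i * hh s - j * hh s) -
      2 * LF (j * hh s) ≤ C) :
    ‖Gm s (tt s) 1 m j k‖ * ‖qf (tt s) k‖ ^ 2 ≤
      (PP s m / (2 * s + 1) * Real.exp ((C + -4 * LF (Real.pi / 4)) / hh s)) * ‖qf (tt s) j‖ ^ 2 := by
  have hr := rr_pos s m
  have hp := hh_pos s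
  have hn := n_ge_one s
  set n : ℝ := 2 * s + 1 with hndef
  have h1 := Gm_bound hs m hjk hk
  have pj : 0 < ‖qf (tt s) j‖ := norm_qf_pos (tt_prim s) (by omega)
  rw [← div_le_iff₀ (by positivity)]
  have e1 : ‖Gm s (tt s) 1 m j k‖ * ‖qf (tt s) k‖ ^ 2 / ‖qf (tt s) j‖ ^ 2 ≤
      (2 * Real.exp 1 ^ 2 / rr s m) * ∑ i ∈ Icc j k, Real.exp (2 * SS (hh s) k -
        2 * SS (hh s) j - SS (hh s) (i - j) - SS (hh s) (k - i) -
      SS (hh s) (i + k + 1) + SS (hh s) (i + j)) := by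
    rw [norm_qf_eq hk, norm_qf_eq (show j ≤ 2 * s by omega), mul_div_assoc, ← div_pow,
      ← Real.exp_sub, ← Real.exp_nat_mul]
    refine (mul_le_mul_of_nonneg_right h1 (Real.exp_pos _).le).trans (le_of_eq ?_)
    rw [mul_assoc, Finset.sum_mul]
    congr 1
    apply Finset.sum_congr rfl
    intro i _
    rw [← Real.exp_add]
    congr 1
    push_cast
    ring
  refine e1.trans ?_
  have e2 : ∀ i ∈ Icc j k, Real.exp (2 * SS (hh s) k -
        2 * SS (hh s) j - SS (hh s) (i - j) - SS (hh s) (k - i) -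
      SS (hh s) (i + k + 1) + SS (hh s) (i + j)) ≤
      (2 * Real.exp 1 * n ^ 2) ^ 9 * Real.exp ((C + -4 * LF (Real.pi / 4)) / hh s) := by
    intro i hi
    rw [Finset.mem_Icc] at hi
    have h2 := E_le hs hi.1 hi.2 hk
    have h3 := hC i hi.1 hi.2
    have e3 : 2 * Real.exp 1 * n ^ 2 = Real.exp (1 + Real.log 2 + 2 * Real.log n) := by
      rw [Real.exp_add, Real.exp_add, Real.exp_log (by norm_num), two_mul (Real.log n),
        Real.exp_add, Real.exp_log (by linarith)]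
      ring
    rw [e3, ← Real.exp_nat_mul, ← Real.exp_add]
    apply Real.exp_le_exp.mpr
    rw [← sub_le_iff_le_add', le_div_iff₀ hp]
    push_cast
    rw [← hndef] at h2
    nlinarith only [h2, h3]
  have e4 := Finset.sum_le_sum e2
  rw [Finset.sum_const, nsmul_eq_mul] at e4
  have hcard : (((Icc j k).card : ℕ) : ℝ) ≤ n := by
    rw [Nat.card_Icc]
    have : ((k + 1 - j : ℕ) : ℝ) ≤ ((2 * s + 1 : ℕ) : ℝ) := by
      exact_mod_cast (show k + 1 - j ≤ 2 * s + 1 by omega)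
    push_cast at this
    exact this
  set X : ℝ := Real.exp ((C + -4 * LF (Real.pi / 4)) / hh s) with hX
  have hX0 : 0 < X := Real.exp_pos _
  have e5 : (((Icc j k).card : ℕ) : ℝ) * ((2 * Real.exp 1 * n ^ 2) ^ 9 * X) ≤
      n * ((2 * Real.exp 1 * n ^ 2) ^ 9 * X) :=
    mul_le_mul_of_nonneg_right hcard (by positivity)
  have e6 : 2 * Real.exp 1 ^ 2 / rr s m = 2 * Real.exp 1 ^ 2 * (n ^ 2 * (m + 1)) := by
    unfold rr
    rw [← hndef]
    field_simp
  refine (mul_le_mul_of_nonneg_left (e4.trans e5) (by positivity)).trans ?_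
  rw [e6]
  unfold PP
  rw [← hndef]
  have h4 := two_e_le
  have h5 : (0 : ℝ) < Real.exp 1 := Real.exp_pos 1
  have h6 : (2 * Real.exp 1) ^ 11 ≤ 6 ^ 11 := pow_le_pow_left₀ (by positivity) h4 11
  have hm0 : (0 : ℝ) ≤ m := Nat.cast_nonneg m
  calc 2 * Real.exp 1 ^ 2 * (n ^ 2 * (m + 1)) * (n * ((2 * Real.exp 1 * n ^ 2) ^ 9 * X))
      = ((2 * Real.exp 1) ^ 11 / 2) * n ^ 21 * (m + 1) * X := by ring
    _ ≤ 6 ^ 11 * n ^ 21 * (m + 1) * X := by
        apply mul_le_mul_of_nonneg_right _ hX0.le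
        apply mul_le_mul_of_nonneg_right _ (by linarith only [])
        apply mul_le_mul_of_nonneg_right _ (by positivity)
        have : 0 < (2 * Real.exp 1) ^ 11 := by positivity
        linarith only [h6]
    _ = (6 * n ^ 2) ^ 11 * (m + 1) / n * X := by
        field_simp

/-- the volume of the regular ideal octahedron -/
noncomputable def v8 : ℝ := -8 * LF (Real.pi / 4)

omit hs in
lemma angle_le {i : ℕ} (hi : i ≤ 2 * s) : (i : ℝ) * hh s ≤ Real.pi := by
  rw [← hh_nat s]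
  apply mul_le_mul_of_nonneg_right _ (hh_pos s).le
  exact_mod_cast (show i ≤ 2 * s + 1 by omega)

lemma entry_bound (m : ℕ) {j k : ℕ} (hj : j ≤ 2 * s) (hk : k ≤ 2 * s) :
    ‖Gm s (tt s) 1 m j k‖ * ‖qf (tt s) k‖ ^ 2 ≤
      (PP s m / (2 * s + 1) * Real.exp (v8 / hh s)) * ‖qf (tt s) j‖ ^ 2 := by
  have hp := hh_pos s
  have hPP : 0 ≤ PP s m := by unfold PP; positivity
  by_cases hjk : j ≤ k
  · have h1 := entry_bound_aux hs m hjk hk (C := -4 * LF (Real.pi / 4)) (fun i h1 h2 =>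
      Q_le (by positivity) (angle_le (by omega)) (by positivity) (angle_le hj))
    have e1 : -4 * LF (Real.pi / 4) + -4 * LF (Real.pi / 4) = v8 := by unfold v8; ring
    rwa [e1] at h1
  · rw [Gm_lt (by omega), norm_zero, zero_mul]
    positivity

lemma entry_bound_zero (m : ℕ) {k : ℕ} (hk : k ≤ 2 * s) :
    ‖Gm s (tt s) 1 m 0 k‖ * ‖qf (tt s) k‖ ^ 2 ≤
      PP s m / (2 * s + 1) * Real.exp (v8 / 2 / hh s) := by
  have h1 := entry_bound_aux hs m (Nat.zero_le k) hk (C := 0) (fun i h1 h2 => by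
    simp only [Nat.cast_zero, zero_mul, add_zero, sub_zero, LF_zero, mul_zero, sub_self, le_refl])
  rw [qf_zero, norm_one, one_pow, mul_one] at h1
  have e1 : 0 + -4 * LF (Real.pi / 4) = v8 / 2 := by unfold v8; ring
  rwa [e1] at h1

end

end Pool.Agent.Work.MP_b30479_gt.TB
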