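import Pool.Agent.Work.MP_b30479_gt.TB.Growth
import Pool.Agent.Work.MP_b30479_gt.TB.Twist
import Pool.Agent.Work.MP_b30479_gt.TB.TwistMax
import Pool.Agent.Work.MP_b30479_gt.TwoBridgeTwist

/-!
# Upper bound by the number of twist regions
-/

namespace Pool.Agent.Work.MP_b30479_gt.TB

open Finset Pool.Agent.Work.MP_b30479_gt.Lob

/-- letter of a twist region -/
def lett (b : Bool) : Fin 2 × Bool := if b then ((0 : Fin 2), true) else ((1 : Fin 2), false)

lemma twistWord_cons (p : Bool × ℕ) (l : List (Bool × ℕ)) :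
    twistWord (p :: l) = List.replicate p.2 (lett p.1) ++ twistWord l := by
  unfold twistWord lett
  simp

lemma mirrorRev_block (b : Bool) (m : ℕ) :
    mirrorRev (List.replicate m (lett b)) = List.replicate m (lett (!b)) := by
  unfold mirrorRev
  rw [List.map_replicate, List.reverse_replicate]
  cases b <;> rfl

lemma opL_block (s : ℕ) (u : ℂˣ) (b : Bool) (m : ℕ) (X : Arr) :
    opL s u (List.replicate m (lett b)) X = if b then pw s u m X else pw2 s u m X := by
  induction m with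
  | zero => cases b <;> rfl
  | succ m ih =>
    rw [List.replicate_succ, opL_cons, ih]
    cases b
    · simp only [Bool.false_eq_true, if_false]
      rw [pw2_succ]
      rfl
    · simp only [if_true]
      rw [pw_succ]
      rfl

section
variable {s : ℕ} {u : ℂˣ} (h : IsPrimitiveRoot (u : ℂ) (2 * s + 1))
include h

lemma pw2_eta (m : ℕ) : ∃ c : ℂ, ‖c‖ = 1 ∧ ∀ i j k, i + j + k = 2 * s →
    pw2 s u m (eta s u) i j k = c * eta s u i j k := by
  have h1 : ‖(u : ℂ)‖ = 1 := h.norm'_eq_one (by omega)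
  induction m with
  | zero => exact ⟨1, norm_one, fun i j k _ => by rw [one_mul]; rfl⟩
  | succ m ih =>
    obtain ⟨c, hc, hcc⟩ := ih
    refine ⟨c * (u : ℂ) ^ (-((s : ℤ) * s)), by rw [norm_mul, hc, norm_zpow, h1]; simp, ?_⟩
    intro i j k hs
    rw [pw2_succ]
    have e1 : L2 (entry s u false) (pw2 s u m (eta s u)) i j k =
        c * L2 (entry s u false) (eta s u) i j k :=
      op_congr_smul (1, false) c hcc i j k hs
    rw [e1, L2_eta h k i j hs]
    ring

lemma qn_pw2_eta (m : ℕ) : qn s (pw2 s u m (eta s u)) = 1 := by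
  obtain ⟨c, hc, hcc⟩ := pw2_eta h m
  rw [qn_congr_smul hc hcc, qn_eta h]

end

section
variable {s : ℕ} (hs : 1 ≤ s) {u : ℂˣ} (hu : (u : ℂ) = tt s)
include hs hu

lemma hprim : IsPrimitiveRoot (u : ℂ) (2 * s + 1) := by rw [hu]; exact tt_prim s

omit hs hu in
lemma PP_one (s m : ℕ) : 1 ≤ PP s m := by
  unfold PP
  have hn := n_ge_one s
  have h1 : (1 : ℝ) ≤ 6 * (2 * s + 1) ^ 2 := by nlinarith
  have h2 : (1 : ℝ) ≤ (6 * (2 * s + 1) ^ 2) ^ 11 := one_le_pow₀ h1
  have h3 : (0 : ℝ) ≤ m := Nat.cast_nonneg m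
  nlinarith only [h2]

omit hs hu in
lemma v8_nonneg : 0 ≤ v8 := by
  unfold v8
  have hpi := Real.pi_pos
  have := LF_nonpos (y := Real.pi / 4) (by linarith only [hpi]) (by linarith only [hpi])
  linarith only [this]

omit hs hu in
lemma one_le_exp8 (s : ℕ) : 1 ≤ Real.exp (v8 / hh s) :=
  Real.one_le_exp (div_nonneg v8_nonneg (hh_pos s).le)

lemma qn_block {X : Arr} (hX : HW s u X) (b : Bool) (m : ℕ) :
    qn s (opL s u (List.replicate m (lett b)) X) ≤ (PP s m * Real.exp (v8 / hh s)) ^ 2 * qn s X := by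
  have hp := hprim hs hu
  have hB : ∀ k ≤ 2 * s, ∀ j ≤ 2 * s, ‖Gm s u 1 m j k‖ * ‖qf (u : ℂ) k‖ ^ 2 ≤
      (PP s m / (2 * s + 1) * Real.exp (v8 / hh s)) * ‖qf (u : ℂ) j‖ ^ 2 := by
    intro k hk j hj
    rw [hu]
    exact entry_bound hs m hj hk
  have e1 : (((2 * s + 1 : ℕ) : ℝ) * (PP s m / (2 * s + 1) * Real.exp (v8 / hh s))) ^ 2 =
      (PP s m * Real.exp (v8 / hh s)) ^ 2 := by
    push_cast
    field_simp
  rw [opL_block, ← e1]
  cases b
  · exact qn_pw2 hp hX m hB
  · exact qn_pw hp hX m hB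

lemma qn_block_eta (b : Bool) (m : ℕ) :
    qn s (opL s u (List.replicate m (lett b)) (eta s u)) ≤ PP s m ^ 2 * Real.exp (v8 / hh s) := by
  have hp := hprim hs hu
  rw [opL_block]
  cases b
  · simp only [Bool.false_eq_true, if_false]
    rw [qn_pw2_eta hp]
    have h1 := PP_one s m
    have h2 := one_le_exp8 s
    have h3 : (1 : ℝ) ≤ PP s m ^ 2 := one_le_pow₀ h1
    nlinarith only [h3, h2]
  · simp only [if_true]
    have hB : ∀ k ≤ 2 * s, ‖Gm s u 1 m 0 k‖ * ‖qf (u : ℂ) k‖ ^ 2 ≤
        PP s m / (2 * s + 1) * Real.exp (v8 / 2 / hh s) := by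
      intro k hk
      rw [hu]
      exact entry_bound_zero hs m hk
    refine (qn_pw_eta hp m hB).trans ?_
    have e1 : ((2 * s + 1 : ℕ) : ℝ) * (PP s m / (2 * s + 1) * Real.exp (v8 / 2 / hh s)) ^ 2 =
        PP s m ^ 2 * Real.exp (v8 / hh s) * (1 / (2 * s + 1)) := by
      rw [mul_pow, ← Real.exp_nat_mul]
      have e2 : ((2 : ℕ) : ℝ) * (v8 / 2 / hh s) = v8 / hh s := by push_cast; ring
      rw [e2]
      push_cast
      field_simp
    rw [e1]
    have h1 := PP_one s m
    have h2 : (1 : ℝ) / (2 * s + 1) ≤ 1 := by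
      rw [div_le_one (by positivity)]
      exact n_ge_one s
    have h3 : 0 ≤ PP s m ^ 2 * Real.exp (v8 / hh s) := by positivity
    nlinarith only [h2, h3]

/-- product of the polynomial factors -/
noncomputable def prodPP (s : ℕ) (l : List (Bool × ℕ)) : ℝ := (l.map fun p => PP s p.2).prod

omit hs hu in
lemma prodPP_nonneg (s : ℕ) (l : List (Bool × ℕ)) : 0 ≤ prodPP s l := by
  unfold prodPP
  apply List.prod_nonneg
  intro x hx
  rw [List.mem_map] at hx
  obtain ⟨p, _, rfl⟩ := hx
  exact zero_le_one.trans (PP_one s p.2)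

lemma qn_twist (l : List (Bool × ℕ)) (hl : l ≠ []) :
    qn s (opL s u (twistWord l) (eta s u)) ≤
      prodPP s l ^ 2 * Real.exp (v8 / hh s) ^ (2 * l.length - 1) := by
  have hp := hprim hs hu
  induction l with
  | nil => exact absurd rfl hl
  | cons p l ih =>
    rcases eq_or_ne l [] with rfl | hl'
    · have e1 : twistWord [p] = List.replicate p.2 (lett p.1) := by
        rw [twistWord_cons]
        unfold twistWord
        simp
      rw [e1]
      have := qn_block_eta hs hu p.1 p.2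
      unfold prodPP
      simpa using this
    · have h1 := ih hl'
      rw [twistWord_cons, opL_append]
      have hX : HW s u (opL s u (twistWord l) (eta s u)) := HW_opL hp _ (HW_eta hp)
      refine (qn_block hs hu hX p.1 p.2).trans ?_
      refine (mul_le_mul_of_nonneg_left h1 (sq_nonneg _)).trans (le_of_eq ?_)
      have hl0 : 1 ≤ l.length := List.length_pos_iff.mpr hl'
      have e2 : prodPP s (p :: l) = PP s p.2 * prodPP s l := by
        unfold prodPP
        simp
      rw [e2, List.length_cons]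
      obtain ⟨d, hd⟩ : ∃ d, l.length = d + 1 := ⟨l.length - 1, by omega⟩
      rw [hd, show 2 * (d + 1) - 1 = 2 * d + 1 by omega, show 2 * (d + 1 + 1) - 1 = 2 * d + 3 by omega]
      ring

theorem upper_twist (l : List (Bool × ℕ)) (hl : 2 ≤ l.length) :
    ‖tangleValue s (twistWord l) u‖ ≤ prodPP s l * Real.exp (v8 / hh s) ^ (l.length - 1) := by
  have hp := hprim hs hu
  obtain ⟨p, l', rfl⟩ : ∃ p l', l = p :: l' := by
    match l, hl with
    | p :: l', _ => exact ⟨p, l', rfl⟩
  have hl' : l' ≠ [] := by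
    rintro rfl
    simp at hl
  have e1 : twistWord (p :: l') = mirrorRev (List.replicate p.2 (lett (!p.1))) ++ twistWord l' := by
    rw [twistWord_cons, mirrorRev_block, Bool.not_not]
  rw [e1, tangleValue_mirror hp]
  have h1 := cs_qn hp (HW_opL hp (List.replicate p.2 (lett (!p.1))) (HW_eta hp))
    (HW_opL hp (twistWord l') (HW_eta hp)) rfl
  have h2 := qn_block_eta hs hu (!p.1) p.2
  have h3 := qn_twist hs hu l' hl'
  have h4 := (qn_eq hp (HW_opL hp (twistWord l') (HW_eta hp))).2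
  have hP : 0 ≤ PP s p.2 := zero_le_one.trans (PP_one s p.2)
  have hQ := prodPP_nonneg s l'
  have h5 : ‖HH (2 * s) (opL s u (List.replicate p.2 (lett (!p.1))) (eta s u))
      (opL s u (twistWord l') (eta s u))‖ ^ 2 ≤
      (prodPP s (p :: l') * Real.exp (v8 / hh s) ^ ((p :: l').length - 1)) ^ 2 := by
    refine h1.trans ((mul_le_mul h2 h3 h4 (by positivity)).trans (le_of_eq ?_))
    have hl0 : 1 ≤ l'.length := List.length_pos_iff.mpr hl'
    have e2 : prodPP s (p :: l') = PP s p.2 * prodPP s l' := by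
      unfold prodPP
      simp
    rw [e2, List.length_cons, Nat.add_sub_cancel]
    obtain ⟨d, hd⟩ : ∃ d, l'.length = d + 1 := ⟨l'.length - 1, by omega⟩
    rw [hd, show 2 * (d + 1) - 1 = 2 * d + 1 by omega]
    ring
  exact (abs_le_of_sq_le_sq' h5 (mul_nonneg (prodPP_nonneg s _) (by positivity))).2

end

lemma volOct_eq : volOctahedron = v8 := rfl

/-- the twist number bound -/
theorem growth_twist (l : List (Bool × ℕ)) (hl : 2 ≤ l.length) (δ : ℤ)
    {n : ℕ} (hn : Odd n) (hn3 : 3 ≤ n) :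
    ‖twoBridgeKashaev (twistWord l) δ n‖ ≤
      (l.map fun p => (6 * (n : ℝ) ^ 2) ^ 11 * (p.2 + 1)).prod *
        Real.exp (n * (2 * volOctahedron) / (2 * Real.pi)) ^ (l.length - 1) := by
  obtain ⟨s, rfl⟩ := hn
  have hs : 1 ≤ s := by omega
  obtain ⟨u, hu, hk⟩ := kashaev_norm s (twistWord l) δ
  rw [hk]
  refine (upper_twist hs hu l hl).trans (le_of_eq ?_)
  have e1 : v8 / hh s = ((2 * s + 1 : ℕ) : ℝ) * (2 * volOctahedron) / (2 * Real.pi) := by
    rw [volOct_eq]
    unfold hh
    have := Real.pi_pos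
    push_cast
    field_simp
  rw [e1]
  unfold prodPP PP
  push_cast
  rfl

end Pool.Agent.Work.MP_b30479_gt.TB
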