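import Pool.Agent.Work.MP_b30479_gt.TB.Lob

/-!
# More inequalities for the Lobachevsky function
-/

namespace Pool.Agent.Work.MP_b30479_gt.Lob

open Real MeasureTheory intervalIntegral Set

lemma ff_add_pi (x : ℝ) : ff (x + π) = ff x := by
  unfold ff
  rw [Real.sin_add_pi, mul_neg, Real.log_neg_eq_log]

lemma ff_neg (x : ℝ) : ff (-x) = ff x := by
  unfold ff
  rw [Real.sin_neg, mul_neg, Real.log_neg_eq_log]

lemma LF_neg (x : ℝ) : LF (-x) = -LF x := by
  unfold LF
  have h1 : ∫ u in (0 : ℝ)..(-x), ff u = ∫ u in (0 : ℝ)..(-x), ff (-u) := by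
    simp only [ff_neg]
  rw [h1, intervalIntegral.integral_comp_neg (fun u => ff u), neg_neg, neg_zero,
    intervalIntegral.integral_symm]

lemma LF_add_pi (x : ℝ) : LF (x + π) = LF x := by
  have h1 := LF_reflect (-x)
  rw [sub_neg_eq_add, add_comm, LF_neg, neg_neg] at h1
  exact h1

lemma LF_nonpos {y : ℝ} (h0 : 0 ≤ y) (h1 : y ≤ π / 2) : LF y ≤ 0 := by
  have hpi := Real.pi_pos
  rcases le_total y (π / 6) with h2 | h2
  · have := LF_antitone_small le_rfl h0 h2
    rwa [LF_zero] at this
  · have := LF_monotone_mid h2 h1 (by linarith only [hpi])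
    rwa [LF_pi_half] at this

/-- pointwise comparison -/
lemma ff_cmp {v j : ℝ} (hne : Real.sin (v - j) ≠ 0)
    (hs : 0 ≤ Real.sin (2 * v) * Real.sin (2 * j)) : ff (v - j) ≤ ff (v + j) := by
  unfold ff
  rw [← Real.log_abs, ← Real.log_abs (2 * Real.sin (v + j))]
  apply Real.log_le_log
  · apply abs_pos.mpr
    exact mul_ne_zero two_ne_zero hne
  · rw [abs_mul, abs_mul]
    apply mul_le_mul_of_nonneg_left _ (abs_nonneg _)
    apply abs_le_abs_of_sq_le_sq'
    have e1 : Real.sin (v + j) ^ 2 - Real.sin (v - j) ^ 2 = Real.sin (2 * v) * Real.sin (2 * j) := by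
      rw [Real.sin_add, Real.sin_sub, Real.sin_two_mul, Real.sin_two_mul]
      ring
    linarith only [hs, e1]
where
  abs_le_abs_of_sq_le_sq' {a b : ℝ} (hab : a ^ 2 ≤ b ^ 2) : |a| ≤ |b| := sq_le_sq.mp hab

lemma sin_ne_ae (j : ℝ) : ∀ᵐ v ∂(volume : Measure ℝ), Real.sin (v - j) ≠ 0 := by
  have h1 : Set.Countable {v : ℝ | Real.sin (v - j) = 0} := by
    have : {v : ℝ | Real.sin (v - j) = 0} ⊆ Set.range (fun n : ℤ => (n : ℝ) * π + j) := by
      intro v hv
      simp only [Set.mem_setOf_eq] at hv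
      rw [Real.sin_eq_zero_iff] at hv
      obtain ⟨n, hn⟩ := hv
      exact ⟨n, by simp only; rw [hn]; ring⟩
    exact (Set.countable_range _).mono this
  have h2 := h1.measure_zero volume
  rw [MeasureTheory.measure_eq_zero_iff_ae_notMem] at h2
  filter_upwards [h2] with v hv
  simpa using hv

lemma ii_add (a b j : ℝ) : IntervalIntegrable (fun v => ff (v + j)) volume a b := by
  have := (ii (a + j) (b + j)).comp_add_right j
  simpa using this

lemma ii_sub (a b j : ℝ) : IntervalIntegrable (fun v => ff (v - j)) volume a b := by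
  have := (ii (a - j) (b - j)).comp_sub_right j
  simpa using this

lemma int_add (a b j : ℝ) : ∫ v in a..b, ff (v + j) = LF (b + j) - LF (a + j) := by
  rw [LF_sub, intervalIntegral.integral_comp_add_right (fun u => ff u)]

lemma int_sub (a b j : ℝ) : ∫ v in a..b, ff (v - j) = LF (b - j) - LF (a - j) := by
  rw [LF_sub, intervalIntegral.integral_comp_sub_right (fun u => ff u)]

/-- monotonicity of `i ↦ LF (i + j) - LF (i - j)` -/
lemma Q_mono {a b j : ℝ} (hab : a ≤ b)
    (hs : ∀ v, a ≤ v → v ≤ b → 0 ≤ Real.sin (2 * v) * Real.sin (2 * j)) :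
    LF (a + j) - LF (a - j) ≤ LF (b + j) - LF (b - j) := by
  have h1 : ∫ v in a..b, ff (v - j) ≤ ∫ v in a..b, ff (v + j) := by
    apply intervalIntegral.integral_mono_ae_restrict hab (ii_sub a b j) (ii_add a b j)
    have h2 := ae_restrict_of_ae (s := Icc a b) (sin_ne_ae j)
    filter_upwards [h2, ae_restrict_mem measurableSet_Icc] with v hv hm
    exact ff_cmp hv (hs v hm.1 hm.2)
  rw [int_sub, int_add] at h1
  linarith only [h1]

lemma Q_anti {a b j : ℝ} (hab : a ≤ b)
    (hs : ∀ v, a ≤ v → v ≤ b → Real.sin (2 * v) * Real.sin (2 * j) ≤ 0) :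
    LF (b + j) - LF (b - j) ≤ LF (a + j) - LF (a - j) := by
  have h1 := Q_mono (a := a) (b := b) (j := -j) hab (fun v h1 h2 => by
    have := hs v h1 h2
    rw [show 2 * -j = -(2 * j) by ring, Real.sin_neg]
    linarith only [this])
  rw [sub_neg_eq_add, sub_neg_eq_add, ← sub_eq_add_neg, ← sub_eq_add_neg] at h1
  linarith only [h1]

/-- half of the regular ideal octahedron -/
lemma Q_le {i j : ℝ} (hi0 : 0 ≤ i) (hi1 : i ≤ π) (hj0 : 0 ≤ j) (hj1 : j ≤ π) :
    LF (i + j) - LF (i - j) - 2 * LF j ≤ -4 * LF (π / 4) := by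
  have hpi := Real.pi_pos
  have h4 : LF (π / 4) ≤ 0 := LF_nonpos (by linarith only [hpi]) (by linarith only [hpi])
  have sinpos : ∀ x, 0 ≤ x → x ≤ π → 0 ≤ Real.sin x := fun x h1 h2 =>
    Real.sin_nonneg_of_nonneg_of_le_pi h1 h2
  have sinneg : ∀ x, π ≤ x → x ≤ 2 * π → Real.sin x ≤ 0 := fun x h1 h2 => by
    have h3 := Real.sin_sub_pi x
    have h4 := sinpos (x - π) (by linarith only [h1]) (by linarith only [h2])
    linarith only [h3, h4]
  rcases le_total j (π / 2) with hj2 | hj2
  · have sj : 0 ≤ Real.sin (2 * j) := sinpos _ (by linarith only [hj0]) (by linarith only [hj2])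
    have key : LF (i + j) - LF (i - j) ≤ LF (π / 2 + j) - LF (π / 2 - j) := by
      rcases le_total i (π / 2) with hi2 | hi2
      · exact Q_mono hi2 (fun v h1 h2 => mul_nonneg (sinpos _ (by linarith only [hi0, h1]) (by linarith only [h2])) sj)
      · exact Q_anti hi2 (fun v h1 h2 =>
          mul_nonpos_of_nonpos_of_nonneg (sinneg _ (by linarith only [h1]) (by linarith only [hi1, h2])) sj)
    have h5 : LF (π / 2 + j) = -LF (π / 2 - j) := by
      rw [← LF_reflect]; congr 1; ring
    have h6 : 2 * LF (π / 4) ≤ LF j + LF (π / 2 - j) := by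
      rcases le_total j (π / 2 - j) with h7 | h7
      · have := LF_sym hj0 h7 (by linarith only [hpi])
        rwa [show (j + (π / 2 - j)) / 2 = π / 4 by ring] at this
      · have := LF_sym (y := π / 2 - j) (z := j) (by linarith only [hj2]) h7 (by linarith only [hpi])
        rw [show (π / 2 - j + j) / 2 = π / 4 by ring] at this
        linarith only [this]
    linarith only [key, h5, h6]
  · have sj : Real.sin (2 * j) ≤ 0 := sinneg _ (by linarith only [hj2]) (by linarith only [hj1])
    rcases le_total i (π / 2) with hi2 | hi2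
    · have h5 := Q_anti (a := 0) (b := i) (j := j) hi0 (fun v h1 h2 =>
        mul_nonpos_of_nonneg_of_nonpos (sinpos _ (by linarith only [h1]) (by linarith only [hi2, h2])) sj)
      rw [zero_add, zero_sub, LF_neg] at h5
      linarith only [h4, h5]
    · have h5 := Q_mono (a := i) (b := π) (j := j) hi1 (fun v h1 h2 =>
        mul_nonneg_of_nonpos_of_nonpos (sinneg _ (by linarith only [hi2, h1]) (by linarith only [h2])) sj)
      rw [add_comm π j, LF_add_pi, LF_reflect] at h5
      linarith only [h4, h5]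

lemma P_le {i k : ℝ} (hi0 : 0 ≤ i) (hi1 : i ≤ π) (hk0 : 0 ≤ k) (hk1 : k ≤ π) :
    2 * LF k - LF (k - i) - LF (k + i) ≤ -4 * LF (π / 4) := by
  have h1 := Q_le hi0 hi1 (j := π - k) (by linarith only [hk1]) (by linarith only [hk0])
  have e1 : LF (π - k) = -LF k := LF_reflect k
  have e2 : LF (i + (π - k)) = -LF (k - i) := by
    rw [← LF_reflect]; congr 1; ring
  have e3 : LF (i - (π - k)) = LF (k + i) := by
    rw [← LF_add_pi]; congr 1; ring
  rw [e1, e2, e3] at h1
  linarith only [h1]

end Pool.Agent.Work.MP_b30479_gt.Lob
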