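import Pool.Agent.Work.MP_b30479_gt.TB.Main

/-!
# The Cauchy–Schwarz inequality
-/

namespace Pool.Agent.Work.MP_b30479_gt.TB

open Finset

section
variable {s : ℕ} {u : ℂˣ} (h : IsPrimitiveRoot (u : ℂ) (2 * s + 1))
include h

lemma HH_cs {X Y : Arr} (hX : HW s u X) (hY : HW s u Y) {a b : ℝ}
    (ha : HH (2 * s) X X = a) (hb : HH (2 * s) Y Y = b) :
    ‖HH (2 * s) X Y‖ ^ 2 ≤ a * b := by
  obtain ⟨b', hb', hb0, hbz⟩ := HH_pos h hY
  have e1 : b' = b := by
    have : (b' : ℂ) = b := by rw [← hb', hb]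
    exact_mod_cast this
  subst e1
  rcases eq_or_lt_of_le hb0 with h0 | h0
  · have : HH (2 * s) X Y = 0 := HH_zero_right (hbz h0.symm)
    rw [this, ← h0]
    simp
  · have hne : (b' : ℂ) ≠ 0 := by exact_mod_cast h0.ne'
    set c : ℂ := HH (2 * s) Y X with hc
    have hc' : HH (2 * s) X Y = star c := (HH_star (2 * s) Y X).symm
    obtain ⟨r, hr, hr0, _⟩ := HH_pos h (HW_lin hX hY (-c / b'))
    rw [HH_self_add, ha, hb, hc', ← hc] at hr
    have e2 : (a : ℂ) + -c / b' * star c + star (-c / (b' : ℂ)) * c +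
        -c / b' * star (-c / (b' : ℂ)) * b' = a - c * star c / b' := by
      have : star (-c / (b' : ℂ)) = -star c / b' := by
        rw [star_div₀, star_neg]
        congr 1
        exact Complex.conj_ofReal b'
      rw [this]
      field_simp
      ring
    rw [e2] at hr
    have e3 : c * star c = ((‖c‖ ^ 2 : ℝ) : ℂ) := by
      have := Complex.mul_conj c
      rw [← Complex.normSq_eq_norm_sq]
      exact this
    rw [e3] at hr
    have e4 : a - ‖c‖ ^ 2 / b' = r := by
      have : ((a - ‖c‖ ^ 2 / b' : ℝ) : ℂ) = r := by rw [← hr]; push_cast; ring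
      exact_mod_cast this
    have e5 : ‖c‖ ^ 2 / b' ≤ a := by linarith
    rw [hc', norm_star]
    rwa [div_le_iff₀ h0] at e5

/-- Cauchy–Schwarz inequality for the invariants of two-bridge links -/
theorem tangleValue_cs (v w : List (Fin 2 × Bool)) :
    ‖tangleValue s (mirrorRev v ++ w) u‖ ^ 2 ≤
      ‖tangleValue s (mirrorRev v ++ v) u‖ * ‖tangleValue s (mirrorRev w ++ w) u‖ := by
  obtain ⟨a, ha, ha'⟩ := tangleValue_pos h v
  obtain ⟨b, hb, hb'⟩ := tangleValue_pos h w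
  rw [ha', hb', tangleValue_mirror h]
  rw [tangleValue_mirror h] at ha' hb'
  rw [Complex.norm_real, Complex.norm_real, Real.norm_of_nonneg ha.le, Real.norm_of_nonneg hb.le]
  exact HH_cs h (HW_opL h v (HW_eta h)) (HW_opL h w (HW_eta h)) ha' hb'

lemma norm_twoBridgeJones (w : List (Fin 2 × Bool)) (δ : ℤ) :
    ‖twoBridgeJones s w δ u‖ = ‖tangleValue s w u‖ := by
  have h1 : ‖(u : ℂ)‖ = 1 := h.norm'_eq_one (by omega)
  unfold twoBridgeJones
  rw [norm_mul, Units.val_zpow_eq_zpow_val, norm_zpow, h1, one_zpow, one_mul]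

/-- for knots the value is positive -/
theorem twoBridgeJones_pos (w : List (Fin 2 × Bool)) {δ : ℤ}
    (hδ : IsOrientation (mirrorRev w ++ w) δ) (hk : IsTwoBridgeKnot (mirrorRev w ++ w)) :
    ∃ r : ℝ, 0 < r ∧ twoBridgeJones s (mirrorRev w ++ w) δ u = r := by
  obtain ⟨r, hr, hr'⟩ := tangleValue_pos h w
  refine ⟨r, hr, ?_⟩
  unfold twoBridgeJones
  rw [writhe_zero w hδ hk, hr']
  simp

end

/-- every two-bridge link has an orientation -/
lemma exists_orientation (w : List (Fin 2 × Bool)) : ∃ δ, IsOrientation w δ := by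
  obtain ⟨π, hπ⟩ := orientAfter_perm w
  have key : ∀ l : Fin 3, (![1, 1, -1] : Fin 3 → ℤ) l = 1 ∨ (![1, -1, - -1] : Fin 3 → ℤ) l = 1 := by
    decide
  rcases key (π 2) with h1 | h1
  · refine ⟨1, Or.inl rfl, ?_⟩
    rw [hπ]
    exact h1
  · refine ⟨-1, Or.inr rfl, ?_⟩
    rw [hπ]
    exact h1

end Pool.Agent.Work.MP_b30479_gt.TB
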