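import Pool.Agent.Work.MP_b30479_gt.TB.Alpha
import Pool.Agent.Work.MP_b30479_gt.TB.CS

/-!
# Norms of the braid generators
-/

namespace Pool.Agent.Work.MP_b30479_gt.TB

open Finset

/-- squared norm -/
noncomputable def qn (s : ℕ) (X : Arr) : ℝ := (HH (2 * s) X X).re

/-- `a_n(4_1)` -/
noncomputable def FF (s : ℕ) (t : ℂ) : ℝ := ∑ m ∈ range (2 * s + 1), ‖qf t m‖ ^ 2

/-- squared Frobenius norm of the braiding -/
noncomputable def LL (s : ℕ) (t : ℂ) : ℝ :=
  ∑ k ∈ range (2 * s + 1), ∑ j ∈ range (2 * s + 1), ‖pf t k j‖ ^ 2 / ‖qf t j‖ ^ 2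

section
variable {s : ℕ} {t : ℂ} (h : IsPrimitiveRoot t (2 * s + 1))
include h

/-- sums of falling products -/
lemma sum_pf (m : ℕ) (hm : m ≤ 2 * s) : ∑ k ∈ range (2 * s + 1), pf t k m = 2 * s + 1 := by
  induction m with
  | zero => simp [pf_zero]
  | succ m ih =>
    rw [← ih (by omega)]
    have hne : 1 - t ^ (m + 1) ≠ 0 := one_sub_pow_ne h (by omega) hm
    -- `∑ pf k m * t^(k-m) = 0`
    have key : ∑ k ∈ range (2 * s + 1), pf t k m * t ^ (k - m) = 0 := by
      have e1 : ∑ k ∈ range (2 * s + 1), (pf t (k + 1) (m + 1) - pf t k (m + 1)) = 0 := by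
        rw [Finset.sum_range_sub (fun k => pf t k (m + 1))]
        have e2 : pf t (2 * s + 1) (m + 1) = 0 := by
          rw [pf_succ', h.pow_eq_one]; ring
        rw [e2, pf_lt _ (by omega : 0 < m + 1)]
        ring
      have e3 : ∀ k ∈ range (2 * s + 1), pf t (k + 1) (m + 1) - pf t k (m + 1) =
          (1 - t ^ (m + 1)) * (pf t k m * t ^ (k - m)) := by
        intro k _
        rw [pf_succ', pf_succ]
        by_cases hk : m ≤ k
        · have : t ^ (k + 1) = t ^ (m + 1) * t ^ (k - m) := by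
            rw [← pow_add]; congr 1; omega
          rw [this]; ring
        · rw [pf_lt _ (show k < m by omega)]; ring
      rw [Finset.sum_congr rfl e3, ← Finset.mul_sum] at e1
      rcases mul_eq_zero.mp e1 with h1 | h1
      · exact absurd h1 hne
      · exact h1
    have e4 : ∀ k ∈ range (2 * s + 1), pf t k (m + 1) = pf t k m - pf t k m * t ^ (k - m) := by
      intro k _
      rw [pf_succ]; ring
    rw [Finset.sum_congr rfl e4, Finset.sum_sub_distrib, key, sub_zero]

lemma qf_top : qf t (2 * s) = 2 * s + 1 := by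
  rw [← sum_pf h (2 * s) le_rfl, Finset.sum_range_succ, Finset.sum_eq_zero, zero_add]
  · have := pf_mul t (le_refl (2 * s))
    rw [Nat.sub_self, qf_zero, mul_one] at this
    exact this.symm
  · intro k hk
    rw [mem_range] at hk
    exact pf_lt _ hk

lemma norm_qf_mul {m : ℕ} (hm : m ≤ 2 * s) : ‖qf t m‖ * ‖qf t (2 * s - m)‖ = 2 * s + 1 := by
  have h1 := qf_inv_mul h m hm
  rw [← star_qf h, qf_top h] at h1
  have h2 := congrArg norm h1
  rw [norm_mul, norm_star] at h2
  rw [h2]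
  have : ((2 * s + 1 : ℕ) : ℂ) = 2 * s + 1 := by push_cast; ring
  rw [← this, Complex.norm_natCast]
  push_cast; ring

lemma norm_qf_pos {m : ℕ} (hm : m ≤ 2 * s) : 0 < ‖qf t m‖ :=
  norm_pos_iff.mpr (qf_ne_zero h hm)

lemma FF_eq : FF s t = ∑ m ∈ range (2 * s + 1), (2 * s + 1 : ℝ) ^ 2 / ‖qf t m‖ ^ 2 := by
  unfold FF
  rw [← Finset.sum_range_reflect]
  apply Finset.sum_congr rfl
  intro m hm
  rw [mem_range] at hm
  have h1 := norm_qf_mul h (show m ≤ 2 * s by omega)
  have h2 := norm_qf_pos h (show m ≤ 2 * s by omega)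
  rw [show 2 * s + 1 - 1 - m = 2 * s - m by omega, ← h1]
  field_simp

lemma FF_ge : ((2 * s + 1 : ℝ)) ^ 2 ≤ FF s t := by
  unfold FF
  rw [Finset.sum_range_succ]
  have h1 : ‖qf t (2 * s)‖ = 2 * s + 1 := by
    rw [qf_top h]
    have : ((2 * s + 1 : ℕ) : ℂ) = 2 * s + 1 := by push_cast; ring
    rw [← this, Complex.norm_natCast]
    push_cast; ring
  rw [h1]
  have : 0 ≤ ∑ x ∈ range (2 * s), ‖qf t x‖ ^ 2 := Finset.sum_nonneg (fun _ _ => by positivity)
  linarith

lemma qn_eq {X : Arr} (hX : HW s t X) : HH (2 * s) X X = qn s X ∧ 0 ≤ qn s X := by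
  obtain ⟨r, hr, hr0, _⟩ := HH_pos h hX
  unfold qn
  rw [hr]
  simp [hr0]

lemma qn_parseval {X : Arr} (hX : HW s t X) :
    qn s X = ∑ m ∈ range (2 * s + 1), ‖xi s t m X‖ ^ 2 / ‖qf t m‖ ^ 4 := by
  unfold qn
  rw [parseval h hX, Complex.re_sum]
  apply Finset.sum_congr rfl
  intro m _
  unfold NN
  have e1 : star (xi s t m X) * xi s t m X = ((‖xi s t m X‖ ^ 2 : ℝ) : ℂ) := by
    have := Complex.normSq_eq_conj_mul_self (z := xi s t m X)
    rw [← Complex.normSq_eq_norm_sq, this]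
    rfl
  rw [e1, ← Complex.ofReal_div, Complex.ofReal_re]

lemma cs_qn {X Y : Arr} (hX : HW s t X) (hY : HW s t Y) {u : ℂˣ} (hu : (u : ℂ) = t) :
    ‖HH (2 * s) X Y‖ ^ 2 ≤ qn s X * qn s Y := by
  subst hu
  exact HH_cs h hX hY (qn_eq h hX).1 (qn_eq h hY).1

end

/-- the polynomial of the `q`-binomial theorem -/
lemma qbin {s : ℕ} {t : ℂ} (h : IsPrimitiveRoot t (2 * s + 1)) (k : ℕ) (hk : k ≤ 2 * s) (x : ℂ) :
    ∑ j ∈ range (2 * s + 1), (-1) ^ j * t ^ (j.choose 2) * x ^ j * (pf t k j / qf t j) =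
      ∏ i ∈ range k, (1 - x * t ^ i) := by
  induction k generalizing x with
  | zero =>
    rw [Finset.sum_eq_single 0]
    · simp [pf_zero]
    · intro j _ hj
      rw [pf_lt _ (by omega)]
      simp
    · intro hc
      exact absurd (mem_range.mpr (by omega)) hc
  | succ k ih =>
    have pascal : ∀ j, j < 2 * s → pf t (k + 1) (j + 1) / qf t (j + 1) =
        pf t k j / qf t j + t ^ (j + 1) * (pf t k (j + 1) / qf t (j + 1)) := by
      intro j hj
      have n1 : qf t j ≠ 0 := qf_ne_zero h (by omega)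
      have n2 : 1 - t ^ (j + 1) ≠ 0 := one_sub_pow_ne h (by omega) (by omega)
      rw [qf_succ, pf_succ', pf_succ]
      by_cases hjk : j ≤ k
      · have : t ^ (k + 1) = t ^ (j + 1) * t ^ (k - j) := by
          rw [← pow_add]; congr 1; omega
        rw [this]
        field_simp
        ring
      · rw [pf_lt _ (show k < j by omega)]
        simp
    rw [Finset.prod_range_succ']
    have e0 : ∏ i ∈ range k, (1 - x * t ^ (i + 1)) = ∏ i ∈ range k, (1 - (x * t) * t ^ i) := by
      apply prod_congr rfl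
      intro i _
      ring
    rw [e0, ← ih (by omega) (x * t)]
    -- split off the first term on the left
    rw [Finset.sum_range_succ']
    have e1 : ∀ j ∈ range (2 * s), (-1) ^ (j + 1) * t ^ ((j + 1).choose 2) * x ^ (j + 1) *
        (pf t (k + 1) (j + 1) / qf t (j + 1)) =
        -x * ((-1) ^ j * t ^ (j.choose 2) * (x * t) ^ j * (pf t k j / qf t j)) +
        (-1) ^ (j + 1) * t ^ ((j + 1).choose 2) * (x * t) ^ (j + 1) *
          (pf t k (j + 1) / qf t (j + 1)) := by
      intro j hj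
      rw [mem_range] at hj
      rw [pascal j hj, Nat.choose_succ_succ' j 1, Nat.choose_one_right]
      ring
    rw [Finset.sum_congr rfl e1, Finset.sum_add_distrib, ← Finset.mul_sum]
    have e2 : ∑ j ∈ range (2 * s + 1), (-1) ^ j * t ^ (j.choose 2) * (x * t) ^ j *
        (pf t k j / qf t j) = ∑ j ∈ range (2 * s), (-1) ^ j * t ^ (j.choose 2) * (x * t) ^ j *
        (pf t k j / qf t j) := by
      rw [Finset.sum_range_succ, pf_lt _ (show k < 2 * s by omega)]
      simp
    have e3 : ∑ j ∈ range (2 * s + 1), (-1) ^ j * t ^ (j.choose 2) * (x * t) ^ j *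
        (pf t k j / qf t j) = (∑ j ∈ range (2 * s), (-1) ^ (j + 1) * t ^ ((j + 1).choose 2) *
        (x * t) ^ (j + 1) * (pf t k (j + 1) / qf t (j + 1))) + 1 := by
      rw [Finset.sum_range_succ']
      simp [pf_zero]
    rw [← e2]
    simp only [pf_zero, qf_zero, pow_zero, Nat.choose_zero_succ, mul_one, div_one]
    linear_combination -e3

end Pool.Agent.Work.MP_b30479_gt.TB
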