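import Pool.Agent.Work.MP_b30479_gt.TB.Lob
import Pool.Agent.Work.MP_b30479_gt.TB.Norm
import Pool.Agent.Work.MP_b30479_gt.TB.Tt
import Pool.Agent.Work.MP_b30479_gt.TwoBridgeAlt

/-!
# Exponential growth rates
-/

namespace Pool.Agent.Work.MP_b30479_gt.TB

open Finset Pool.Agent.Work.MP_b30479_gt.Lob

lemma vol_eq : volFigureEight = -4 * LF (Real.pi / 6) := by
  have h := LF_three
  have e : volFigureEight = -6 * LF (Real.pi / 3) := rfl
  rw [e]
  linarith only [h]

section
variable {s : ℕ} (hs : 1 ≤ s)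

/-- mesh -/
noncomputable def hh (s : ℕ) : ℝ := Real.pi / (2 * s + 1)

lemma hh_pos (s : ℕ) : 0 < hh s := by
  unfold hh
  have := Real.pi_pos
  positivity

lemma hh_mul (s : ℕ) : (2 * s + 1 : ℝ) * hh s = Real.pi := by
  unfold hh
  field_simp

lemma norm_one_sub_tt (s j : ℕ) (hj : j ≤ 2 * s + 1) :
    ‖1 - tt s ^ j‖ = 2 * Real.sin (j * hh s) := by
  have e1 : tt s ^ j = Complex.exp (Complex.I * ((2 * (j * hh s) : ℝ) : ℂ)) := by
    unfold tt hh
    rw [← Complex.exp_nat_mul]
    congr 1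
    push_cast
    field_simp
  rw [e1, norm_sub_rev, Complex.norm_exp_I_mul_ofReal_sub_one,
    show 2 * (j * hh s) / 2 = j * hh s by ring, Real.norm_of_nonneg]
  have h1 : 0 ≤ Real.sin (j * hh s) := by
    apply Real.sin_nonneg_of_nonneg_of_le_pi
    · have := hh_pos s
      positivity
    · rw [← hh_mul s]
      apply mul_le_mul_of_nonneg_right _ (hh_pos s).le
      exact_mod_cast hj
  linarith only [h1]

lemma sin_pos_mesh {s j : ℕ} (h0 : 0 < j) (hj : j ≤ 2 * s) : 0 < Real.sin (j * hh s) := by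
  have hp := hh_pos s
  apply Real.sin_pos_of_pos_of_lt_pi
  · have : (0 : ℝ) < j := by exact_mod_cast h0
    positivity
  · rw [← hh_mul s]
    apply mul_lt_mul_of_pos_right _ hp
    have : (j : ℝ) ≤ 2 * s := by exact_mod_cast hj
    linarith only [this]

lemma norm_qf_eq {s m : ℕ} (hm : m ≤ 2 * s) : ‖qf (tt s) m‖ = Real.exp (SS (hh s) m) := by
  induction m with
  | zero => simp [SS]
  | succ m ih =>
    rw [qf_succ, norm_mul, ih (by omega), norm_one_sub_tt s (m + 1) (by omega), SS_succ,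
      Real.exp_add]
    congr 1
    unfold ff
    have := sin_pos_mesh (s := s) (j := m + 1) (by omega) hm
    push_cast at this ⊢
    rw [Real.exp_log (by linarith only [this])]

include hs

lemma hh_le : hh s ≤ Real.pi / 3 := by
  unfold hh
  have hpi := Real.pi_pos
  apply div_le_div_of_nonneg_left hpi.le (by norm_num)
  have : (1 : ℝ) ≤ s := by exact_mod_cast hs
  linarith only [this]

omit hs in
lemma log_hh (s : ℕ) : -Real.log (hh s) ≤ Real.log (2 * s + 1) := by
  unfold hh
  rw [Real.log_div Real.pi_ne_zero (by positivity)]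
  have : 0 ≤ Real.log Real.pi := Real.log_nonneg (by linarith only [Real.pi_gt_three])
  linarith only [this]

/-- upper Riemann sum -/
lemma SS_le {m : ℕ} (hm : m ≤ 2 * s) :
    hh s * SS (hh s) m ≤ LF (m * hh s) + hh s * (1 + Real.log 2 + Real.log (2 * s + 1)) := by
  have hp := hh_pos s
  have h3 := hh_le hs
  have hpi := Real.pi_pos
  have hl := log_hh s
  have h2 := LF_small hp (by linarith only [hp, h3])
  have hl2 : (0 : ℝ) ≤ Real.log 2 := Real.log_nonneg (by norm_num)
  have hls : (0 : ℝ) ≤ Real.log (2 * s + 1) := Real.log_nonneg (by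
    have : (0 : ℝ) ≤ s := Nat.cast_nonneg s
    linarith only [])
  rcases Nat.eq_zero_or_pos m with rfl | hm0
  · simp only [SS, Finset.range_zero, Finset.sum_empty, mul_zero, Nat.cast_zero, zero_mul, LF_zero,
      zero_add]
    positivity
  · obtain ⟨m, rfl⟩ : ∃ m', m = m' + 1 := ⟨m - 1, by omega⟩
    have h1 := SS_upper hp m (by
      rw [← hh_mul s]
      apply mul_lt_mul_of_pos_right _ hp
      have : ((m + 1 : ℕ) : ℝ) ≤ ((2 * s : ℕ) : ℝ) := by exact_mod_cast hm
      push_cast at this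
      linarith only [this])
    have h4 := ff_le (hh s)
    have h5 := ff_le ((m + 1) * hh s)
    push_cast
    have h6 : -(hh s * Real.log (hh s)) ≤ hh s * Real.log (2 * s + 1) := by
      have := mul_le_mul_of_nonneg_left hl hp.le
      linarith only [this]
    have h7 := mul_le_mul_of_nonneg_left h4 hp.le
    have h8 := mul_le_mul_of_nonneg_left h5 hp.le
    nlinarith only [h2, h1, h6, h7, h8]

/-- upper Riemann sum, shifted -/
lemma SS_le' {m : ℕ} (hm : m ≤ 2 * s) :
    hh s * SS (hh s) m ≤ LF ((m + 1) * hh s) +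
      hh s * (1 + Real.log 2 + 2 * Real.log (2 * s + 1)) := by
  have hp := hh_pos s
  have h3 := hh_le hs
  have hpi := Real.pi_pos
  have hl2 : (0 : ℝ) ≤ Real.log 2 := Real.log_nonneg (by norm_num)
  have hls : (0 : ℝ) ≤ Real.log (2 * s + 1) := Real.log_nonneg (by
    have : (0 : ℝ) ≤ s := Nat.cast_nonneg s
    linarith only [])
  rcases Nat.lt_or_ge m (2 * s) with hlt | hge
  · have h1 := SS_le hs (m := m + 1) (by omega)
    rw [SS_succ] at h1
    have h4 : -Real.log (2 * s + 1) ≤ ff ((m + 1) * hh s) := by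
      unfold ff
      rw [← Real.log_inv]
      apply Real.log_le_log (by positivity)
      -- `sin ((m+1)h) ≥ sin h ≥ (2/π) h`
      have e1 : Real.sin (hh s) ≤ Real.sin ((m + 1) * hh s) := by
        have hm0 : (0 : ℝ) ≤ m := Nat.cast_nonneg m
        rcases le_total ((m + 1) * hh s) (Real.pi / 2) with h5 | h5
        · exact Real.sin_le_sin_of_le_of_le_pi_div_two (by linarith only [hp, h3]) h5 (by nlinarith only [hp])
        · rw [← Real.sin_pi_sub ((m + 1) * hh s)]
          apply Real.sin_le_sin_of_le_of_le_pi_div_two (by linarith only [hp, h3]) (by linarith only [h5])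
          have : ((m + 1 : ℕ) : ℝ) ≤ ((2 * s : ℕ) : ℝ) := by exact_mod_cast hlt
          push_cast at this
          have h6 := hh_mul s
          nlinarith only [h6, hp, this]
      have e2 := Real.mul_le_sin hp.le (by linarith only [hp, h3])
      have e3 : 2 / Real.pi * hh s = 2 * (2 * (s : ℝ) + 1)⁻¹ := by
        unfold hh
        field_simp
      have e4 : (0 : ℝ) < (2 * (s : ℝ) + 1)⁻¹ := by positivity
      rw [e3] at e2
      linarith only [e1, e2, e4]
    push_cast at h1
    have h5 := mul_le_mul_of_nonneg_left h4 hp.le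
    linarith only [h1, h5]
  · have hm2 : m = 2 * s := by omega
    subst hm2
    have e1 : SS (hh s) (2 * s) = Real.log (2 * s + 1) := by
      have h1 := norm_qf_eq (s := s) (m := 2 * s) le_rfl
      rw [qf_top (tt_prim s)] at h1
      have h2 : ‖(2 * s + 1 : ℂ)‖ = 2 * s + 1 := by
        have : ((2 * s + 1 : ℕ) : ℂ) = 2 * s + 1 := by push_cast; ring
        rw [← this, Complex.norm_natCast]
        push_cast; ring
      rw [h2] at h1
      rw [h1, Real.log_exp]
    rw [e1]
    push_cast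
    rw [hh_mul s, LF_pi]
    nlinarith only [hp, hl2, hls]

/-- lower Riemann sum -/
lemma SS_ge {m : ℕ} (hm : m ≤ 2 * s) : LF ((m + 1 / 2) * hh s) ≤ hh s * SS (hh s) m := by
  have hp := hh_pos s
  have h3 := hh_le hs
  have h1 := SS_lower hp m (by
    rw [← hh_mul s]
    apply mul_le_mul_of_nonneg_right _ hp.le
    have : (m : ℝ) ≤ ((2 * s : ℕ) : ℝ) := by exact_mod_cast hm
    push_cast at this
    linarith only [this])
  have h2 := LF_antitone_small (x := 0) (y := hh s / 2) le_rfl (by linarith only [hp]) (by linarith only [h3])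
  rw [LF_zero] at h2
  linarith only [h1, h2]

omit hs in
lemma exp_div (s : ℕ) : (2 * s + 1 : ℝ) * volFigureEight / (2 * Real.pi) =
    -2 * LF (Real.pi / 6) / hh s := by
  rw [vol_eq]
  unfold hh
  have := Real.pi_pos
  field_simp
  ring

omit hs in
lemma two_e_le : 2 * Real.exp 1 ≤ 6 := by
  have := Real.exp_one_lt_d9
  linarith only [this]

/-- `F ≤ (2e)² n³ e^{n vol/2π}` -/
lemma FF_le : FF s (tt s) ≤ (6 * (2 * s + 1) ^ 3 : ℝ) ^ 2 *
    Real.exp ((2 * s + 1) * volFigureEight / (2 * Real.pi)) := by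
  have hp := hh_pos s
  set n : ℝ := 2 * s + 1 with hn
  have hn1 : 1 ≤ n := by
    have : (0 : ℝ) ≤ s := Nat.cast_nonneg s
    linarith
  have key : ∀ m ∈ range (2 * s + 1), ‖qf (tt s) m‖ ^ 2 ≤
      (2 * Real.exp 1 * n) ^ 2 * Real.exp (n * volFigureEight / (2 * Real.pi)) := by
    intro m hm
    rw [mem_range] at hm
    have h1 := SS_le hs (m := m) (by omega)
    have h2 : LF (m * hh s) ≤ -LF (Real.pi / 6) := by
      apply LF_le (by positivity)
      rw [← hh_mul s]
      apply mul_le_mul_of_nonneg_right _ hp.le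
      have : (m : ℝ) ≤ ((2 * s + 1 : ℕ) : ℝ) := by exact_mod_cast hm.le
      push_cast at this
      exact this
    rw [norm_qf_eq (show m ≤ 2 * s by omega), ← Real.exp_nat_mul, exp_div]
    have h3 : SS (hh s) m ≤ -LF (Real.pi / 6) / hh s + (1 + Real.log 2 + Real.log n) := by
      rw [← sub_le_iff_le_add, le_div_iff₀ hp]
      nlinarith only [h1, h2]
    have e1 : (2 * Real.exp 1 * n) ^ 2 * Real.exp (-2 * LF (Real.pi / 6) / hh s) =
        Real.exp (2 * (-LF (Real.pi / 6) / hh s + (1 + Real.log 2 + Real.log n))) := by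
      have e2 : 2 * Real.exp 1 * n = Real.exp (1 + Real.log 2 + Real.log n) := by
        rw [Real.exp_add, Real.exp_add, Real.exp_log (by norm_num), Real.exp_log (by linarith)]
        ring
      rw [e2, ← Real.exp_nat_mul, ← Real.exp_add]
      congr 1
      push_cast
      ring
    rw [e1]
    apply Real.exp_le_exp.mpr
    push_cast
    linarith only [h3]
  unfold FF
  refine (Finset.sum_le_sum key).trans ?_
  rw [Finset.sum_const, Finset.card_range, nsmul_eq_mul]
  have e3 : ((2 * s + 1 : ℕ) : ℝ) = n := by push_cast; rw [hn]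
  rw [e3, ← mul_assoc]
  apply mul_le_mul_of_nonneg_right _ (Real.exp_pos _).le
  have h4 := two_e_le
  have h5 : (0 : ℝ) ≤ 2 * Real.exp 1 := by positivity
  have h6 : (2 * Real.exp 1) ^ 2 ≤ 6 ^ 2 := pow_le_pow_left₀ h5 h4 2
  calc n * (2 * Real.exp 1 * n) ^ 2 = (2 * Real.exp 1) ^ 2 * n ^ 3 := by ring
    _ ≤ 6 ^ 2 * n ^ 3 := mul_le_mul_of_nonneg_right h6 (by positivity)
    _ ≤ 6 ^ 2 * n ^ 6 := by
      apply mul_le_mul_of_nonneg_left _ (by norm_num)
      exact pow_le_pow_right₀ hn1 (by norm_num)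
    _ = (6 * n ^ 3) ^ 2 := by ring

/-- `Λ ≤ (2e)² n⁶ e^{2 n vol/2π}` -/
lemma LL_le : LL s (tt s) ≤ (6 * (2 * s + 1) ^ 3 : ℝ) ^ 2 *
    Real.exp (2 * ((2 * s + 1) * volFigureEight / (2 * Real.pi))) := by
  have hp := hh_pos s
  set n : ℝ := 2 * s + 1 with hn
  have hn1 : 1 ≤ n := by
    have : (0 : ℝ) ≤ s := Nat.cast_nonneg s
    linarith
  have key : ∀ k ∈ range (2 * s + 1), ∀ j ∈ range (2 * s + 1),
      ‖pf (tt s) k j‖ ^ 2 / ‖qf (tt s) j‖ ^ 2 ≤
      (2 * Real.exp 1 * n ^ 2) ^ 2 * Real.exp (2 * (n * volFigureEight / (2 * Real.pi))) := by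
    intro k hk j hj
    rw [mem_range] at hk hj
    by_cases hjk : j ≤ k
    · have e0 := pf_mul (tt s) hjk
      have e0' := congrArg norm e0
      rw [norm_mul, norm_qf_eq (show k - j ≤ 2 * s by omega), norm_qf_eq (show k ≤ 2 * s by omega)] at e0'
      have e1 : ‖pf (tt s) k j‖ ^ 2 / ‖qf (tt s) j‖ ^ 2 =
          Real.exp (2 * (SS (hh s) k - SS (hh s) (k - j) - SS (hh s) j)) := by
        have e2 : ‖pf (tt s) k j‖ = Real.exp (SS (hh s) k - SS (hh s) (k - j)) := by
          rw [Real.exp_sub, eq_div_iff (Real.exp_ne_zero _)]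
          exact e0'
        rw [e2, norm_qf_eq (show j ≤ 2 * s by omega), ← div_pow, ← Real.exp_sub,
          ← Real.exp_nat_mul]
        push_cast
        rfl
      rw [e1, exp_div]
      have h1 := SS_le' hs (m := k) (by omega)
      have h2 := SS_ge hs (m := j) (by omega)
      have h3 := SS_ge hs (m := k - j) (by omega)
      have hc : ((k - j : ℕ) : ℝ) = (k : ℝ) - j := Nat.cast_sub hjk
      rw [hc] at h3
      have hjk' : (j : ℝ) ≤ k := by exact_mod_cast hjk
      have h4 := LF_tetra (y := (j + 1 / 2) * hh s) (z := ((k : ℝ) - j + 1 / 2) * hh s)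
        (by positivity) (by
          have : (0 : ℝ) ≤ (k : ℝ) - j + 1 / 2 := by linarith only [hc]
          positivity) (by
          rw [← add_mul, ← hh_mul s]
          apply mul_le_mul_of_nonneg_right _ hp.le
          have : (k : ℝ) ≤ ((2 * s : ℕ) : ℝ) := by exact_mod_cast (show k ≤ 2 * s by omega)
          push_cast at this
          linarith only [this])
      rw [← add_mul, show (j : ℝ) + 1 / 2 + (k - j + 1 / 2) = k + 1 by ring] at h4
      have h5 : SS (hh s) k - SS (hh s) (k - j) - SS (hh s) j ≤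
          -2 * LF (Real.pi / 6) / hh s + (1 + Real.log 2 + 2 * Real.log n) := by
        rw [← sub_le_iff_le_add, le_div_iff₀ hp]
        nlinarith only [h1, h2, h3, h4]
      have e3 : (2 * Real.exp 1 * n ^ 2) ^ 2 * Real.exp (2 * (-2 * LF (Real.pi / 6) / hh s)) =
          Real.exp (2 * (-2 * LF (Real.pi / 6) / hh s + (1 + Real.log 2 + 2 * Real.log n))) := by
        have e2 : 2 * Real.exp 1 * n ^ 2 = Real.exp (1 + Real.log 2 + 2 * Real.log n) := by
          rw [Real.exp_add, Real.exp_add, Real.exp_log (by norm_num), two_mul (Real.log n),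
            Real.exp_add, Real.exp_log (by linarith)]
          ring
        rw [e2, ← Real.exp_nat_mul, ← Real.exp_add]
        congr 1
        push_cast
        ring
      rw [e3]
      apply Real.exp_le_exp.mpr
      linarith only [h5]
    · rw [pf_lt _ (by omega)]
      simp only [norm_zero, ne_eq, OfNat.ofNat_ne_zero, not_false_eq_true, zero_pow, zero_div]
      positivity
  unfold LL
  refine (Finset.sum_le_sum fun k hk => Finset.sum_le_sum (key k hk)).trans ?_
  rw [Finset.sum_const, Finset.sum_const, Finset.card_range, nsmul_eq_mul, nsmul_eq_mul]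
  have e3 : ((2 * s + 1 : ℕ) : ℝ) = n := by push_cast; rw [hn]
  rw [e3, ← mul_assoc, ← mul_assoc]
  apply mul_le_mul_of_nonneg_right _ (Real.exp_pos _).le
  have h4 := two_e_le
  have h5 : (0 : ℝ) ≤ 2 * Real.exp 1 := by positivity
  have h6 : (2 * Real.exp 1) ^ 2 ≤ 6 ^ 2 := pow_le_pow_left₀ h5 h4 2
  calc n * n * (2 * Real.exp 1 * n ^ 2) ^ 2 = (2 * Real.exp 1) ^ 2 * n ^ 6 := by ring
    _ ≤ 6 ^ 2 * n ^ 6 := mul_le_mul_of_nonneg_right h6 (by positivity)
    _ = (6 * n ^ 3) ^ 2 := by ring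

/-- `F ≥ e^{n vol/2π}/4` -/
lemma FF_lower : Real.exp ((2 * s + 1) * volFigureEight / (2 * Real.pi)) / 4 ≤ FF s (tt s) := by
  have hp := hh_pos s
  have hpi := Real.pi_pos
  -- the index
  obtain ⟨m, hm1, hm2⟩ : ∃ m : ℕ, 6 * m + 3 ≤ 5 * (2 * s + 1) ∧ 5 * (2 * s + 1) < 6 * m + 9 :=
    ⟨(5 * (2 * s + 1) - 3) / 6, by omega, by omega⟩
  have hm3 : m ≤ 2 * s := by omega
  have c1 : ((6 * m + 3 : ℕ) : ℝ) ≤ ((5 * (2 * s + 1) : ℕ) : ℝ) := by exact_mod_cast hm1
  have c2 : ((5 * (2 * s + 1) : ℕ) : ℝ) ≤ ((6 * m + 9 : ℕ) : ℝ) := by exact_mod_cast hm2.le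
  push_cast at c1 c2
  have hmul := hh_mul s
  have d1 : (m + 1 / 2) * hh s ≤ 5 * Real.pi / 6 := by
    rw [← hmul]; nlinarith only [hp, c1]
  have d2 : 5 * Real.pi / 6 - (m + 1 / 2) * hh s ≤ hh s := by
    rw [← hmul]; nlinarith only [hp, c2]
  have h1 := SS_ge hs hm3
  have h2 := LF_sub ((m + 1 / 2) * hh s) (5 * Real.pi / 6)
  have h3 : ∫ u in ((m + 1 / 2) * hh s)..(5 * Real.pi / 6), ff u ≤
      ∫ u in ((m + 1 / 2) * hh s)..(5 * Real.pi / 6), Real.log 2 := by
    apply intervalIntegral.integral_mono_on_of_le_Ioo d1 (ii _ _) intervalIntegrable_const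
    intro u _
    exact ff_le u
  rw [intervalIntegral.integral_const, smul_eq_mul] at h3
  have h4 : LF (5 * Real.pi / 6) = -LF (Real.pi / 6) := by
    rw [← LF_reflect]; congr 1; ring
  have hl2 : (0 : ℝ) ≤ Real.log 2 := Real.log_nonneg (by norm_num)
  have h5 : (5 * Real.pi / 6 - (m + 1 / 2) * hh s) * Real.log 2 ≤ hh s * Real.log 2 :=
    mul_le_mul_of_nonneg_right d2 hl2
  have h6 : -LF (Real.pi / 6) / hh s - Real.log 2 ≤ SS (hh s) m := by
    rw [sub_le_iff_le_add, div_le_iff₀ hp]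
    nlinarith only [h1, h2, h3, h4, h5]
  have h7 : ‖qf (tt s) m‖ ^ 2 ≤ FF s (tt s) := by
    unfold FF
    apply Finset.single_le_sum (f := fun m => ‖qf (tt s) m‖ ^ 2) (fun _ _ => by positivity)
    exact mem_range.mpr (by omega)
  refine le_trans ?_ h7
  rw [norm_qf_eq hm3, ← Real.exp_nat_mul, exp_div]
  have e1 : Real.exp (-2 * LF (Real.pi / 6) / hh s) / 4 =
      Real.exp (2 * (-LF (Real.pi / 6) / hh s - Real.log 2)) := by
    have e2 : (4 : ℝ) = Real.exp (2 * Real.log 2) := by
      rw [two_mul, Real.exp_add, Real.exp_log (by norm_num)]; norm_num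
    rw [e2, ← Real.exp_sub]
    congr 1
    ring
  rw [e1]
  apply Real.exp_le_exp.mpr
  push_cast
  linarith only [h6]

end

end Pool.Agent.Work.MP_b30479_gt.TB
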