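import Pool.Agent.Work.MP_b30479_gt.TB.Basis
import Pool.Agent.Work.MP_b30479_gt.TB.CasComm
import Pool.Agent.Work.MP_b30479_gt.TB.Plat

/-!
# The matrix of the braiding in the orthogonal basis
-/

namespace Pool.Agent.Work.MP_b30479_gt.TB

open Finset

/-- falling product -/
noncomputable def pf (t : ℂ) (k j : ℕ) : ℂ := ∏ x ∈ range j, (1 - t ^ (k - x))

lemma pf_zero (t : ℂ) (k : ℕ) : pf t k 0 = 1 := by simp [pf]

lemma pf_succ (t : ℂ) (k j : ℕ) : pf t k (j + 1) = pf t k j * (1 - t ^ (k - j)) := by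
  unfold pf; rw [prod_range_succ]

lemma pf_succ' (t : ℂ) (k j : ℕ) : pf t (k + 1) (j + 1) = pf t k j * (1 - t ^ (k + 1)) := by
  unfold pf
  rw [prod_range_succ']
  congr 1
  apply prod_congr rfl
  intro x _
  rw [show k + 1 - (x + 1) = k - x by omega]

lemma pf_lt (t : ℂ) {k j : ℕ} (hkj : k < j) : pf t k j = 0 := by
  unfold pf
  apply prod_eq_zero (mem_range.mpr hkj)
  simp

lemma pf_mul (t : ℂ) {k j : ℕ} (hjk : j ≤ k) : pf t k j * qf t (k - j) = qf t k := by
  induction j generalizing k with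
  | zero => simp [pf_zero]
  | succ j ih =>
    obtain ⟨k, rfl⟩ : ∃ k', k = k' + 1 := ⟨k - 1, by omega⟩
    rw [pf_succ', Nat.add_sub_add_right, qf_succ, ← ih (k := k) (by omega)]
    ring

section
variable {s : ℕ} {u : ℂˣ} (h : IsPrimitiveRoot (u : ℂ) (2 * s + 1))
include h

omit h in
lemma L1_eta (a b c : ℕ) (_hab : a + b ≤ 2 * s) :
    L1 (entry s u true) (eta s u) a b c = if b = 0 then (u : ℂ) ^ (s * s) else 0 := by
  have h0 : (u : ℂ) ≠ 0 := u.ne_zero
  unfold L1 M eta
  rw [Finset.sum_eq_single (0, a + b)]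
  · simp only [if_true]
    by_cases hb : b = 0
    · subst hb
      rw [if_pos rfl, Nat.add_zero]
      have e1 := entry_true s u 0 a 0 0 rfl
      rw [Nat.add_zero] at e1
      rw [e1, coeffPos_zero, ← zpow_natCast, ← zpow_natCast, ← zpow_add₀ h0]
      congr 1
      push_cast
      ring
    · rw [if_neg hb, entry_true_zero _ _ _ _ _ _ (by omega), zero_mul]
  · rintro ⟨i, j⟩ hp hne
    rw [mem_AD] at hp
    simp only at hp ⊢
    rw [if_neg, mul_zero]
    rintro rfl
    apply hne
    simp only [Prod.mk.injEq, true_and]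
    omega
  · intro hc
    exact absurd (mem_AD.mpr (by simp)) hc

lemma slope_one : ∀ k i j : ℕ, i + j + k = 2 * s →
    L2 (cas s u) (L1 (entry s u true) (eta s u)) i j k =
      -(u : ℂ) * L1 (cas s u) (L1 (entry s u true) (eta s u)) i j k +
      4 * (u : ℂ) ^ (s + 1) * L1 (entry s u true) (eta s u) i j k := by
  have h0 : (u : ℂ) ≠ 0 := u.ne_zero
  have hV := sq_mul h
  set X := L1 (entry s u true) (eta s u) with hXdef
  have hX : HW s u X := HW_L1 (commC_true h) (HW_eta h)
  have hY : HW s u (fun i j k => (fun i j k => L2 (cas s u) X i j k +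
      (u : ℂ) * L1 (cas s u) X i j k) i j k + (-(4 * (u : ℂ) ^ (s + 1))) * X i j k) :=
    HW_lin (HW_lin (HW_L2 h0 (commC_cas h) hX) (HW_L1 (commC_cas h) hX) _) hX _
  have key := HW_inj h hY (fun i hi => by
    show L2 (cas s u) X i (2 * s - i) 0 + (u : ℂ) * L1 (cas s u) X i (2 * s - i) 0 +
      (-(4 * (u : ℂ) ^ (s + 1))) * X i (2 * s - i) 0 = 0
    rw [L2_cas_coord h hX hi]
    have e1 : L1 (cas s u) X i (2 * s - i) 0 = M (cas s u) (fun a b => X a b 0) i (2 * s - i) := rfl
    rw [e1, M_cas]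
    have x1 : X i (2 * s - i) 0 = if 2 * s - i = 0 then (u : ℂ) ^ (s * s) else 0 :=
      L1_eta _ _ _ (by omega)
    have x2 : i < 2 * s → X (i + 1) (2 * s - (i + 1)) 0 =
        if 2 * s - (i + 1) = 0 then (u : ℂ) ^ (s * s) else 0 := fun hlt =>
      L1_eta _ _ _ (by omega)
    have x3 : 1 ≤ i → X (i - 1) (2 * s - i + 1) 0 = 0 := fun hlt => by
      rw [hXdef, L1_eta _ _ _ (by omega), if_neg (by omega)]
    have x4 : (if 1 ≤ i then (1 - (u : ℂ) ^ i) * (1 - (u : ℂ)⁻¹ ^ (2 * s - i + 1)) *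
        X (i - 1) (2 * s - i + 1) 0 else 0) = 0 := by
      by_cases hi1 : 1 ≤ i
      · rw [x3 hi1, mul_zero, ite_self]
      · rw [if_neg hi1]
    rw [x4]
    rcases Nat.lt_or_ge i (2 * s) with hlt | hge
    · rw [if_pos hlt, if_pos (by omega), show 2 * s - i - 1 = 2 * s - (i + 1) by omega, x2 hlt, x1,
        if_neg (by omega)]
      by_cases hi2 : 2 * s - (i + 1) = 0
      · rw [if_pos hi2, ← inv_pow_eq h (show i + 1 + (2 * s - i) = 2 * s + 1 by omega),
          inv_pow_eq h (show 2 * s - i + (i + 1) = 2 * s + 1 by omega)]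
        have hx : (u : ℂ) ^ (i + 1) = (u : ℂ)⁻¹ := by
          apply eq_inv_of_mul_eq_one_left
          rw [← pow_succ, show i + 1 + 1 = 2 * s + 1 by omega, h.pow_eq_one]
        rw [inv_pow, hx]
        field_simp
        ring
      · rw [if_neg hi2]
        ring
    · have hi2 : i = 2 * s := by omega
      subst hi2
      rw [if_neg (by omega), if_neg (by omega), x1, if_pos (by omega)]
      unfold dg cc
      rw [show 2 * s - 2 * s = 0 by omega, pow_zero,
        inv_pow_eq h (show 2 * s + 1 = 2 * s + 1 from rfl)]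
      have hx : (u : ℂ) ^ (2 * s) = (u : ℂ)⁻¹ := by
        apply eq_inv_of_mul_eq_one_left
        rw [← pow_succ, h.pow_eq_one]
      rw [hx, pow_succ (u : ℂ) s, pow_one]
      generalize (u : ℂ) ^ (s * s) = y
      generalize (u : ℂ) ^ s = V at *
      generalize (u : ℂ) = t at *
      field_simp
      ring)
  intro k i j hijk
  have := key k i j hijk
  simp only at this
  linear_combination this

/-- matrix of the braiding in the orthogonal basis -/
noncomputable def al (s : ℕ) (u : ℂˣ) (k j : ℕ) : ℂ := xi s u k (L1 (entry s u true) (uu s u j))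

lemma al_zero_zero : al s u 0 0 = (u : ℂ) ^ (s * s) := by
  have h0 : (u : ℂ) ≠ 0 := u.ne_zero
  unfold al xi
  show HH (2 * s) (eta s u) (L1 (entry s u true) (eta s u)) = _
  rw [HH_eta_left h, Finset.sum_eq_single (Fin.last (2 * s))]
  · rw [L1_eta _ _ _ (by simp), if_pos (by simp), Fin.val_last, ← zpow_natCast, ← zpow_natCast,
      ← zpow_add₀ h0, ← zpow_add₀ h0]
    congr 1
    push_cast
    ring
  · intro i _ hi
    have h1 : (i : ℕ) < 2 * s := by
      rcases Nat.lt_or_ge (i : ℕ) (2 * s) with h2 | h2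
      · exact h2
      · exfalso
        apply hi
        apply Fin.ext
        simp
        omega
    rw [L1_eta _ _ _ (by rw [Fin.val_rev]; omega), if_neg (by rw [Fin.val_rev]; omega), mul_zero]
  · intro hc
    exact absurd (Finset.mem_univ _) hc

lemma al_rec_zero {k : ℕ} (hk : k ≤ 2 * s) : al s u (k + 1) 0 =
    (4 * (u : ℂ) ^ (s + 1) - (1 + (u : ℂ)) * cc s u k) * al s u k 0 -
      (u : ℂ) * ((1 - (u : ℂ) ^ k) * (1 - (u : ℂ)⁻¹ ^ k)) ^ 2 * al s u (k - 1) 0 := by
  set X := L1 (entry s u true) (uu s u 0) with hX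
  have e1 := xi_L2_cas h k X
  have e2 : xi s u k (L2 (cas s u) X) = -(u : ℂ) * xi s u k (L1 (cas s u) X) +
      4 * (u : ℂ) ^ (s + 1) * xi s u k X := by
    unfold xi
    rw [← HH_smul_right, ← HH_smul_right, ← HH_add_right]
    apply HH_congr (fun _ _ _ _ => rfl)
    intro i j l hs
    exact slope_one h l i j hs
  rw [xi_L1_cas h hk] at e2
  show xi s u (k + 1) X = _ * xi s u k X - _ * xi s u (k - 1) X
  linear_combination e2 - e1

lemma al_succ_zero {k : ℕ} (hk : k ≤ 2 * s) : al s u (k + 1) 0 =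
    -((u : ℂ) ^ s * (u : ℂ)⁻¹ ^ k * (1 - (u : ℂ) ^ (k + 1)) ^ 2) * al s u k 0 := by
  have h0 : (u : ℂ) ≠ 0 := u.ne_zero
  have hV := sq_mul h
  induction k with
  | zero =>
    rw [al_rec_zero h (by omega)]
    unfold cc
    simp only [pow_zero, pow_succ, one_mul]
    ring
  | succ k ih =>
    have ih := ih (by omega)
    rw [al_rec_zero h hk, Nat.add_sub_cancel, ih]
    unfold cc
    have n1 : (u : ℂ) ^ k ≠ 0 := pow_ne_zero _ h0
    simp only [inv_pow, pow_succ (u : ℂ)]
    generalize (u : ℂ) ^ k = x at *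
    generalize al s u k 0 = y at *
    generalize (u : ℂ) ^ s = V at *
    generalize (u : ℂ) = t at *
    obtain ⟨ht, hV0⟩ := eq_inv_sq hV
    subst ht
    field_simp
    ring

lemma al_succ {k j : ℕ} (hk : k ≤ 2 * s) : al s u k (j + 1) =
    (cc s u k - cc s u j) * al s u k j +
      ((1 - (u : ℂ) ^ k) * (1 - (u : ℂ)⁻¹ ^ k)) ^ 2 * al s u (k - 1) j := by
  set Y := L1 (entry s u true) (uu s u j) with hY
  have e1 : al s u k (j + 1) = xi s u k (L1 (cas s u) Y) + (-cc s u j) * xi s u k Y := by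
    unfold al xi
    rw [← HH_smul_right, ← HH_add_right]
    apply HH_congr (fun _ _ _ _ => rfl)
    intro a b c hs
    rw [hY, cas_comm h (HW_uu h j) c a b hs]
    -- linearity
    show M (entry s u true) (fun i l => L1 (cas s u) (uu s u j) i l c +
      (-cc s u j) * uu s u j i l c) a b = M (entry s u true) (fun i l => L1 (cas s u) (uu s u j) i l c) a b
      + (-cc s u j) * M (entry s u true) (fun i l => uu s u j i l c) a b
    unfold M
    rw [Finset.mul_sum, ← Finset.sum_add_distrib]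
    apply Finset.sum_congr rfl
    intro p _
    ring
  rw [e1, xi_L1_cas h hk]
  show _ = _ * xi s u k Y + _ * xi s u (k - 1) Y
  ring

/-- closed form -/
lemma al_closed {k : ℕ} (hk : k ≤ 2 * s) (j : ℕ) : al s u k j =
    ((u : ℂ) ^ s) ^ j * qf u j * pf u k j * al s u k 0 := by
  have h0 : (u : ℂ) ≠ 0 := u.ne_zero
  have hV := sq_mul h
  induction j generalizing k with
  | zero => simp [pf_zero]
  | succ j ih =>
    rw [al_succ h hk, ih hk]
    rcases Nat.eq_zero_or_pos k with rfl | hk0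
    · rcases Nat.eq_zero_or_pos j with rfl | hj
      · rw [pf_zero, pf_succ, pf_zero]
        simp
      · rw [pf_lt _ hj, pf_lt _ (show 0 < j + 1 by omega)]
        simp
    · obtain ⟨k, rfl⟩ : ∃ k', k = k' + 1 := ⟨k - 1, by omega⟩
      rw [Nat.add_sub_cancel, ih (show k ≤ 2 * s by omega), al_succ_zero h (show k ≤ 2 * s by omega),
        qf_succ]
      by_cases hjk : j ≤ k + 1
      · have e1 : pf (u : ℂ) k j * (1 - (u : ℂ) ^ (k + 1)) =
            pf (u : ℂ) (k + 1) j * (1 - (u : ℂ) ^ (k + 1 - j)) := by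
          rw [← pf_succ', pf_succ]
        have e2 : pf (u : ℂ) (k + 1) (j + 1) = pf (u : ℂ) (k + 1) j *
            (1 - (u : ℂ) ^ (k + 1 - j)) := pf_succ _ _ _
        rw [e2]
        have e3 : ((1 - (u : ℂ) ^ (k + 1)) * (1 - (u : ℂ)⁻¹ ^ (k + 1))) ^ 2 *
            (((u : ℂ) ^ s) ^ j * qf (u : ℂ) j * pf (u : ℂ) k j * al s u k 0) =
            (1 - (u : ℂ) ^ (k + 1)) * (1 - (u : ℂ)⁻¹ ^ (k + 1)) ^ 2 *
            (((u : ℂ) ^ s) ^ j * qf (u : ℂ) j * (pf (u : ℂ) (k + 1) j *
              (1 - (u : ℂ) ^ (k + 1 - j))) * al s u k 0) := by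
          rw [← e1]; ring
        rw [e3]
        obtain ⟨m, hm⟩ : ∃ m, k + 1 = j + m := ⟨k + 1 - j, by omega⟩
        have e4 : (u : ℂ) ^ (k + 1) = (u : ℂ) ^ j * (u : ℂ) ^ m := by rw [hm, pow_add]
        rw [hm, Nat.add_sub_cancel_left]
        unfold cc
        rw [show j + m = k + 1 from hm.symm]
        generalize pf (u : ℂ) (k + 1) j = P
        have e5 : (u : ℂ)⁻¹ ^ k = (u : ℂ) * ((u : ℂ) ^ (k + 1))⁻¹ := by
          have : (u : ℂ) ^ k ≠ 0 := pow_ne_zero _ h0
          rw [pow_succ, inv_pow]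
          field_simp
        rw [e5, inv_pow, e4, inv_pow, pow_succ (u : ℂ) j, pow_succ (u : ℂ) s,
          pow_succ ((u : ℂ) ^ s) j]
        have nj : (u : ℂ) ^ j ≠ 0 := pow_ne_zero _ h0
        have nm : (u : ℂ) ^ m ≠ 0 := pow_ne_zero _ h0
        clear e1 e2 e3 e4 e5 ih
        generalize al s u k 0 = y at *
        generalize qf (u : ℂ) j = q at *
        generalize (u : ℂ) ^ j = J at *
        generalize (u : ℂ) ^ m = K at *
        generalize ((u : ℂ) ^ s) ^ j = U at *
        generalize (u : ℂ) ^ s = V at *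
        generalize (u : ℂ) = t at *
        obtain ⟨ht, hV0⟩ := eq_inv_sq hV
        subst ht
        field_simp
        ring
      · rw [pf_lt _ (show k + 1 < j by omega), pf_lt _ (show k < j by omega),
          pf_lt _ (show k + 1 < j + 1 by omega)]
        ring

lemma norm_al_zero {k : ℕ} (hk : k ≤ 2 * s) : ‖al s u k 0‖ = ‖qf (u : ℂ) k‖ ^ 2 := by
  have h1 : ‖(u : ℂ)‖ = 1 := h.norm'_eq_one (by omega)
  induction k with
  | zero =>
    rw [al_zero_zero h]
    simp [h1]
  | succ k ih =>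
    rw [al_succ_zero h (by omega), norm_mul, ih (by omega), norm_neg, norm_mul, norm_mul, norm_pow,
      norm_pow, norm_inv, h1, qf_succ, norm_mul, norm_pow]
    ring

end

end Pool.Agent.Work.MP_b30479_gt.TB
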