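import Mathlib

/-!
# Arrays: vectors of weight index `S` in `V ⊗ V ⊗ V` and operators on two adjacent factors
-/

namespace Pool.Agent.Work.MP_b30479_gt.TB

open Finset

/-- pairs with a given sum -/
abbrev AD (n : ℕ) : Finset (ℕ × ℕ) := HasAntidiagonal.antidiagonal n

lemma mem_AD {n : ℕ} {p : ℕ × ℕ} : p ∈ AD n ↔ p.1 + p.2 = n :=
  HasAntidiagonal.mem_antidiagonal

/-- coordinates of a vector of `V ⊗ V ⊗ V` -/
abbrev Arr := ℕ → ℕ → ℕ → ℂ

/-- matrix of an operator on `V ⊗ V` that preserves `i + j`: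
`e i j a b` is the coefficient of `e_a ⊗ e_b` in the image of `e_i ⊗ e_j` -/
abbrev Ent := ℕ → ℕ → ℕ → ℕ → ℂ

/-- action on `V ⊗ V` -/
def M (e : Ent) (Z : ℕ → ℕ → ℂ) : ℕ → ℕ → ℂ := fun a b =>
  ∑ p ∈ AD (a + b), e p.1 p.2 a b * Z p.1 p.2

/-- action on the first two factors -/
def L1 (e : Ent) (X : Arr) : Arr := fun a b c => M e (fun i j => X i j c) a b

/-- action on the last two factors -/
def L2 (e : Ent) (X : Arr) : Arr := fun a b c => M e (fun i j => X a i j) b c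

/-- the reflected Hermitian form -/
def HH (S : ℕ) (X Y : Arr) : ℂ :=
  ∑ p ∈ AD S, ∑ q ∈ AD p.2, star (X q.2 q.1 p.1) * Y p.1 q.1 q.2

lemma triple_rev (S : ℕ) (f : ℕ → ℕ → ℕ → ℂ) :
    ∑ p ∈ AD S, ∑ q ∈ AD p.2, f p.1 q.1 q.2 =
      ∑ p ∈ AD S, ∑ q ∈ AD p.2, f q.2 q.1 p.1 := by
  rw [Finset.sum_sigma', Finset.sum_sigma']
  refine Finset.sum_nbij'
    (fun x => ⟨(x.2.2, x.1.1 + x.2.1), (x.2.1, x.1.1)⟩)
    (fun x => ⟨(x.2.2, x.1.1 + x.2.1), (x.2.1, x.1.1)⟩) ?_ ?_ ?_ ?_ ?_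
  · rintro ⟨⟨a, b⟩, ⟨c, d⟩⟩ h
    simp only [mem_sigma, mem_AD] at h ⊢
    omega
  · rintro ⟨⟨a, b⟩, ⟨c, d⟩⟩ h
    simp only [mem_sigma, mem_AD] at h ⊢
    omega
  · rintro ⟨⟨a, b⟩, ⟨c, d⟩⟩ h
    simp only [mem_sigma, mem_AD] at h
    obtain ⟨_, rfl⟩ := h
    simp [add_comm]
  · rintro ⟨⟨a, b⟩, ⟨c, d⟩⟩ h
    simp only [mem_sigma, mem_AD] at h
    obtain ⟨_, rfl⟩ := h
    simp [add_comm]
  · rintro ⟨⟨a, b⟩, ⟨c, d⟩⟩ h
    rfl

lemma HH_star (S : ℕ) (X Y : Arr) : star (HH S X Y) = HH S Y X := by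
  unfold HH
  rw [star_sum]
  simp only [star_sum, star_mul', star_star]
  rw [triple_rev S (fun i j k => X k j i * star (Y i j k))]
  apply Finset.sum_congr rfl
  intro p _
  apply Finset.sum_congr rfl
  intro q _
  rw [mul_comm]

lemma HH_congr {S : ℕ} {X X' Y Y' : Arr} (hX : ∀ i j k, i + j + k = S → X i j k = X' i j k)
    (hY : ∀ i j k, i + j + k = S → Y i j k = Y' i j k) : HH S X Y = HH S X' Y' := by
  unfold HH
  apply Finset.sum_congr rfl
  intro p hp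
  apply Finset.sum_congr rfl
  intro q hq
  rw [mem_AD] at hp hq
  rw [hX _ _ _ (by omega), hY _ _ _ (by omega)]

lemma HH_add_right (S : ℕ) (X Y Z : Arr) :
    HH S X (fun i j k => Y i j k + Z i j k) = HH S X Y + HH S X Z := by
  unfold HH
  simp only [mul_add, Finset.sum_add_distrib]

lemma HH_smul_right (S : ℕ) (X Y : Arr) (a : ℂ) :
    HH S X (fun i j k => a * Y i j k) = a * HH S X Y := by
  unfold HH
  simp only [Finset.mul_sum]
  apply Finset.sum_congr rfl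
  intro p _
  apply Finset.sum_congr rfl
  intro q _
  ring

lemma HH_add_left (S : ℕ) (X Y Z : Arr) :
    HH S (fun i j k => Y i j k + Z i j k) X = HH S Y X + HH S Z X := by
  rw [← HH_star, HH_add_right, star_add, HH_star, HH_star]

lemma HH_smul_left (S : ℕ) (X Y : Arr) (a : ℂ) :
    HH S (fun i j k => a * Y i j k) X = star a * HH S Y X := by
  rw [← HH_star, HH_smul_right, star_mul', HH_star]

lemma HH_zero_right {S : ℕ} {X Y : Arr} (h : ∀ i j k, i + j + k = S → Y i j k = 0) :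
    HH S X Y = 0 := by
  unfold HH
  apply Finset.sum_eq_zero
  intro p hp
  apply Finset.sum_eq_zero
  intro q hq
  rw [mem_AD] at hp hq
  rw [h _ _ _ (by omega), mul_zero]

/-- `e'` is the adjoint of `e`, reflected -/
def IsDag (S : ℕ) (e e' : Ent) : Prop :=
  ∀ i j a b, i + j = a + b → a + b ≤ S → star (e i j a b) = e' b a j i

lemma IsDag.symm {S : ℕ} {e e' : Ent} (h : IsDag S e e') : IsDag S e' e := by
  intro i j a b hij hS
  rw [← h b a j i (by omega) (by omega), star_star]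

lemma HH_L1 {S : ℕ} {e e' : Ent} (h : IsDag S e e') (X Y : Arr) :
    HH S (L1 e X) Y = HH S X (L2 e' Y) := by
  unfold HH L1 L2 M
  apply Finset.sum_congr rfl
  intro p hp
  rw [mem_AD] at hp
  have e1 : ∑ q ∈ AD p.2, star (∑ r ∈ AD (q.2 + q.1),
        e r.1 r.2 q.2 q.1 * X r.1 r.2 p.1) * Y p.1 q.1 q.2 =
      ∑ q ∈ AD p.2, ∑ r ∈ AD p.2,
        e' q.1 q.2 r.2 r.1 * star (X r.1 r.2 p.1) * Y p.1 q.1 q.2 := by
    apply Finset.sum_congr rfl
    intro q hq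
    rw [mem_AD] at hq
    rw [show q.2 + q.1 = p.2 by omega, star_sum, Finset.sum_mul]
    apply Finset.sum_congr rfl
    intro r hr
    rw [mem_AD] at hr
    rw [star_mul', h r.1 r.2 q.2 q.1 (by omega) (by omega)]
  have e2 : ∑ q ∈ AD p.2, star (X q.2 q.1 p.1) * (∑ r ∈ AD (q.1 + q.2),
        e' r.1 r.2 q.1 q.2 * Y p.1 r.1 r.2) =
      ∑ q ∈ AD p.2, ∑ r ∈ AD p.2,
        e' r.1 r.2 q.1 q.2 * star (X q.2 q.1 p.1) * Y p.1 r.1 r.2 := by
    apply Finset.sum_congr rfl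
    intro q hq
    rw [mem_AD] at hq
    rw [hq, Finset.mul_sum]
    apply Finset.sum_congr rfl
    intro r hr
    ring
  rw [e1, e2, Finset.sum_comm,
    ← Finset.Nat.sum_antidiagonal_swap (f := fun q => ∑ r ∈ AD p.2,
        e' r.1 r.2 q.1 q.2 * star (X q.2 q.1 p.1) * Y p.1 r.1 r.2)]
  apply Finset.sum_congr rfl
  intro q _
  simp only [Prod.fst_swap, Prod.snd_swap]

lemma HH_L2 {S : ℕ} {e e' : Ent} (h : IsDag S e e') (X Y : Arr) :
    HH S (L2 e X) Y = HH S X (L1 e' Y) := by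
  rw [← HH_star, ← HH_L1 h.symm, HH_star]

end Pool.Agent.Work.MP_b30479_gt.TB
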