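import Pool.Agent.Work.MP_b30479_gt.TB.Pos

/-!
# Coordinates in the orthogonal basis
-/

namespace Pool.Agent.Work.MP_b30479_gt.TB

open Finset

/-- linear combination of the basis vectors -/
noncomputable def lc (s : ℕ) (t : ℂ) (c : ℕ → ℂ) (n : ℕ) : Arr := fun i j k =>
  ∑ m ∈ range n, c m * uu s t m i j k

/-- squared norm of the basis vector `uu k` -/
noncomputable def NN (t : ℂ) (k : ℕ) : ℂ := ((‖qf t k‖ ^ 4 : ℝ) : ℂ)

/-- coordinates -/
noncomputable def xi (s : ℕ) (t : ℂ) (k : ℕ) (X : Arr) : ℂ := HH (2 * s) (uu s t k) X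

section
variable {s : ℕ} {t : ℂ} (h : IsPrimitiveRoot t (2 * s + 1))
include h

lemma NN_ne {k : ℕ} (hk : k ≤ 2 * s) : NN t k ≠ 0 := by
  unfold NN
  have := norm_ne_zero_iff.mpr (qf_ne_zero h hk)
  exact_mod_cast pow_ne_zero 4 this

omit h in
lemma HW_zero : HW s t (fun _ _ _ => 0) := by
  intro i j k _
  unfold EE
  ring

lemma HW_lc (c : ℕ → ℂ) (n : ℕ) : HW s t (lc s t c n) := by
  induction n with
  | zero =>
    have : lc s t c 0 = fun _ _ _ => 0 := by
      funext i j k
      unfold lc
      simp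
    rw [this]
    exact HW_zero
  | succ n ih =>
    have : lc s t c (n + 1) = fun i j k => lc s t c n i j k + c n * uu s t n i j k := by
      funext i j k
      unfold lc
      rw [Finset.sum_range_succ]
    rw [this]
    exact HW_lin ih (HW_uu h n) _

omit h in
lemma HH_lc_right (X : Arr) (c : ℕ → ℂ) (n : ℕ) :
    HH (2 * s) X (lc s t c n) = ∑ m ∈ range n, c m * HH (2 * s) X (uu s t m) := by
  induction n with
  | zero =>
    rw [Finset.sum_range_zero]
    apply HH_zero_right
    intro i j k _
    unfold lc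
    simp
  | succ n ih =>
    have : lc s t c (n + 1) = fun i j k => lc s t c n i j k + c n * uu s t n i j k := by
      funext i j k
      unfold lc
      rw [Finset.sum_range_succ]
    rw [this, HH_add_right, HH_smul_right, ih, Finset.sum_range_succ]

lemma HH_uu_orth {i k : ℕ} (hik : i ≠ k) (_hi : i ≤ 2 * s) (_hk : k ≤ 2 * s) :
    HH (2 * s) (uu s t i) (uu s t k) = 0 := by
  have key : ∀ i k, k < i → HH (2 * s) (uu s t i) (uu s t k) = 0 := by
    intro i k hlt
    exact HH_uu_zero h i _ (HW_uu h k) (fun m h1 h2 => uu_coord_zero k m (by omega) h2)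
  rcases lt_or_gt_of_ne hik with hlt | hgt
  · rw [← HH_star, key k i hlt, star_zero]
  · exact key i k hgt

lemma HH_uu_top {X : Arr} (hX : HW s t X) : HH (2 * s) (uu s t (2 * s + 1)) X = 0 :=
  HH_uu_zero h _ X hX (fun i h1 h2 => by omega)

lemma HH_uu_self' {k : ℕ} (hk : k ≤ 2 * s) : HH (2 * s) (uu s t k) (uu s t k) = NN t k :=
  HH_uu_self h hk

/-- a highest weight vector orthogonal to all basis vectors vanishes -/
lemma eq_zero_of_orth {X : Arr} (hX : HW s t X) (ho : ∀ k, k ≤ 2 * s → xi s t k X = 0) :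
    ∀ k i j, i + j + k = 2 * s → X i j k = 0 := by
  apply HW_inj h hX
  -- coordinates vanish from the top
  have key : ∀ d m, 2 * s + 1 ≤ m + d → m ≤ 2 * s → X m (2 * s - m) 0 = 0 := by
    intro d
    induction d with
    | zero => intro i h1 h2; omega
    | succ d ih =>
      intro m h1 h2
      by_cases h7 : 2 * s + 1 ≤ m + d
      · exact ih m h7 h2
      · -- subtract a multiple of `uu m`
        have hne := uu_coord_ne h h2
        set c : ℂ := X m (2 * s - m) 0 / uu s t m m (2 * s - m) 0 with hc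
        have hY : HW s t (fun i j k => X i j k + (-c) * uu s t m i j k) :=
          HW_lin hX (HW_uu h m) _
        have h3 := HH_uu_zero h m _ hY (fun i h4 h5 => by
          show X i (2 * s - i) 0 + (-c) * uu s t m i (2 * s - i) 0 = 0
          rcases Nat.eq_or_lt_of_le h4 with rfl | h6
          · rw [hc]
            field_simp
            ring
          · rw [ih i (by omega) h5, uu_coord_zero m i h6 h5]
            ring)
        rw [HH_add_right, HH_smul_right, HH_uu_self' h h2] at h3
        have h4 : HH (2 * s) (uu s t m) X = 0 := ho m h2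
        rw [h4, zero_add] at h3
        have h5 : c = 0 := by
          rcases mul_eq_zero.mp h3 with h6 | h6
          · exact neg_eq_zero.mp h6
          · exact absurd h6 (NN_ne h h2)
        rw [hc, div_eq_zero_iff] at h5
        rcases h5 with h6 | h6
        · exact h6
        · exact absurd h6 hne
  intro i hi
  exact key (2 * s + 1) i (by omega) hi

/-- expansion in the orthogonal basis -/
lemma expand {X : Arr} (hX : HW s t X) : ∀ i j k, i + j + k = 2 * s →
    X i j k = lc s t (fun m => xi s t m X / NN t m) (2 * s + 1) i j k := by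
  have hY : HW s t (fun i j k => X i j k +
      (-1) * lc s t (fun m => xi s t m X / NN t m) (2 * s + 1) i j k) :=
    HW_lin hX (HW_lc h _ _) _
  have h1 := eq_zero_of_orth h hY (fun k hk => by
    show HH (2 * s) (uu s t k) _ = 0
    rw [HH_add_right, HH_smul_right, HH_lc_right, Finset.sum_eq_single k]
    · rw [HH_uu_self' h hk, div_mul_cancel₀ _ (NN_ne h hk)]
      show HH (2 * s) (uu s t k) X + -1 * HH (2 * s) (uu s t k) X = 0
      ring
    · intro m hm hne
      rw [mem_range] at hm
      rw [HH_uu_orth h (Ne.symm hne) hk (by omega), mul_zero]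
    · intro hc
      exact absurd (mem_range.mpr (by omega)) hc)
  intro i j k hijk
  have := h1 k i j hijk
  linear_combination this

/-- Parseval identity -/
lemma parseval {X Y : Arr} (hY : HW s t Y) :
    HH (2 * s) X Y = ∑ m ∈ range (2 * s + 1), star (xi s t m X) * xi s t m Y / NN t m := by
  rw [HH_congr (fun i j k _ => rfl) (expand h hY), HH_lc_right]
  apply Finset.sum_congr rfl
  intro m _
  rw [← HH_star]
  show _ / _ * star (xi s t m X) = _
  ring

lemma xi_L2_cas (k : ℕ) (X : Arr) :
    xi s t k (L2 (cas s t) X) = xi s t (k + 1) X + cc s t k * xi s t k X := by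
  unfold xi
  rw [HH_uu_step h, HH_add_right, HH_smul_right]
  ring

lemma NN_succ {k : ℕ} : NN t (k + 1) = ((1 - t ^ (k + 1)) * (1 - t⁻¹ ^ (k + 1))) ^ 2 * NN t k := by
  unfold NN
  rw [qf_succ, norm_sq_one_sub h, norm_mul]
  push_cast
  ring

/-- `C_{23}` on the basis -/
lemma cas_uu {k : ℕ} (hk : k + 1 ≤ 2 * s) : ∀ i j l, i + j + l = 2 * s →
    L2 (cas s t) (uu s t (k + 1)) i j l = cc s t (k + 1) * uu s t (k + 1) i j l +
      ((1 - t ^ (k + 1)) * (1 - t⁻¹ ^ (k + 1))) ^ 2 * uu s t k i j l := by
  have h0 : t ≠ 0 := h.ne_zero (by omega)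
  have h1 : HW s t (L2 (cas s t) (uu s t (k + 1))) := HW_L2 h0 (commC_cas h) (HW_uu h _)
  intro i j l hs
  rw [expand h h1 i j l hs]
  simp only [lc]
  rw [← Finset.sum_subset (s₁ := {k, k + 1})]
  · rw [Finset.sum_pair (by omega), xi_L2_cas h, xi_L2_cas h]
    have e1 : xi s t (k + 1) (uu s t (k + 1)) = NN t (k + 1) := HH_uu_self' h hk
    have e2 : xi s t k (uu s t (k + 1)) = 0 := HH_uu_orth h (by omega) (by omega) hk
    have e3 : xi s t (k + 1 + 1) (uu s t (k + 1)) = 0 := by
      by_cases hk2 : k + 1 + 1 ≤ 2 * s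
      · exact HH_uu_orth h (by omega) hk2 hk
      · have : k + 1 + 1 = 2 * s + 1 := by omega
        rw [this]
        exact HH_uu_top h (HW_uu h _)
    rw [e1, e2, e3, mul_zero, add_zero, zero_add, NN_succ h]
    have n1 := NN_ne h (show k ≤ 2 * s by omega)
    have n2 := NN_ne h hk
    rw [NN_succ h] at n2
    generalize ((1 - t ^ (k + 1)) * (1 - t⁻¹ ^ (k + 1))) ^ 2 = φ at *
    have n3 : φ ≠ 0 := left_ne_zero_of_mul n2
    rw [mul_div_assoc, div_self n1, mul_one, mul_div_assoc, div_self n2, mul_one]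
    ring
  · intro x hx
    rw [Finset.mem_insert, Finset.mem_singleton] at hx
    rw [mem_range]
    omega
  · intro x hx hx2
    rw [mem_range] at hx
    rw [Finset.mem_insert, Finset.mem_singleton] at hx2
    push Not at hx2
    rw [xi_L2_cas h]
    have e1 : xi s t x (uu s t (k + 1)) = 0 := HH_uu_orth h (by omega) (by omega) hk
    have e2 : xi s t (x + 1) (uu s t (k + 1)) = 0 := by
      by_cases hk2 : x + 1 ≤ 2 * s
      · exact HH_uu_orth h (by omega) hk2 hk
      · have : x + 1 = 2 * s + 1 := by omega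
        rw [this]
        exact HH_uu_top h (HW_uu h _)
    rw [e1, e2]
    simp

lemma cas_uu_zero : ∀ i j l, i + j + l = 2 * s →
    L2 (cas s t) (uu s t 0) i j l = cc s t 0 * uu s t 0 i j l := by
  have h0 : t ≠ 0 := h.ne_zero (by omega)
  have h1 : HW s t (L2 (cas s t) (uu s t 0)) := HW_L2 h0 (commC_cas h) (HW_uu h _)
  intro i j l hs
  rw [expand h h1 i j l hs]
  simp only [lc]
  rw [Finset.sum_eq_single 0]
  · rw [xi_L2_cas h]
    have e1 : xi s t 0 (uu s t 0) = NN t 0 := HH_uu_self' h (by omega)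
    have e3 : xi s t (0 + 1) (uu s t 0) = 0 := by
      by_cases hk2 : 0 + 1 ≤ 2 * s
      · exact HH_uu_orth h (by omega) hk2 (by omega)
      · have : 0 + 1 = 2 * s + 1 := by omega
        rw [this]
        exact HH_uu_top h (HW_uu h _)
    rw [e1, e3, zero_add, mul_div_assoc, div_self (NN_ne h (by omega)), mul_one]
  · intro x hx hx2
    rw [mem_range] at hx
    rw [xi_L2_cas h]
    have e1 : xi s t x (uu s t 0) = 0 := HH_uu_orth h (by omega) (by omega) (by omega)
    have e2 : xi s t (x + 1) (uu s t 0) = 0 := by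
      by_cases hk2 : x + 1 ≤ 2 * s
      · exact HH_uu_orth h (by omega) hk2 (by omega)
      · have : x + 1 = 2 * s + 1 := by omega
        rw [this]
        exact HH_uu_top h (HW_uu h _)
    rw [e1, e2]
    simp
  · intro hc
    exact absurd (mem_range.mpr (by omega)) hc

/-- `C_{12}` in coordinates -/
lemma xi_L1_cas {k : ℕ} (hk : k ≤ 2 * s) (X : Arr) :
    xi s t k (L1 (cas s t) X) = cc s t k * xi s t k X +
      ((1 - t ^ k) * (1 - t⁻¹ ^ k)) ^ 2 * xi s t (k - 1) X := by
  unfold xi
  rw [← HH_L2 (isDag_cas h (2 * s))]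
  rcases Nat.eq_zero_or_pos k with rfl | hk0
  · rw [HH_congr (cas_uu_zero h) (fun i j l _ => rfl), HH_smul_left, star_cc h]
    simp
  · obtain ⟨k, rfl⟩ : ∃ k', k = k' + 1 := ⟨k - 1, by omega⟩
    rw [HH_congr (cas_uu h hk) (fun i j l _ => rfl), HH_add_left, HH_smul_left, HH_smul_left,
      star_cc h, Nat.add_sub_cancel]
    congr 2
    rw [norm_sq_one_sub h]
    rw [star_pow]
    congr 1
    exact Complex.conj_ofReal _

end

end Pool.Agent.Work.MP_b30479_gt.TB
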