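import Pool.Agent.Work.MP_b30479_gt.TB.Words
import Pool.Agent.Work.MP_b30479_gt.TwoBridgeAlt

/-!
# Upper bound for alternating words, lower bound for powers
-/

namespace Pool.Agent.Work.MP_b30479_gt.TB

open Finset

lemma M_congr {e : Ent} {Z Z' : ℕ → ℕ → ℂ} {a b : ℕ}
    (hz : ∀ i j, i + j = a + b → Z i j = Z' i j) : M e Z a b = M e Z' a b := by
  unfold M
  apply Finset.sum_congr rfl
  intro p hp
  rw [mem_AD] at hp
  rw [hz _ _ hp]

lemma M_smul {e : Ent} {Z : ℕ → ℕ → ℂ} (c : ℂ) {a b : ℕ} :
    M e (fun i j => c * Z i j) a b = c * M e Z a b := by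
  unfold M
  rw [Finset.mul_sum]
  apply Finset.sum_congr rfl
  intro p _
  ring

lemma op_congr_smul {s : ℕ} {u : ℂˣ} (g : Fin 2 × Bool) {S : ℕ} {X Y : Arr} (c : ℂ)
    (hXY : ∀ i j k, i + j + k = S → X i j k = c * Y i j k) :
    ∀ i j k, i + j + k = S → op s u g X i j k = c * op s u g Y i j k := by
  intro i j k hs
  unfold op
  split_ifs
  · show M _ (fun a b => X a b k) i j = c * M _ (fun a b => Y a b k) i j
    rw [← M_smul]
    exact M_congr (fun a b hab => hXY a b k (by omega))
  · show M _ (fun a b => X i a b) j k = c * M _ (fun a b => Y i a b) j k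
    rw [← M_smul]
    exact M_congr (fun a b hab => hXY i a b (by omega))

lemma qn_congr_smul {s : ℕ} {X Y : Arr} {c : ℂ} (hc : ‖c‖ = 1)
    (hXY : ∀ i j k, i + j + k = 2 * s → X i j k = c * Y i j k) : qn s X = qn s Y := by
  unfold qn
  rw [HH_congr hXY hXY, HH_smul_right, HH_smul_left, ← mul_assoc]
  have : c * star c = 1 := by
    have := Complex.mul_conj c
    rw [Complex.normSq_eq_norm_sq, hc] at this
    simpa using this
  rw [this, one_mul]

section
variable {s : ℕ} {u : ℂˣ} (h : IsPrimitiveRoot (u : ℂ) (2 * s + 1))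
include h

lemma L2_eta : ∀ k i j : ℕ, i + j + k = 2 * s →
    L2 (entry s u false) (eta s u) i j k = (u : ℂ) ^ (-((s : ℤ) * s)) * eta s u i j k := by
  have h0 : (u : ℂ) ≠ 0 := u.ne_zero
  have hY : HW s u (fun i j k => L2 (entry s u false) (eta s u) i j k +
      (-(u : ℂ) ^ (-((s : ℤ) * s))) * eta s u i j k) :=
    HW_lin (HW_L2 h0 (commC_false h) (HW_eta h)) (HW_eta h) _
  have key := HW_inj h hY (fun i hi => by
    show M (entry s u false) (fun a b => eta s u i a b) (2 * s - i) 0 +
      (-(u : ℂ) ^ (-((s : ℤ) * s))) * eta s u i (2 * s - i) 0 = 0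
    unfold M
    rcases Nat.eq_zero_or_pos i with rfl | hi0
    · rw [Finset.sum_eq_single (0, 2 * s)]
      · have e1 := entry_false s u 0 (2 * s) 0 (2 * s) rfl
        rw [Nat.sub_zero]
        simp only
        rw [Nat.add_zero] at e1
        rw [e1, coeffNeg_zero]
        unfold eta
        rw [if_pos rfl, if_pos rfl, mul_zero, pow_zero, mul_one, neg_mul, ← zpow_natCast (u : ℂ),
          ← zpow_add₀ h0, add_neg_eq_zero]
        congr 1
        push_cast
        ring
      · rintro ⟨a, b⟩ hp hne
        rw [mem_AD] at hp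
        simp only at hp ⊢
        rw [entry_false_zero, zero_mul]
        rcases Nat.eq_zero_or_pos a with rfl | ha
        · exfalso
          apply hne
          simp only [Prod.mk.injEq, true_and]
          omega
        · exact ha
      · intro hc
        exact absurd (mem_AD.mpr (by simp)) hc
    · have e1 : ∀ a b, eta s u i a b = 0 := fun a b => by
        unfold eta
        rw [if_neg (by omega)]
      simp only [e1, mul_zero, Finset.sum_const_zero, add_zero])
  intro k i j hs
  have := key k i j hs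
  linear_combination this

omit h in
lemma LL_nonneg : 0 ≤ LL s u :=
  Finset.sum_nonneg fun _ _ => Finset.sum_nonneg fun _ _ => by positivity

lemma qn_op {g : Fin 2 × Bool} (hg : g = (0, true) ∨ g = (1, false)) {X : Arr} (hX : HW s u X) :
    qn s (op s u g X) ≤ LL s u * qn s X := by
  rcases hg with rfl | rfl
  · exact qn_L1 h hX
  · exact qn_L2 h hX

lemma qn_opL {w : List (Fin 2 × Bool)} (hw : IsAlternating w) {X : Arr} (hX : HW s u X) :
    qn s (opL s u w X) ≤ LL s u ^ w.length * qn s X := by
  induction w with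
  | nil => simp [opL_nil]
  | cons g w ih =>
    have h1 := ih (fun g hg => hw g (List.mem_cons_of_mem _ hg))
    have h2 := qn_op h (hw g List.mem_cons_self) (HW_opL h w hX)
    rw [opL_cons, List.length_cons, pow_succ]
    calc _ ≤ LL s u * qn s (opL s u w X) := h2
      _ ≤ LL s u * (LL s u ^ w.length * qn s X) := mul_le_mul_of_nonneg_left h1 (LL_nonneg)
      _ = _ := by ring

lemma qn_eta : qn s (eta s u) = 1 := by
  unfold qn
  rw [HH_eta h]
  simp

lemma one_le_FF : 1 ≤ FF s u ∧ (2 * s + 1 : ℝ) ≤ FF s u := by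
  have h1 := FF_ge h
  have h2 : (1 : ℝ) ≤ 2 * s + 1 := by
    have : (0 : ℝ) ≤ s := Nat.cast_nonneg s
    linarith
  constructor <;> nlinarith

lemma qn_two {g g' : Fin 2 × Bool} (hg : g = (0, true) ∨ g = (1, false))
    (hg' : g' = (0, true) ∨ g' = (1, false)) :
    qn s (op s u g (op s u g' (eta s u))) ≤ FF s u := by
  have h0 : (u : ℂ) ≠ 0 := u.ne_zero
  have h1 : ‖(u : ℂ)‖ = 1 := h.norm'_eq_one (by omega)
  have hF := one_le_FF h
  rcases hg' with rfl | rfl
  · rcases hg with rfl | rfl
    · exact (qn_s1s1_eta h).le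
    · exact (qn_s2s1_eta h).le
  · have hc : ‖(u : ℂ) ^ (-((s : ℤ) * s))‖ = 1 := by
      rw [norm_zpow, h1, one_zpow]
    have e1 : qn s (op s u g (op s u (1, false) (eta s u))) = qn s (op s u g (eta s u)) := by
      apply qn_congr_smul hc
      apply op_congr_smul
      intro i j k hs
      exact L2_eta h k i j hs
    rw [e1]
    rcases hg with rfl | rfl
    · have : qn s (op s u (0, true) (eta s u)) = 2 * s + 1 := qn_s1_eta h
      rw [this]
      exact hF.2
    · have : qn s (op s u (1, false) (eta s u)) = qn s (eta s u) :=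
        qn_congr_smul hc (fun i j k hs => L2_eta h k i j hs)
      rw [this, qn_eta h]
      exact hF.1

/-- `‖w η‖² ≤ F Λ^{|w|-2}` -/
lemma qn_word {w : List (Fin 2 × Bool)} (hw : IsAlternating w) (hl : 2 ≤ w.length) :
    qn s (opL s u w (eta s u)) ≤ LL s u ^ (w.length - 2) * FF s u := by
  obtain ⟨w', g, g', rfl⟩ : ∃ (w' : List (Fin 2 × Bool)) (g g' : Fin 2 × Bool),
      w = w' ++ [g, g'] := by
    rcases List.eq_nil_or_concat w with rfl | ⟨w1, g', rfl⟩
    · simp at hl
    · rcases List.eq_nil_or_concat w1 with rfl | ⟨w2, g, rfl⟩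
      · simp at hl
      · exact ⟨w2, g, g', by simp⟩
  have hg : g = (0, true) ∨ g = (1, false) := hw g (by simp)
  have hg' : g' = (0, true) ∨ g' = (1, false) := hw g' (by simp)
  rw [opL_append]
  have e1 : opL s u [g, g'] (eta s u) = op s u g (op s u g' (eta s u)) := rfl
  rw [e1, List.length_append]
  have hX : HW s u (op s u g (op s u g' (eta s u))) := HW_op h g (HW_op h g' (HW_eta h))
  have h2 := qn_opL h (w := w') (fun g hg => hw g (List.mem_append_left _ hg)) hX
  refine h2.trans ?_
  have : w'.length + [g, g'].length - 2 = w'.length := by simp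
  rw [this]
  exact mul_le_mul_of_nonneg_left (qn_two h hg hg') (pow_nonneg (LL_nonneg) _)

/-- the upper bound -/
theorem upper {w : List (Fin 2 × Bool)} (hw : IsAlternating w) (hl : 4 ≤ w.length) :
    ‖tangleValue s w u‖ ^ 2 ≤ FF s u ^ 2 * LL s u ^ (w.length - 4) := by
  obtain ⟨g1, g2, w', rfl⟩ : ∃ (g1 g2 : Fin 2 × Bool) (w' : List (Fin 2 × Bool)),
      w = g1 :: g2 :: w' := by
    match w, hl with
    | g1 :: g2 :: w', _ => exact ⟨g1, g2, w', rfl⟩
  have hl' : 2 ≤ w'.length := by simpa using hl
  set v : List (Fin 2 × Bool) := mirrorRev [g1, g2] with hv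
  have e1 : mirrorRev v = [g1, g2] := by
    rw [hv]
    unfold mirrorRev
    simp
  have hva : IsAlternating v := by
    intro g hg
    rw [hv] at hg
    unfold mirrorRev at hg
    simp only [List.map_cons, List.map_nil, List.reverse_cons, List.reverse_nil, List.nil_append,
      List.cons_append, List.mem_cons, List.not_mem_nil, or_false] at hg
    rcases hg with rfl | rfl
    · rcases hw g2 (by simp) with h1 | h1 <;> rw [h1] <;> simp
    · rcases hw g1 (by simp) with h1 | h1 <;> rw [h1] <;> simp
  have hvl : v.length = 2 := by rw [hv]; unfold mirrorRev; simp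
  have e2 : g1 :: g2 :: w' = mirrorRev v ++ w' := by rw [e1]; rfl
  rw [e2, tangleValue_mirror h]
  have h1 := cs_qn h (HW_opL h v (HW_eta h)) (HW_opL h w' (HW_eta h)) rfl
  have h2 := qn_word h hva (by omega)
  have h3 := qn_word h (w := w') (fun g hg => hw g (by simp [hg])) hl'
  rw [hvl, Nat.sub_self, pow_zero, one_mul] at h2
  have hq := (qn_eq h (HW_opL h w' (HW_eta h))).2
  have hF : 0 ≤ FF s u := zero_le_one.trans (one_le_FF h).1
  refine h1.trans ?_
  have e3 : (mirrorRev v ++ w').length - 4 = w'.length - 2 := by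
    rw [e1]
    simp
  rw [e3]
  calc _ ≤ FF s u * (LL s u ^ (w'.length - 2) * FF s u) := mul_le_mul h2 h3 hq hF
    _ = _ := by ring

/-! ### powers -/

omit h in
lemma powWord_succ (k : ℕ) : powWord (k + 1) = ((1 : Fin 2), false) :: ((0 : Fin 2), true) ::
    powWord k := by
  unfold powWord
  rw [List.replicate_succ, List.flatten_cons]
  rfl

omit h in
lemma powWord_add (i j : ℕ) : powWord (i + j) = powWord i ++ powWord j := by
  unfold powWord
  rw [List.replicate_add, List.flatten_append]

omit h in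
lemma mirrorRev_append (v w : List (Fin 2 × Bool)) :
    mirrorRev (v ++ w) = mirrorRev w ++ mirrorRev v := by
  unfold mirrorRev
  simp

omit h in
lemma mirrorRev_powWord (k : ℕ) : mirrorRev (powWord k) = powWord k := by
  induction k with
  | zero => rfl
  | succ k ih =>
    have e1 : mirrorRev (powWord 1) = powWord 1 := by
      unfold powWord mirrorRev; simp
    rw [powWord_add, mirrorRev_append, ih, e1, ← powWord_add, ← powWord_add, Nat.add_comm]

/-- log-convexity -/
lemma log_convex (k : ℕ) : ‖tangleValue s (powWord (k + 1)) u‖ ^ 2 ≤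
    ‖tangleValue s (powWord k) u‖ * ‖tangleValue s (powWord (k + 2)) u‖ := by
  rcases Nat.even_or_odd' k with ⟨i, rfl | rfl⟩
  · have h1 := tangleValue_cs h (powWord i) (powWord (i + 1))
    rw [mirrorRev_powWord, mirrorRev_powWord, ← powWord_add, ← powWord_add, ← powWord_add] at h1
    rw [show i + (i + 1) = 2 * i + 1 by ring, show i + i = 2 * i by ring,
      show i + 1 + (i + 1) = 2 * i + 2 by ring] at h1
    exact h1
  · have h1 := tangleValue_cs h (((0 : Fin 2), true) :: powWord i)
      (((0 : Fin 2), true) :: powWord (i + 1))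
    have e1 : ∀ i : ℕ, mirrorRev (((0 : Fin 2), true) :: powWord i) =
        powWord i ++ [((1 : Fin 2), false)] := by
      intro i
      have : ((0 : Fin 2), true) :: powWord i = [((0 : Fin 2), true)] ++ powWord i := rfl
      rw [this, mirrorRev_append, mirrorRev_powWord]
      rfl
    have e2 : ∀ i j : ℕ, powWord i ++ [((1 : Fin 2), false)] ++ ((0 : Fin 2), true) :: powWord j =
        powWord (i + j + 1) := by
      intro i j
      rw [Nat.add_assoc, powWord_add, powWord_succ]
      simp
    rw [e1, e1, e2, e2, e2] at h1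
    rw [show i + (i + 1) + 1 = 2 * i + 1 + 1 by ring, show i + i + 1 = 2 * i + 1 by ring,
      show i + 1 + (i + 1) + 1 = 2 * i + 1 + 2 by ring] at h1
    exact h1

lemma pow_pos' (k : ℕ) : 0 < ‖tangleValue s (powWord k) u‖ := by
  rcases Nat.even_or_odd' k with ⟨i, rfl | rfl⟩
  · obtain ⟨r, hr, hr'⟩ := tangleValue_pos h (powWord i)
    rw [mirrorRev_powWord, ← powWord_add, ← two_mul] at hr'
    rw [hr', Complex.norm_real]
    exact norm_pos_iff.mpr hr.ne'
  · obtain ⟨r, hr, hr'⟩ := tangleValue_pos h (((0 : Fin 2), true) :: powWord i)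
    have : ((0 : Fin 2), true) :: powWord i = [((0 : Fin 2), true)] ++ powWord i := rfl
    have e1 : mirrorRev (((0 : Fin 2), true) :: powWord i) ++ ((0 : Fin 2), true) :: powWord i =
        powWord (2 * i + 1) := by
      rw [this, mirrorRev_append, mirrorRev_powWord, two_mul, Nat.add_assoc, powWord_add,
        powWord_succ]
      unfold mirrorRev
      simp
    rw [e1] at hr'
    rw [hr', Complex.norm_real]
    exact norm_pos_iff.mpr hr.ne'

lemma pow_one' : ‖tangleValue s (powWord 1) u‖ = 2 * s + 1 := by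
  have e1 : powWord 1 = mirrorRev [((0 : Fin 2), true)] ++ [((0 : Fin 2), true)] := by
    unfold powWord mirrorRev; simp
  rw [e1, tangleValue_mirror h]
  have hX : HW s u (opL s u [((0 : Fin 2), true)] (eta s u)) := HW_opL h _ (HW_eta h)
  rw [(qn_eq h hX).1, Complex.norm_real, Real.norm_of_nonneg (qn_eq h hX).2]
  exact qn_s1_eta h

lemma pow_two' : ‖tangleValue s (powWord 2) u‖ = FF s u := by
  have e1 : powWord 2 = mirrorRev (powWord 1) ++ powWord 1 := by
    rw [mirrorRev_powWord, ← powWord_add]
  rw [e1, tangleValue_mirror h]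
  have hX : HW s u (opL s u (powWord 1) (eta s u)) := HW_opL h _ (HW_eta h)
  rw [(qn_eq h hX).1, Complex.norm_real, Real.norm_of_nonneg (qn_eq h hX).2]
  exact qn_s2s1_eta h

/-- the lower bound -/
theorem lower (k : ℕ) : FF s u ^ (k + 1) ≤
    ‖tangleValue s (powWord (k + 2)) u‖ * (2 * s + 1) ^ k := by
  have hn : (0 : ℝ) < 2 * s + 1 := by positivity
  have hF : 0 < FF s u := lt_of_lt_of_le one_pos (one_le_FF h).1
  -- ratios
  have ratio : ∀ k, ‖tangleValue s (powWord (k + 1)) u‖ * FF s u ≤
      ‖tangleValue s (powWord (k + 2)) u‖ * (2 * s + 1) := by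
    intro k
    induction k with
    | zero =>
      rw [Nat.zero_add, Nat.zero_add, pow_one' h, pow_two' h, mul_comm]
    | succ k ih =>
      have h1 := log_convex h (k + 1)
      have p1 := pow_pos' h (k + 1)
      have p2 := pow_pos' h (k + 2)
      rw [show k + 1 + 1 = k + 2 by ring, show k + 1 + 2 = k + 3 by ring] at h1 ⊢
      apply le_of_mul_le_mul_left _ p1
      calc ‖tangleValue s (powWord (k + 1)) u‖ * (‖tangleValue s (powWord (k + 2)) u‖ * FF s u)
          = ‖tangleValue s (powWord (k + 2)) u‖ *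
            (‖tangleValue s (powWord (k + 1)) u‖ * FF s u) := by ring
        _ ≤ ‖tangleValue s (powWord (k + 2)) u‖ *
            (‖tangleValue s (powWord (k + 2)) u‖ * (2 * s + 1)) :=
            mul_le_mul_of_nonneg_left ih p2.le
        _ = ‖tangleValue s (powWord (k + 2)) u‖ ^ 2 * (2 * s + 1) := by ring
        _ ≤ (‖tangleValue s (powWord (k + 1)) u‖ * ‖tangleValue s (powWord (k + 3)) u‖) *
            (2 * s + 1) := mul_le_mul_of_nonneg_right h1 hn.le
        _ = _ := by ring
  induction k with
  | zero =>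
    rw [Nat.zero_add, Nat.zero_add, pow_one, pow_zero, mul_one, pow_two' h]
  | succ k ih =>
    have h1 := ratio (k + 1)
    rw [show k + 1 + 1 = k + 2 by ring, show k + 1 + 2 = k + 3 by ring] at *
    calc FF s u ^ (k + 2) = FF s u ^ (k + 1) * FF s u := by ring
      _ ≤ (‖tangleValue s (powWord (k + 2)) u‖ * (2 * s + 1) ^ k) * FF s u :=
        mul_le_mul_of_nonneg_right ih hF.le
      _ = (‖tangleValue s (powWord (k + 2)) u‖ * FF s u) * (2 * s + 1) ^ k := by ring
      _ ≤ (‖tangleValue s (powWord (k + 3)) u‖ * (2 * s + 1)) * (2 * s + 1) ^ k :=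
        mul_le_mul_of_nonneg_right h1 (by positivity)
      _ = _ := by ring

end

end Pool.Agent.Work.MP_b30479_gt.TB
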