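import Pool.Agent.Work.MP_b30479_gt.TB.Comm

/-!
# The Casimir operator of `V ⊗ V`
-/

namespace Pool.Agent.Work.MP_b30479_gt.TB

open Finset

/-- diagonal entries of the Casimir operator -/
noncomputable def dg (s : ℕ) (t : ℂ) (i j : ℕ) : ℂ :=
  2 * t ^ s * t⁻¹ ^ j + 2 * t ^ (s + 1) * t ^ i - t ^ s * t ^ i * t⁻¹ ^ j -
    t ^ (s + 1) * t ^ i * t⁻¹ ^ j

/-- the Casimir operator of `V ⊗ V` -/
noncomputable def cas (s : ℕ) (t : ℂ) : Ent := fun i j a b =>
  if a = i ∧ b = j then dg s t i j
  else if a = i + 1 ∧ b + 1 = j then (1 - t ^ (i + 1)) * (1 - t⁻¹ ^ j)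
  else if a + 1 = i ∧ b = j + 1 then (1 - t⁻¹ ^ i) * (1 - t ^ (j + 1)) * (t ^ i * t⁻¹ ^ (j + 1))
  else 0

lemma cas_diag (s : ℕ) (t : ℂ) (i j : ℕ) : cas s t i j i j = dg s t i j := by
  unfold cas; simp

lemma cas_up (s : ℕ) (t : ℂ) (i j : ℕ) :
    cas s t i (j + 1) (i + 1) j = (1 - t ^ (i + 1)) * (1 - t⁻¹ ^ (j + 1)) := by
  unfold cas
  rw [if_neg (by omega), if_pos (by omega)]

lemma cas_dn (s : ℕ) (t : ℂ) (i j : ℕ) :
    cas s t (i + 1) j i (j + 1) =
      (1 - t⁻¹ ^ (i + 1)) * (1 - t ^ (j + 1)) * (t ^ (i + 1) * t⁻¹ ^ (j + 1)) := by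
  unfold cas
  rw [if_neg (by omega), if_neg (by omega), if_pos (by omega)]

lemma cas_zero (s : ℕ) (t : ℂ) (i j a b : ℕ) (h0 : a ≠ i) (h1 : a ≠ i + 1) (h2 : a + 1 ≠ i) :
    cas s t i j a b = 0 := by
  unfold cas
  rw [if_neg (by tauto), if_neg (by tauto), if_neg (by tauto)]

lemma zp {s : ℕ} {t : ℂ} (ht : t ≠ 0) (j : ℕ) : t ^ ((s : ℤ) - j) = t ^ s * t⁻¹ ^ j := by
  rw [zpow_sub₀ ht, zpow_natCast, zpow_natCast, inv_pow]
  rfl

lemma sq_mul {s : ℕ} {t : ℂ} (h : IsPrimitiveRoot t (2 * s + 1)) : (t ^ s) ^ 2 * t = 1 := by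
  rw [← h.pow_eq_one]; ring

lemma eq_inv_sq {V t : ℂ} (h : V ^ 2 * t = 1) : t = (V ^ 2)⁻¹ ∧ V ≠ 0 := by
  have hV : V ≠ 0 := by rintro rfl; simp at h
  refine ⟨?_, hV⟩
  field_simp
  linear_combination h

lemma commC_cas {s : ℕ} {t : ℂ} (h : IsPrimitiveRoot t (2 * s + 1)) : CommC s t (cas s t) := by
  intro i j a b hij hS
  have h0 : t ≠ 0 := h.ne_zero (by omega)
  have hV := sq_mul h
  rw [zp h0, zp h0]
  rcases lt_trichotomy (a + 1) i with hlt | heq | hgt
  · rcases Nat.lt_or_ge (a + 2) i with h3 | h3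
    · rw [cas_zero _ _ _ _ _ _ (by omega) (by omega) (by omega),
        cas_zero _ _ _ _ _ _ (by omega) (by omega) (by omega),
        cas_zero _ _ _ _ _ _ (by omega) (by omega) (by omega),
        cas_zero _ _ _ _ _ _ (by omega) (by omega) (by omega)]
      ring
    · have hi : i = a + 2 := by omega
      subst hi
      have hb : b = j + 1 := by omega
      subst hb
      have e1 := cas_dn s t (a + 1) j
      have e2 := cas_dn s t a j
      rw [show a + 1 + 1 = a + 2 by ring] at e1
      rw [e1, show a + 2 - 1 = a + 1 by omega, e2,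
        cas_zero s t (a + 2) j a (j + 1 + 1) (by omega) (by omega) (by omega),
        cas_zero s t (a + 2) (j - 1) a (j + 1) (by omega) (by omega) (by omega)]
      have e3 : t ^ (a + 2) = t ^ a * t * t := by ring
      have e4 : t⁻¹ ^ (a + 2) = t⁻¹ ^ a * t⁻¹ * t⁻¹ := by ring
      rw [e3, e4, pow_succ t a, pow_succ t j, pow_succ t⁻¹ a, pow_succ t⁻¹ j, inv_pow, inv_pow]
      have nx : t ^ a ≠ 0 := pow_ne_zero _ h0
      have ny : t ^ j ≠ 0 := pow_ne_zero _ h0
      generalize t ^ s = V at *
      generalize t ^ a = x at *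
      generalize t ^ j = y at *
      field_simp
      ring
  · subst heq
    have hb : b = j := by omega
    subst hb
    rw [cas_diag, Nat.add_sub_cancel, cas_diag, cas_dn]
    rcases Nat.eq_zero_or_pos b with hj | hj
    · subst hj
      simp only [pow_zero, sub_self, zero_mul, add_zero, zero_add]
      unfold dg
      rw [pow_succ t s, pow_succ t a, pow_succ t⁻¹ a, inv_pow, pow_one, pow_one]
      simp only [pow_zero, mul_one]
      have nx : t ^ a ≠ 0 := pow_ne_zero _ h0
      generalize t ^ s = V at *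
      generalize t ^ a = x at *
      obtain ⟨ht, hV0⟩ := eq_inv_sq hV
      rw [ht]
      field_simp
      ring
    · obtain ⟨j, rfl⟩ : ∃ j, b = j + 1 := ⟨b - 1, by omega⟩
      rw [Nat.add_sub_cancel, cas_dn]
      unfold dg
      simp only [pow_succ, inv_pow]
      have nx : t ^ a ≠ 0 := pow_ne_zero _ h0
      have ny : t ^ j ≠ 0 := pow_ne_zero _ h0
      generalize t ^ s = V at *
      generalize t ^ a = x at *
      generalize t ^ j = y at *
      obtain ⟨ht, hV0⟩ := eq_inv_sq hV
      rw [ht]
      field_simp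
      ring
  · rcases Nat.lt_or_ge a (i + 1) with h3 | h3
    · have hi : a = i := by omega
      subst hi
      obtain ⟨j, rfl⟩ : ∃ j', j = j' + 1 := ⟨j - 1, by omega⟩
      have hb : b = j := by omega
      subst hb
      rw [cas_diag, Nat.add_sub_cancel, cas_diag, cas_up]
      rcases Nat.eq_zero_or_pos a with hi | hi
      · subst hi
        simp only [pow_zero, sub_self, zero_mul, add_zero, zero_add]
        unfold dg
        rw [pow_succ t s, pow_succ t⁻¹ b, inv_pow]
        simp only [pow_zero, mul_one]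
        have ny : t ^ b ≠ 0 := pow_ne_zero _ h0
        generalize t ^ s = V at *
        generalize t ^ b = y at *
        obtain ⟨ht, hV0⟩ := eq_inv_sq hV
        rw [ht]
        field_simp
        ring
      · obtain ⟨i, rfl⟩ : ∃ i, a = i + 1 := ⟨a - 1, by omega⟩
        rw [Nat.add_sub_cancel, cas_up]
        unfold dg
        simp only [pow_succ, inv_pow]
        have nx : t ^ i ≠ 0 := pow_ne_zero _ h0
        have ny : t ^ b ≠ 0 := pow_ne_zero _ h0
        generalize t ^ s = V at *
        generalize t ^ i = x at *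
        generalize t ^ b = y at *
        obtain ⟨ht, hV0⟩ := eq_inv_sq hV
        rw [ht]
        field_simp
        ring
    · rcases Nat.lt_or_ge (i + 1) a with h4 | h4
      · rw [cas_zero _ _ _ _ _ _ (by omega) (by omega) (by omega),
          cas_zero _ _ _ _ _ _ (by omega) (by omega) (by omega),
          cas_zero _ _ _ _ _ _ (by omega) (by omega) (by omega),
          cas_zero _ _ _ _ _ _ (by omega) (by omega) (by omega)]
        ring
      · have ha : a = i + 1 := by omega
        subst ha
        obtain ⟨j, rfl⟩ : ∃ j', j = j' + 2 := ⟨j - 2, by omega⟩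
        have hb : b = j := by omega
        subst hb
        have e1 := cas_up s t i (b + 1)
        have e2 := cas_up s t i b
        rw [show b + 1 + 1 = b + 2 by ring] at e1
        have e3 : (1 - t⁻¹ ^ i) * cas s t (i - 1) (b + 2) (i + 1) b = 0 := by
          rcases Nat.eq_zero_or_pos i with hi | hi
          · subst hi; simp
          · rw [cas_zero s t (i - 1) (b + 2) (i + 1) b (by omega) (by omega) (by omega), mul_zero]
        rw [e1, show b + 2 - 1 = b + 1 by omega, e2,
          cas_zero s t i (b + 2) (i + 1 + 1) b (by omega) (by omega) (by omega)]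
        linear_combination -(t ^ s * t⁻¹ ^ (b + 2)) * e3

lemma isDag_cas {s : ℕ} {t : ℂ} (h : IsPrimitiveRoot t (2 * s + 1)) (S : ℕ) :
    IsDag S (cas s t) (cas s t) := by
  intro i j a b hij hab
  have h0 : t ≠ 0 := h.ne_zero (by omega)
  have hV := sq_mul h
  have hs : star t = t⁻¹ := star_root h
  rcases lt_trichotomy a i with hlt | heq | hgt
  · rcases Nat.lt_or_ge (a + 1) i with h3 | h3
    · rw [cas_zero _ _ _ _ _ _ (by omega) (by omega) (by omega),
        cas_zero _ _ _ _ _ _ (by omega) (by omega) (by omega), star_zero]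
    · have hi : i = a + 1 := by omega
      subst hi
      have hb : b = j + 1 := by omega
      subst hb
      rw [cas_dn, cas_dn]
      rw [star_mul', star_mul', star_mul', star_sub, star_sub, star_one, star_pow, star_pow,
        star_pow, star_pow, star_inv₀, hs, inv_inv]
      simp only [pow_succ, inv_pow]
      have nx : t ^ a ≠ 0 := pow_ne_zero _ h0
      have ny : t ^ j ≠ 0 := pow_ne_zero _ h0
      generalize t ^ a = x at *
      generalize t ^ j = y at *
      field_simp
  · subst heq
    have hb : b = j := by omega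
    subst hb
    rw [cas_diag, cas_diag]
    unfold dg
    simp only [star_sub, star_add, star_mul', star_pow, star_inv₀, hs, inv_inv, star_ofNat]
    simp only [pow_succ, inv_pow]
    have nx : t ^ a ≠ 0 := pow_ne_zero _ h0
    have ny : t ^ b ≠ 0 := pow_ne_zero _ h0
    generalize t ^ s = V at *
    generalize t ^ a = x at *
    generalize t ^ b = y at *
    obtain ⟨ht, hV0⟩ := eq_inv_sq hV
    rw [ht]
    field_simp
    ring
  · rcases Nat.lt_or_ge (i + 1) a with h3 | h3
    · rw [cas_zero _ _ _ _ _ _ (by omega) (by omega) (by omega),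
        cas_zero _ _ _ _ _ _ (by omega) (by omega) (by omega), star_zero]
    · have ha : a = i + 1 := by omega
      subst ha
      obtain ⟨j, rfl⟩ : ∃ j', j = j' + 1 := ⟨j - 1, by omega⟩
      have hb : b = j := by omega
      subst hb
      rw [cas_up, cas_up]
      rw [star_mul', star_sub, star_sub, star_one, star_pow, star_pow, star_inv₀, hs, inv_inv]
      ring

end Pool.Agent.Work.MP_b30479_gt.TB
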