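import Pool.Agent.Work.MP_b30479_gt.Gauss

/-!
# The braiding at a primitive root of unity of order `2s+1`
-/

namespace Pool.Agent.Work.MP_b30479_gt.TB

open Finset

/-- `(z; z)_k` -/
def qf (z : ℂ) (k : ℕ) : ℂ := ∏ x ∈ range k, (1 - z ^ (x + 1))

@[simp] lemma qf_zero (z : ℂ) : qf z 0 = 1 := by simp [qf]

lemma qf_succ (z : ℂ) (k : ℕ) : qf z (k + 1) = qf z k * (1 - z ^ (k + 1)) := by
  unfold qf; rw [prod_range_succ]

lemma one_sub_pow_ne {s : ℕ} {z : ℂ} (h : IsPrimitiveRoot z (2 * s + 1)) {k : ℕ} (h0 : 0 < k)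
    (hk : k ≤ 2 * s) : 1 - z ^ k ≠ 0 := by
  intro hc
  exact h.pow_ne_one_of_pos_of_lt (by omega) (by omega) (sub_eq_zero.mp hc).symm

lemma qf_ne_zero {s : ℕ} {z : ℂ} (h : IsPrimitiveRoot z (2 * s + 1)) {k : ℕ} (hk : k ≤ 2 * s) :
    qf z k ≠ 0 := by
  unfold qf
  rw [prod_ne_zero_iff]
  intro x hx
  rw [mem_range] at hx
  exact one_sub_pow_ne h (by omega) (by omega)

lemma qf_add (z : ℂ) (j k : ℕ) :
    qf z (j + k) = qf z j * ∏ x ∈ range k, (1 - z ^ (j + 1 + x)) := by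
  unfold qf
  rw [prod_range_add]
  congr 1
  apply prod_congr rfl
  intro x _
  congr 2
  ring

lemma star_root {s : ℕ} {z : ℂ} (h : IsPrimitiveRoot z (2 * s + 1)) : star z = z⁻¹ := by
  have h1 : ‖z‖ = 1 := h.norm'_eq_one (by omega)
  have h0 : z ≠ 0 := h.ne_zero (by omega)
  have h2 : star z * z = 1 := by
    have := Complex.normSq_eq_conj_mul_self (z := z)
    rw [Complex.normSq_eq_norm_sq, h1] at this
    simpa using this.symm
  field_simp
  exact h2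

lemma star_qf {s : ℕ} {z : ℂ} (h : IsPrimitiveRoot z (2 * s + 1)) (k : ℕ) :
    star (qf z k) = qf z⁻¹ k := by
  unfold qf
  rw [star_prod]
  apply prod_congr rfl
  intro x _
  rw [star_sub, star_one, star_pow, star_root h]

lemma qf_inv {s : ℕ} {z : ℂ} (h : IsPrimitiveRoot z (2 * s + 1)) (k : ℕ) :
    qf z⁻¹ k * z ^ ((k + 1).choose 2) = (-1) ^ k * qf z k := by
  have h0 : z ≠ 0 := h.ne_zero (by omega)
  induction k with
  | zero => simp
  | succ k ih =>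
    rw [qf_succ, qf_succ, Nat.choose_succ_succ' (k + 1) 1, Nat.choose_one_right]
    have e1 : (1 - z⁻¹ ^ (k + 1)) * z ^ (k + 1) = -(1 - z ^ (k + 1)) := by
      rw [inv_pow]
      field_simp
      ring
    calc qf z⁻¹ k * (1 - z⁻¹ ^ (k + 1)) * z ^ (k + 1 + (k + 1).choose 2)
        = (qf z⁻¹ k * z ^ ((k + 1).choose 2)) * ((1 - z⁻¹ ^ (k + 1)) * z ^ (k + 1)) := by
          rw [pow_add]; ring
      _ = _ := by rw [ih, e1, pow_succ]; ring

/-- `[2s-i+k choose k]` at a root of unity of order `2s+1` -/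
lemma gauss_closed {s : ℕ} {z : ℂ} (h : IsPrimitiveRoot z (2 * s + 1)) {i k : ℕ} (hk : k ≤ i)
    (hi : i ≤ 2 * s) : gauss z (2 * s - i + k) k = qf z⁻¹ i / (qf z⁻¹ (i - k) * qf z k) := by
  have h0 : z ≠ 0 := h.ne_zero (by omega)
  have hinv : IsPrimitiveRoot z⁻¹ (2 * s + 1) := h.inv
  have n1 : qf z⁻¹ (i - k) ≠ 0 := qf_ne_zero hinv (by omega)
  have n2 : qf z k ≠ 0 := qf_ne_zero h (by omega)
  rw [eq_div_iff (mul_ne_zero n1 n2)]
  have h1 := gauss_mul_prod z (n := 2 * s - i + k) (k := k) (by omega)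
  have e1 : ∏ x ∈ range k, (z ^ (x + 1) - 1) = (-1) ^ k * qf z k := by
    unfold qf
    rw [← Finset.card_range k, ← Finset.prod_const, Finset.card_range, ← prod_mul_distrib]
    apply prod_congr rfl
    intro x _
    ring
  have e2 : ∏ x ∈ range k, (z ^ (2 * s - i + k - x) - 1) =
      (-1) ^ k * ∏ x ∈ range k, (1 - z⁻¹ ^ (i - k + 1 + x)) := by
    rw [← Finset.card_range k, ← Finset.prod_const, Finset.card_range, ← prod_mul_distrib]
    apply prod_congr rfl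
    intro x hx
    rw [mem_range] at hx
    have : z ^ (2 * s - i + k - x) = z⁻¹ ^ (i - k + 1 + x) := by
      rw [inv_pow]
      apply eq_inv_of_mul_eq_one_left
      rw [← pow_add, show 2 * s - i + k - x + (i - k + 1 + x) = 2 * s + 1 by omega,
        h.pow_eq_one]
    rw [this]; ring
  rw [e1, e2] at h1
  have e3 : qf z⁻¹ i = qf z⁻¹ (i - k) * ∏ x ∈ range k, (1 - z⁻¹ ^ (i - k + 1 + x)) := by
    rw [← qf_add, Nat.sub_add_cancel hk]
  rw [e3]
  have hm : ((-1 : ℂ)) ^ k ≠ 0 := pow_ne_zero _ (by norm_num)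
  apply mul_left_cancel₀ hm
  calc (-1) ^ k * (gauss z (2 * s - i + k) k * (qf z⁻¹ (i - k) * qf z k))
      = (gauss z (2 * s - i + k) k * ((-1) ^ k * qf z k)) * qf z⁻¹ (i - k) := by ring
    _ = _ := by rw [h1]; ring

lemma prod_closed {s : ℕ} {z : ℂ} (h : IsPrimitiveRoot z (2 * s + 1)) {j : ℕ} (k : ℕ)
    (hj : j ≤ 2 * s) : ∏ x ∈ range k, (z ^ (j + 1 + x) - 1) = (-1) ^ k * qf z (j + k) / qf z j := by
  have n1 : qf z j ≠ 0 := qf_ne_zero h hj
  rw [eq_div_iff n1, qf_add]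
  have : ∏ x ∈ range k, (z ^ (j + 1 + x) - 1) = (-1) ^ k * ∏ x ∈ range k, (1 - z ^ (j + 1 + x)) := by
    rw [← Finset.card_range k, ← Finset.prod_const, Finset.card_range, ← prod_mul_distrib]
    apply prod_congr rfl
    intro x _
    ring
  rw [this]; ring

section
variable {s : ℕ} {u : ℂˣ} (h : IsPrimitiveRoot (u : ℂ) (2 * s + 1))
include h

lemma coeffPos_closed {i j k : ℕ} (hk : k ≤ i) (hi : i ≤ 2 * s) (hj : j ≤ 2 * s) :
    coeffPos s u i j k =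
      (u : ℂ) ^ ((k.choose 2 : ℤ) - s * k + ((s : ℤ) - i + k) * ((s : ℤ) - j - k)) * (-1) ^ k *
        (qf (u : ℂ)⁻¹ i * qf u (j + k) / (qf (u : ℂ)⁻¹ (i - k) * qf u k * qf u j)) := by
  have hinv : IsPrimitiveRoot (u : ℂ)⁻¹ (2 * s + 1) := h.inv
  have n1 : qf (u : ℂ)⁻¹ (i - k) ≠ 0 := qf_ne_zero hinv (by omega)
  have n2 : qf (u : ℂ) k ≠ 0 := qf_ne_zero h (by omega)
  have n3 : qf (u : ℂ) j ≠ 0 := qf_ne_zero h (by omega)
  unfold coeffPos
  rw [gauss_closed h hk hi, prod_closed h k hj, Units.val_zpow_eq_zpow_val]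
  field_simp

lemma coeffNeg_closed {i j k : ℕ} (hk : k ≤ j) (hi : i ≤ 2 * s) (hj : j ≤ 2 * s) :
    coeffNeg s u i j k =
      (u : ℂ) ^ (-(s : ℤ) * k - ((s : ℤ) - i) * ((s : ℤ) - j)) *
        (qf (u : ℂ)⁻¹ j * qf u (i + k) / (qf (u : ℂ)⁻¹ (j - k) * qf u k * qf u i)) := by
  have hinv : IsPrimitiveRoot (u : ℂ)⁻¹ (2 * s + 1) := h.inv
  have n1 : qf (u : ℂ)⁻¹ (j - k) ≠ 0 := qf_ne_zero hinv (by omega)
  have n2 : qf (u : ℂ) k ≠ 0 := qf_ne_zero h (by omega)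
  have n3 : qf (u : ℂ) i ≠ 0 := qf_ne_zero h (by omega)
  have hm : ((-1 : ℂ)) ^ k * (-1) ^ k = 1 := by rw [← mul_pow]; simp
  unfold coeffNeg
  rw [gauss_closed h hk hj, prod_closed h k hi, Units.val_zpow_eq_zpow_val]
  generalize (u : ℂ) ^ (-(s : ℤ) * k - ((s : ℤ) - i) * ((s : ℤ) - j)) = A
  generalize qf (u : ℂ)⁻¹ (j - k) = B at *
  generalize qf (u : ℂ)⁻¹ j = C
  calc (-1) ^ k * A * (C / (B * qf (↑u) k)) * ((-1) ^ k * qf (↑u) (i + k) / qf (↑u) i)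
      = ((-1) ^ k * (-1) ^ k) * (A * (C / (B * qf (↑u) k)) * (qf (↑u) (i + k) / qf (↑u) i)) := by
        ring
    _ = _ := by rw [hm]; field_simp

end

end Pool.Agent.Work.MP_b30479_gt.TB
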