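import Pool.Agent.Work.MP_b30479_gt.TB.Arr
import Pool.Agent.Work.MP_b30479_gt.TB.Root

/-!
# The braiding commutes with `E`, and its adjoint
-/

namespace Pool.Agent.Work.MP_b30479_gt.TB

open Finset

/-- coefficient form of: the operator `e` on `V ⊗ V` commutes with
`E (e_i ⊗ e_j) = (1 - t^{-i}) t^{s-j} e_{i-1} ⊗ e_j + (1 - t^{-j}) e_i ⊗ e_{j-1}` -/
def CommC (s : ℕ) (t : ℂ) (e : Ent) : Prop :=
  ∀ i j a b : ℕ, i + j = a + b + 1 → i + j ≤ 2 * s →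
    (1 - t⁻¹ ^ (a + 1)) * t ^ ((s : ℤ) - b) * e i j (a + 1) b + (1 - t⁻¹ ^ (b + 1)) * e i j a (b + 1)
      = (1 - t⁻¹ ^ i) * t ^ ((s : ℤ) - j) * e (i - 1) j a b + (1 - t⁻¹ ^ j) * e i (j - 1) a b

lemma entry_true (s : ℕ) (u : ℂˣ) (i j k b : ℕ) (h : b + k = i) :
    entry s u true i j (j + k) b = coeffPos s u i j k := by
  unfold entry
  simp only [if_true]
  rw [if_pos (by omega), Nat.add_sub_cancel_left]

lemma entry_true_zero (s : ℕ) (u : ℂˣ) (i j a b : ℕ) (h : a < j) :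
    entry s u true i j a b = 0 := by
  unfold entry
  simp only [if_true]
  rw [if_neg (by omega)]

lemma entry_false (s : ℕ) (u : ℂˣ) (i j k a : ℕ) (h : a + k = j) :
    entry s u false i j a (i + k) = coeffNeg s u i j k := by
  unfold entry
  simp only [Bool.false_eq_true, if_false]
  rw [if_pos (by omega), Nat.add_sub_cancel_left]

lemma entry_false_zero (s : ℕ) (u : ℂˣ) (i j a b : ℕ) (h : b < i) :
    entry s u false i j a b = 0 := by
  unfold entry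
  simp only [Bool.false_eq_true, if_false]
  rw [if_neg (by omega)]

lemma alg_pos (X Y : ℂ) (hX : X ≠ 0) (hY : Y ≠ 0) :
    -(1 - X⁻¹ * Y⁻¹) * X⁻¹ * (1 - X * Y) + (1 - Y) =
      X⁻¹ ^ 2 * Y⁻¹ * (1 - Y) - (1 - X⁻¹) * X⁻¹ * (1 - X) := by
  field_simp
  ring

lemma alg_neg (X Y : ℂ) (hX : X ≠ 0) (hY : Y ≠ 0) :
    X⁻¹ * Y⁻¹ * (1 - Y) + (1 - X⁻¹ * Y⁻¹) * (1 - X * Y) =
      (1 - X⁻¹) * (1 - X) + X * (1 - Y) := by
  field_simp
  ring

section
variable {s : ℕ} {u : ℂˣ} (h : IsPrimitiveRoot (u : ℂ) (2 * s + 1))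
include h


omit h in
lemma coeffPos_zero (i j : ℕ) :
    coeffPos s u i j 0 = (u : ℂ) ^ (((s : ℤ) - i) * ((s : ℤ) - j)) := by
  unfold coeffPos
  rw [Units.val_zpow_eq_zpow_val]
  simp

omit h in
lemma coeffNeg_zero (i j : ℕ) :
    coeffNeg s u i j 0 = (u : ℂ) ^ (-(((s : ℤ) - i) * ((s : ℤ) - j))) := by
  unfold coeffNeg
  rw [Units.val_zpow_eq_zpow_val]
  simp

lemma commC_true : CommC s (u : ℂ) (entry s u true) := by
  intro i j a b hij hS
  have hinv : IsPrimitiveRoot (u : ℂ)⁻¹ (2 * s + 1) := h.inv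
  have h0 : (u : ℂ) ≠ 0 := u.ne_zero
  rcases lt_trichotomy (a + 1) j with hlt | heq | hgt
  · rw [entry_true_zero _ _ _ _ _ _ hlt, entry_true_zero _ _ _ _ _ _ (by omega),
      entry_true_zero _ _ _ _ _ _ (by omega), entry_true_zero _ _ _ _ _ _ (by omega)]
    ring
  · subst heq
    have hb : b = i := by omega
    subst hb
    have e1 := entry_true s u b (a + 1) 0 b (by omega)
    have e2 := entry_true s u b a 0 b (by omega)
    rw [Nat.add_zero] at e1 e2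
    rw [e1, entry_true_zero s u b (a + 1) a (b + 1) (by omega),
      entry_true_zero s u (b - 1) (a + 1) a b (by omega)]
    rw [Nat.add_sub_cancel, e2, coeffPos_zero, coeffPos_zero]
    have e3 : (u : ℂ) ^ ((s : ℤ) - b) * (u : ℂ) ^ (((s : ℤ) - b) * ((s : ℤ) - ((a + 1 : ℕ) : ℤ))) =
        (u : ℂ) ^ (((s : ℤ) - b) * ((s : ℤ) - a)) := by
      rw [← zpow_add₀ h0]
      congr 1
      push_cast
      ring
    linear_combination (1 - (u : ℂ)⁻¹ ^ (a + 1)) * e3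
  · obtain ⟨k, rfl⟩ : ∃ k, a = j + k := ⟨a - j, by omega⟩
    have hi : i = b + k + 1 := by omega
    subst hi
    have p1 := entry_true s u (b + k + 1) j (k + 1) b (by omega)
    rw [← Nat.add_assoc] at p1
    have p2 := entry_true s u (b + k + 1) j k (b + 1) (by omega)
    have p3 := entry_true s u (b + k) j k b (by omega)
    rw [p1, p2, Nat.add_sub_cancel, p3]
    -- closed forms
    have c1 := coeffPos_closed h (i := b + k + 1) (j := j) (k := k + 1) (by omega) (by omega)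
      (by omega)
    have c2 := coeffPos_closed h (i := b + k + 1) (j := j) (k := k) (by omega) (by omega)
      (by omega)
    have c3 := coeffPos_closed h (i := b + k) (j := j) (k := k) (by omega) (by omega)
      (by omega)
    rw [show b + k + 1 - (k + 1) = b by omega, show j + (k + 1) = j + k + 1 by ring] at c1
    rw [show b + k + 1 - k = b + 1 by omega] at c2
    rw [show b + k - k = b by omega] at c3
    have nb : qf (u : ℂ)⁻¹ b ≠ 0 := qf_ne_zero hinv (by omega)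
    have nb1 : 1 - (u : ℂ)⁻¹ ^ (b + 1) ≠ 0 := one_sub_pow_ne hinv (by omega) (by omega)
    have nk : qf (u : ℂ) k ≠ 0 := qf_ne_zero h (by omega)
    have nk1 : 1 - (u : ℂ) ^ (k + 1) ≠ 0 := one_sub_pow_ne h (by omega) (by omega)
    have nj : qf (u : ℂ) j ≠ 0 := qf_ne_zero h (by omega)
    set E : ℂ := (u : ℂ) ^ ((k.choose 2 : ℤ) - s * k +
      ((s : ℤ) - (b + k + 1 : ℕ) + k) * ((s : ℤ) - j - k)) with hE
    set D : ℂ := (-1) ^ k * (qf (u : ℂ)⁻¹ (b + k) * qf (u : ℂ) (j + k) /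
      (qf (u : ℂ)⁻¹ b * (qf (u : ℂ) k * (1 - (u : ℂ) ^ (k + 1))) * qf (u : ℂ) j)) with hD
    have hP1 : (u : ℂ) ^ ((s : ℤ) - b) * coeffPos s u (b + k + 1) j (k + 1) =
        -(E * (u : ℂ)⁻¹ ^ j * (1 - (u : ℂ)⁻¹ ^ (b + k + 1)) * (1 - (u : ℂ) ^ (j + k + 1)) * D) := by
      rw [c1, qf_succ _ (b + k), qf_succ _ (j + k), qf_succ _ k]
      have e1 : (u : ℂ) ^ ((s : ℤ) - b) * (u : ℂ) ^ (((k + 1).choose 2 : ℤ) - s * ((k + 1 : ℕ) : ℤ) +
          ((s : ℤ) - (b + k + 1 : ℕ) + ((k + 1 : ℕ) : ℤ)) * ((s : ℤ) - j - ((k + 1 : ℕ) : ℤ))) =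
          E * (u : ℂ)⁻¹ ^ j := by
        rw [hE, inv_pow, ← zpow_natCast, ← zpow_neg, ← zpow_add₀ h0, ← zpow_add₀ h0]
        congr 1
        rw [Nat.choose_succ_succ' k 1, Nat.choose_one_right]
        push_cast
        ring
      rw [hD, pow_succ]
      calc _ = ((u : ℂ) ^ ((s : ℤ) - b) * (u : ℂ) ^ (((k + 1).choose 2 : ℤ) -
          s * ((k + 1 : ℕ) : ℤ) + ((s : ℤ) - (b + k + 1 : ℕ) + ((k + 1 : ℕ) : ℤ)) *
          ((s : ℤ) - j - ((k + 1 : ℕ) : ℤ)))) * ((-1) ^ k * -1) *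
          (qf (u : ℂ)⁻¹ (b + k) * (1 - (u : ℂ)⁻¹ ^ (b + k + 1)) *
            (qf (u : ℂ) (j + k) * (1 - (u : ℂ) ^ (j + k + 1))) /
              (qf (u : ℂ)⁻¹ b * (qf (u : ℂ) k * (1 - (u : ℂ) ^ (k + 1))) * qf (u : ℂ) j)) := by
            ring
        _ = _ := by rw [e1]; ring
    have hP2 : (1 - (u : ℂ)⁻¹ ^ (b + 1)) * coeffPos s u (b + k + 1) j k =
        E * (1 - (u : ℂ)⁻¹ ^ (b + k + 1)) * (1 - (u : ℂ) ^ (k + 1)) * D := by
      rw [c2, qf_succ _ (b + k), qf_succ _ b, hD]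
      have : (1 - (u : ℂ)⁻¹ ^ (b + 1)) * (qf (u : ℂ)⁻¹ (b + k) * (1 - (u : ℂ)⁻¹ ^ (b + k + 1)) *
          qf (u : ℂ) (j + k) / (qf (u : ℂ)⁻¹ b * (1 - (u : ℂ)⁻¹ ^ (b + 1)) * qf (u : ℂ) k *
            qf (u : ℂ) j)) = (1 - (u : ℂ)⁻¹ ^ (b + k + 1)) * (1 - (u : ℂ) ^ (k + 1)) *
          (qf (u : ℂ)⁻¹ (b + k) * qf (u : ℂ) (j + k) /
      (qf (u : ℂ)⁻¹ b * (qf (u : ℂ) k * (1 - (u : ℂ) ^ (k + 1))) * qf (u : ℂ) j)) := by
        generalize qf (u : ℂ)⁻¹ b = B at *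
        generalize qf (u : ℂ)⁻¹ (b + k) = B' at *
        generalize (u : ℂ)⁻¹ ^ (b + 1) = B2 at *
        generalize (u : ℂ)⁻¹ ^ (b + k + 1) = B3 at *
        field_simp
      linear_combination (E * (-1) ^ k) * this
    have hP3 : (u : ℂ) ^ ((s : ℤ) - j) * coeffPos s u (b + k) j k =
        E * ((u : ℂ)⁻¹ ^ j) ^ 2 * (u : ℂ)⁻¹ ^ (k + 1) * (1 - (u : ℂ) ^ (k + 1)) * D := by
      rw [c3, hD]
      have e1 : (u : ℂ) ^ ((s : ℤ) - j) * (u : ℂ) ^ ((k.choose 2 : ℤ) - s * (k : ℤ) +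
          ((s : ℤ) - (b + k : ℕ) + (k : ℤ)) * ((s : ℤ) - j - (k : ℤ))) =
          E * ((u : ℂ)⁻¹ ^ j) ^ 2 * (u : ℂ)⁻¹ ^ (k + 1) := by
        have e2 : (u : ℂ) ^ (2 * (s : ℤ) + 1) = 1 := by
          have := h.pow_eq_one
          rw [← zpow_natCast] at this
          push_cast at this
          exact this
        rw [hE, ← pow_mul, inv_pow, inv_pow, ← zpow_natCast, ← zpow_natCast, ← zpow_neg,
          ← zpow_neg, ← zpow_add₀ h0, ← zpow_add₀ h0, ← zpow_add₀ h0]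
        rw [← mul_one ((u : ℂ) ^ ((k.choose 2 : ℤ) - s * k +
          ((s : ℤ) - (b + k + 1 : ℕ) + k) * ((s : ℤ) - j - k) + -((j * 2 : ℕ) : ℤ) +
            -((k + 1 : ℕ) : ℤ))), ← e2, ← zpow_add₀ h0]
        congr 1
        push_cast
        ring
      have e3 : qf (u : ℂ)⁻¹ (b + k) * qf (u : ℂ) (j + k) /
          (qf (u : ℂ)⁻¹ b * qf (u : ℂ) k * qf (u : ℂ) j) = (1 - (u : ℂ) ^ (k + 1)) *
          (qf (u : ℂ)⁻¹ (b + k) * qf (u : ℂ) (j + k) /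
      (qf (u : ℂ)⁻¹ b * (qf (u : ℂ) k * (1 - (u : ℂ) ^ (k + 1))) * qf (u : ℂ) j)) := by
        generalize qf (u : ℂ)⁻¹ b = B at *
        generalize qf (u : ℂ)⁻¹ (b + k) = B' at *
        field_simp
      rw [e3]
      linear_combination ((-1) ^ k * (1 - (u : ℂ) ^ (k + 1)) *
          (qf (u : ℂ)⁻¹ (b + k) * qf (u : ℂ) (j + k) /
      (qf (u : ℂ)⁻¹ b * (qf (u : ℂ) k * (1 - (u : ℂ) ^ (k + 1))) * qf (u : ℂ) j))) * e1
    have hP4 : (1 - (u : ℂ)⁻¹ ^ j) * entry s u true (b + k + 1) (j - 1) (j + k) b =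
        -((1 - (u : ℂ)⁻¹ ^ j) * (E * (u : ℂ)⁻¹ ^ j * (1 - (u : ℂ)⁻¹ ^ (b + k + 1)) *
          (1 - (u : ℂ) ^ j) * D)) := by
      cases j with
      | zero => simp
      | succ j =>
        have p4 := entry_true s u (b + k + 1) j (k + 1) b (by omega)
        rw [show j + (k + 1) = j + 1 + k by ring] at p4
        have c4 := coeffPos_closed h (i := b + k + 1) (j := j) (k := k + 1) (by omega) (by omega)
          (by omega)
        rw [show b + k + 1 - (k + 1) = b by omega, show j + (k + 1) = j + 1 + k by ring] at c4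
        rw [Nat.add_sub_cancel, p4, c4]
        have e1 : (u : ℂ) ^ (((k + 1).choose 2 : ℤ) - s * ((k + 1 : ℕ) : ℤ) +
            ((s : ℤ) - (b + k + 1 : ℕ) + ((k + 1 : ℕ) : ℤ)) * ((s : ℤ) - j - ((k + 1 : ℕ) : ℤ))) =
            E * (u : ℂ)⁻¹ ^ (j + 1) := by
          rw [hE, inv_pow, ← zpow_natCast, ← zpow_neg, ← zpow_add₀ h0]
          congr 1
          rw [Nat.choose_succ_succ' k 1, Nat.choose_one_right]
          push_cast
          ring
        have nj' : qf (u : ℂ) j ≠ 0 := qf_ne_zero h (by omega)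
        have nj1 : 1 - (u : ℂ) ^ (j + 1) ≠ 0 := one_sub_pow_ne h (by omega) (by omega)
        rw [e1, hD, qf_succ _ (b + k), qf_succ _ k, qf_succ _ j, pow_succ]
        generalize qf (u : ℂ)⁻¹ b = B at *
        generalize qf (u : ℂ)⁻¹ (b + k) = B' at *
        generalize (u : ℂ)⁻¹ ^ (b + k + 1) = B3 at *
        generalize (u : ℂ)⁻¹ ^ (j + 1) = B4 at *
        generalize E = E' at *
        field_simp
        ring
    have hX : (u : ℂ) ^ j ≠ 0 := pow_ne_zero _ h0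
    have hY : (u : ℂ) ^ (k + 1) ≠ 0 := pow_ne_zero _ h0
    have key := alg_pos ((u : ℂ) ^ j) ((u : ℂ) ^ (k + 1)) hX hY
    simp only [← inv_pow] at key
    have q1 : (u : ℂ)⁻¹ ^ (j + k + 1) = (u : ℂ)⁻¹ ^ j * (u : ℂ)⁻¹ ^ (k + 1) := by
      rw [← pow_add, Nat.add_assoc]
    have q2 : (u : ℂ) ^ (j + k + 1) = (u : ℂ) ^ j * (u : ℂ) ^ (k + 1) := by
      rw [← pow_add, Nat.add_assoc]
    rw [q2] at hP1
    rw [q1]
    linear_combination (1 - (u : ℂ)⁻¹ ^ j * (u : ℂ)⁻¹ ^ (k + 1)) * hP1 + hP2 -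
      (1 - (u : ℂ)⁻¹ ^ (b + k + 1)) * hP3 - hP4 +
      (E * (1 - (u : ℂ)⁻¹ ^ (b + k + 1)) * D) * key

end

end Pool.Agent.Work.MP_b30479_gt.TB
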