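import Pool.Agent.Work.MP_b30479_gt.TB.Comm

/-!
# Highest weight vectors
-/

namespace Pool.Agent.Work.MP_b30479_gt.TB

open Finset

/-- the action of `E` on `V ⊗ V ⊗ V` -/
noncomputable def EE (s : ℕ) (t : ℂ) (X : Arr) : Arr := fun i j k =>
  (1 - t⁻¹ ^ (i + 1)) * t ^ ((s : ℤ) - j) * t ^ ((s : ℤ) - k) * X (i + 1) j k +
  (1 - t⁻¹ ^ (j + 1)) * t ^ ((s : ℤ) - k) * X i (j + 1) k +
  (1 - t⁻¹ ^ (k + 1)) * X i j (k + 1)

/-- highest weight vectors (of weight index `2s`) -/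
def HW (s : ℕ) (t : ℂ) (X : Arr) : Prop := ∀ i j k : ℕ, i + j + k + 1 = 2 * s → EE s t X i j k = 0

lemma M_comm {s : ℕ} {t : ℂ} {e : Ent} (hc : CommC s t e) (Z : ℕ → ℕ → ℂ) {a b : ℕ}
    (hab : a + b + 1 ≤ 2 * s) :
    (1 - t⁻¹ ^ (a + 1)) * t ^ ((s : ℤ) - b) * M e Z (a + 1) b +
      (1 - t⁻¹ ^ (b + 1)) * M e Z a (b + 1) =
    ∑ p ∈ AD (a + b), e p.1 p.2 a b * ((1 - t⁻¹ ^ (p.1 + 1)) * t ^ ((s : ℤ) - p.2) *
      Z (p.1 + 1) p.2 + (1 - t⁻¹ ^ (p.2 + 1)) * Z p.1 (p.2 + 1)) := by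
  have e1 : (1 - t⁻¹ ^ (a + 1)) * t ^ ((s : ℤ) - b) * M e Z (a + 1) b +
      (1 - t⁻¹ ^ (b + 1)) * M e Z a (b + 1) =
      ∑ p ∈ AD (a + b + 1), ((1 - t⁻¹ ^ p.1) * t ^ ((s : ℤ) - p.2) * e (p.1 - 1) p.2 a b *
        Z p.1 p.2 + (1 - t⁻¹ ^ p.2) * e p.1 (p.2 - 1) a b * Z p.1 p.2) := by
    unfold M
    rw [show a + 1 + b = a + b + 1 by ring, show a + (b + 1) = a + b + 1 by ring,
      Finset.mul_sum, Finset.mul_sum, ← Finset.sum_add_distrib]
    apply Finset.sum_congr rfl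
    intro p hp
    rw [mem_AD] at hp
    have := hc p.1 p.2 a b hp (by omega)
    linear_combination Z p.1 p.2 * this
  rw [e1, Finset.sum_add_distrib]
  have e2 := Finset.Nat.sum_antidiagonal_succ (n := a + b)
    (f := fun p => (1 - t⁻¹ ^ p.1) * t ^ ((s : ℤ) - p.2) * e (p.1 - 1) p.2 a b * Z p.1 p.2)
  have e3 := Finset.Nat.sum_antidiagonal_succ' (n := a + b)
    (f := fun p => (1 - t⁻¹ ^ p.2) * e p.1 (p.2 - 1) a b * Z p.1 p.2)
  rw [e2, e3]
  simp only [pow_zero, sub_self, zero_mul, zero_add, Nat.add_sub_cancel, add_zero]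
  rw [← Finset.sum_add_distrib]
  apply Finset.sum_congr rfl
  intro p hp
  ring

lemma HW_L1 {s : ℕ} {t : ℂ} {e : Ent} (hc : CommC s t e) {X : Arr} (hX : HW s t X) :
    HW s t (L1 e X) := by
  intro i j k hs
  have h1 := M_comm hc (fun a b => X a b k) (a := i) (b := j) (by omega)
  have e1 : EE s t (L1 e X) i j k =
      t ^ ((s : ℤ) - k) * ((1 - t⁻¹ ^ (i + 1)) * t ^ ((s : ℤ) - j) *
        M e (fun a b => X a b k) (i + 1) j + (1 - t⁻¹ ^ (j + 1)) *
        M e (fun a b => X a b k) i (j + 1)) + (1 - t⁻¹ ^ (k + 1)) *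
        M e (fun a b => X a b (k + 1)) i j := by
    unfold EE L1
    ring
  rw [e1, h1]
  unfold M
  rw [Finset.mul_sum, Finset.mul_sum, ← Finset.sum_add_distrib]
  apply Finset.sum_eq_zero
  intro p hp
  rw [mem_AD] at hp
  have := hX p.1 p.2 k (by omega)
  unfold EE at this
  linear_combination e p.1 p.2 i j * this

lemma HW_L2 {s : ℕ} {t : ℂ} (ht : t ≠ 0) {e : Ent} (hc : CommC s t e) {X : Arr} (hX : HW s t X) :
    HW s t (L2 e X) := by
  intro i j k hs
  have h1 := M_comm hc (fun a b => X i a b) (a := j) (b := k) (by omega)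
  have e1 : EE s t (L2 e X) i j k = (1 - t⁻¹ ^ (i + 1)) * (t ^ ((s : ℤ) - j) * t ^ ((s : ℤ) - k)) *
        M e (fun a b => X (i + 1) a b) j k + ((1 - t⁻¹ ^ (j + 1)) * t ^ ((s : ℤ) - k) *
        M e (fun a b => X i a b) (j + 1) k + (1 - t⁻¹ ^ (k + 1)) *
        M e (fun a b => X i a b) j (k + 1)) := by
    unfold EE L2
    ring
  rw [e1, h1]
  unfold M
  rw [Finset.mul_sum, ← Finset.sum_add_distrib]
  apply Finset.sum_eq_zero
  intro p hp
  rw [mem_AD] at hp
  have := hX i p.1 p.2 (by omega)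
  unfold EE at this
  have e2 : t ^ ((s : ℤ) - j) * t ^ ((s : ℤ) - k) = t ^ ((s : ℤ) - p.1) * t ^ ((s : ℤ) - p.2) := by
    rw [← zpow_add₀ ht, ← zpow_add₀ ht]
    congr 1
    have : (p.1 : ℤ) + p.2 = j + k := by exact_mod_cast hp
    linarith
  rw [e2]
  linear_combination e p.1 p.2 j k * this

lemma HW_lin {s : ℕ} {t : ℂ} {X Y : Arr} (hX : HW s t X) (hY : HW s t Y) (a : ℂ) :
    HW s t (fun i j k => X i j k + a * Y i j k) := by
  intro i j k hs
  have h1 := hX i j k hs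
  have h2 := hY i j k hs
  unfold EE at h1 h2 ⊢
  linear_combination h1 + a * h2

/-- the highest weight vector `e_0 ⊗ (cup)` -/
noncomputable def eta (s : ℕ) (t : ℂ) : Arr := fun i j _ => if i = 0 then t ^ (s * j) else 0

lemma HW_eta {s : ℕ} {t : ℂ} (h : IsPrimitiveRoot t (2 * s + 1)) : HW s t (eta s t) := by
  intro i j k hs
  have h0 : t ≠ 0 := h.ne_zero (by omega)
  unfold EE eta
  rcases Nat.eq_zero_or_pos i with hi | hi
  · subst hi
    simp only [if_true, Nat.zero_add, one_ne_zero, if_false, mul_zero, zero_add]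
    have e2s : t ^ (2 * (s : ℤ) + 1) = 1 := by
      have := h.pow_eq_one
      rw [← zpow_natCast] at this
      push_cast at this
      exact this
    have e1 : t ^ ((s : ℤ) - k) * t ^ (s * (j + 1)) = t ^ (j + 1) * t ^ (s * j) := by
      rw [← zpow_natCast, ← zpow_natCast, ← zpow_natCast, ← zpow_add₀ h0, ← zpow_add₀ h0]
      congr 1
      have : (k : ℤ) = 2 * s - 1 - j := by omega
      rw [this]
      push_cast
      ring
    have e2 : t⁻¹ ^ (k + 1) = t ^ (j + 1) := by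
      rw [inv_pow]
      symm
      apply eq_inv_of_mul_eq_one_left
      rw [← pow_add, show j + 1 + (k + 1) = 2 * s + 1 by omega, h.pow_eq_one]
    have e3 : t⁻¹ ^ (j + 1) * t ^ (j + 1) = 1 := by
      rw [← mul_pow, inv_mul_cancel₀ h0, one_pow]
    rw [e2]
    linear_combination (1 - t⁻¹ ^ (j + 1)) * e1 - t ^ (s * j) * e3
  · rw [if_neg (by omega), if_neg (by omega), if_neg (by omega)]
    ring

/-- a highest weight vector is determined by its coordinates `X i (2s-i) 0` -/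
lemma HW_inj {s : ℕ} {t : ℂ} (h : IsPrimitiveRoot t (2 * s + 1)) {X : Arr} (hX : HW s t X)
    (h0 : ∀ i, i ≤ 2 * s → X i (2 * s - i) 0 = 0) :
    ∀ k i j : ℕ, i + j + k = 2 * s → X i j k = 0 := by
  intro k
  induction k with
  | zero =>
    intro i j hij
    have := h0 i (by omega)
    rwa [show 2 * s - i = j by omega] at this
  | succ k ih =>
    intro i j hij
    have h1 := hX i j k (by omega)
    unfold EE at h1
    rw [ih (i + 1) j (by omega), ih i (j + 1) (by omega), mul_zero, mul_zero, zero_add,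
      zero_add] at h1
    rcases mul_eq_zero.mp h1 with h2 | h2
    · exact absurd h2 (one_sub_pow_ne h.inv (by omega) (by omega))
    · exact h2

end Pool.Agent.Work.MP_b30479_gt.TB
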