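import Pool.Agent.Work.MP_b30479_gt.TB.Cas
import Pool.Agent.Work.MP_b30479_gt.TB.HW

/-!
# Orthogonal basis of highest weight vectors
-/

namespace Pool.Agent.Work.MP_b30479_gt.TB

open Finset

lemma sum_AD_fst (m c : ℕ) (f : ℕ × ℕ → ℂ) :
    ∑ p ∈ AD m, (if p.1 = c then f p else 0) = if c ≤ m then f (c, m - c) else 0 := by
  unfold AD
  rw [Finset.Nat.sum_antidiagonal_eq_sum_range_succ_mk]
  simp only [Finset.sum_ite_eq', mem_range]
  by_cases hc : c ≤ m
  · rw [if_pos (by omega), if_pos hc]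
  · rw [if_neg (by omega), if_neg hc]

lemma M_cas (s : ℕ) (t : ℂ) (Z : ℕ → ℕ → ℂ) (a b : ℕ) :
    M (cas s t) Z a b = dg s t a b * Z a b +
      (if 1 ≤ a then (1 - t ^ a) * (1 - t⁻¹ ^ (b + 1)) * Z (a - 1) (b + 1) else 0) +
      (if 1 ≤ b then (1 - t⁻¹ ^ (a + 1)) * (1 - t ^ b) * (t ^ (a + 1) * t⁻¹ ^ b) *
        Z (a + 1) (b - 1) else 0) := by
  have e0 : M (cas s t) Z a b = ∑ p ∈ AD (a + b),
      ((if p.1 = a then dg s t a b * Z p.1 p.2 else 0) +
        (if p.1 = a - 1 then (if 1 ≤ a then (1 - t ^ a) * (1 - t⁻¹ ^ (b + 1)) * Z p.1 p.2 else 0)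
          else 0) +
        (if p.1 = a + 1 then (if 1 ≤ b then (1 - t⁻¹ ^ (a + 1)) * (1 - t ^ b) *
          (t ^ (a + 1) * t⁻¹ ^ b) * Z p.1 p.2 else 0) else 0)) := by
    unfold M
    apply Finset.sum_congr rfl
    rintro ⟨i, j⟩ hp
    rw [mem_AD] at hp
    simp only at hp ⊢
    by_cases h1 : i = a
    · subst h1
      have hj : j = b := by omega
      subst hj
      rw [cas_diag, if_pos rfl, if_neg (by omega : ¬ i = i + 1)]
      by_cases hi : 1 ≤ i
      · rw [if_neg (by omega)]; ring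
      · rw [if_neg hi, ite_self]; ring
    · by_cases h2 : 1 ≤ a ∧ i = a - 1
      · obtain ⟨h2a, h2b⟩ := h2
        obtain ⟨a', rfl⟩ : ∃ a', a = a' + 1 := ⟨a - 1, by omega⟩
        have hi : i = a' := by omega
        subst hi
        have hj : j = b + 1 := by omega
        subst hj
        rw [cas_up, if_neg (by omega), if_pos (by omega), if_pos h2a, if_neg (by omega)]
        ring
      · by_cases h3 : i = a + 1
        · subst h3
          obtain ⟨b', rfl⟩ : ∃ b', b = b' + 1 := ⟨b - 1, by omega⟩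
          have hj : j = b' := by omega
          subst hj
          rw [cas_dn, if_neg (by omega), if_neg (by omega), if_pos rfl, if_pos (by omega)]
          ring
        · rw [cas_zero _ _ _ _ _ _ (by omega) (by omega) (by omega), if_neg h1, if_neg h3]
          by_cases h4 : i = a - 1
          · rw [if_pos h4, if_neg (by omega)]; ring
          · rw [if_neg h4]; ring
  rw [e0, Finset.sum_add_distrib, Finset.sum_add_distrib, sum_AD_fst, sum_AD_fst, sum_AD_fst]
  simp only [if_pos (show a ≤ a + b by omega), if_pos (show a - 1 ≤ a + b by omega),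
    Nat.add_sub_cancel_left]
  congr 1
  · congr 1
    by_cases ha : 1 ≤ a
    · rw [if_pos ha, if_pos ha, show a + b - (a - 1) = b + 1 by omega]
    · rw [if_neg ha, if_neg ha]
  · by_cases hb : 1 ≤ b
    · rw [if_pos (by omega), if_pos hb, if_pos hb, show a + b - (a + 1) = b - 1 by omega]
    · rw [if_neg hb, if_neg hb, ite_self]

/-- eigenvalues of the Casimir operator -/
noncomputable def cc (s : ℕ) (t : ℂ) (k : ℕ) : ℂ := t ^ s * t⁻¹ ^ k + t ^ (s + 1) * t ^ k

/-- the orthogonal basis -/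
noncomputable def uu (s : ℕ) (t : ℂ) : ℕ → Arr
  | 0 => eta s t
  | k + 1 => fun a b c => L1 (cas s t) (uu s t k) a b c + (-cc s t k) * uu s t k a b c

section
variable {s : ℕ} {t : ℂ} (h : IsPrimitiveRoot t (2 * s + 1))
include h

lemma inv_pow_eq {a b : ℕ} (hab : a + b = 2 * s + 1) : t⁻¹ ^ a = t ^ b := by
  rw [inv_pow]
  symm
  apply eq_inv_of_mul_eq_one_left
  rw [← pow_add, Nat.add_comm, hab, h.pow_eq_one]

lemma star_cc (k : ℕ) : star (cc s t k) = cc s t k := by
  have h0 : t ≠ 0 := h.ne_zero (by omega)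
  have hV := sq_mul h
  unfold cc
  rw [star_add, star_mul', star_mul', star_pow, star_pow, star_pow, star_pow, star_inv₀,
    star_root h, inv_inv]
  simp only [pow_succ, inv_pow]
  have nx : t ^ k ≠ 0 := pow_ne_zero _ h0
  generalize t ^ s = V at *
  generalize t ^ k = x at *
  obtain ⟨ht, hV0⟩ := eq_inv_sq hV
  rw [ht]
  field_simp
  ring

lemma HW_uu (k : ℕ) : HW s t (uu s t k) := by
  induction k with
  | zero => exact HW_eta h
  | succ k ih => exact HW_lin (HW_L1 (commC_cas h) ih) ih _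

lemma L2_cas_coord {X : Arr} (hX : HW s t X) {i : ℕ} (hi : i ≤ 2 * s) :
    L2 (cas s t) X i (2 * s - i) 0 = cc s t i * X i (2 * s - i) 0 +
      (if i < 2 * s then (1 - t ^ (i + 1)) * (1 - t⁻¹ ^ (i + 1)) *
        X (i + 1) (2 * s - (i + 1)) 0 else 0) := by
  have h0 : t ≠ 0 := h.ne_zero (by omega)
  have hV := sq_mul h
  unfold L2
  rw [M_cas]
  simp only [show ¬ (1 ≤ 0) by omega, if_false, add_zero, zero_add]
  rcases Nat.lt_or_ge i (2 * s) with hlt | hge
  · rw [if_pos (by omega), if_pos hlt]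
    have h1 := hX i (2 * s - (i + 1)) 0 (by omega)
    unfold EE at h1
    rw [zp h0, show ((s : ℤ) - ((0 : ℕ) : ℤ)) = s by simp, zpow_natCast, zero_add] at h1
    rw [show 2 * s - i - 1 = 2 * s - (i + 1) by omega]
    rw [show 2 * s - (i + 1) + 1 = 2 * s - i by omega] at h1
    have e1 : t⁻¹ ^ (2 * s - i) = t ^ (i + 1) := inv_pow_eq h (by omega)
    have e2 : t ^ (2 * s - i) = t⁻¹ ^ (i + 1) := (inv_pow_eq h (by omega)).symm
    have e3 : t⁻¹ ^ (2 * s - (i + 1)) = t ^ (i + 2) := inv_pow_eq h (by omega)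
    rw [e1, e3] at h1
    unfold cc dg
    rw [e2]
    have nx : t ^ i ≠ 0 := pow_ne_zero _ h0
    simp only [pow_succ, inv_pow, pow_zero] at h1 ⊢
    generalize t ^ s = V at *
    generalize t ^ i = x at *
    obtain ⟨ht, hV0⟩ := eq_inv_sq hV
    generalize X (i + 1) (2 * s - (i + 1)) 0 = P at *
    generalize X i (2 * s - i) 0 = Q at *
    generalize X i (2 * s - (i + 1)) 1 = R at *
    have h2 : (1 - 1 * t⁻¹) * R = -((1 - x⁻¹ * t⁻¹) * (V * (x * t * t)) * V * P +
      (1 - x * t) * V * Q) := by linear_combination h1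
    have h3 : (1 - x⁻¹ * t⁻¹) * (1 - 1 * t⁻¹) * R = (1 - x⁻¹ * t⁻¹) *
      (-((1 - x⁻¹ * t⁻¹) * (V * (x * t * t)) * V * P + (1 - x * t) * V * Q)) := by
      rw [mul_assoc, h2]
    rw [h3]
    rw [ht]
    field_simp
    ring
  · have hi' : i = 2 * s := by omega
    subst hi'
    rw [if_neg (by omega), if_neg (by omega), Nat.sub_self]
    unfold cc dg
    have e1 : t ^ (2 * s) = t⁻¹ ^ 1 := (inv_pow_eq h (by omega)).symm
    have e2 : t⁻¹ ^ (2 * s) = t ^ 1 := inv_pow_eq h (by omega)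
    rw [e1, e2]
    simp only [pow_succ, pow_zero, one_mul, mul_one, add_zero]
    generalize t ^ s = V at *
    generalize X (2 * s) 0 0 = P
    field_simp
    ring

omit h in
lemma uu_coord_zero (k : ℕ) : ∀ i, k < i → i ≤ 2 * s → uu s t k i (2 * s - i) 0 = 0 := by
  induction k with
  | zero =>
    intro i hi _
    show eta s t i (2 * s - i) 0 = 0
    unfold eta
    rw [if_neg (by omega)]
  | succ k ih =>
    intro i hi hi2
    show L1 (cas s t) (uu s t k) i (2 * s - i) 0 + (-cc s t k) * uu s t k i (2 * s - i) 0 = 0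
    unfold L1
    rw [M_cas, ih i (by omega) hi2, mul_zero, mul_zero, if_pos (by omega : 1 ≤ i)]
    rw [show 2 * s - i + 1 = 2 * s - (i - 1) by omega, ih (i - 1) (by omega) (by omega)]
    by_cases hb : 1 ≤ 2 * s - i
    · rw [if_pos hb, show 2 * s - i - 1 = 2 * s - (i + 1) by omega,
        ih (i + 1) (by omega) (by omega)]
      ring
    · rw [if_neg hb]; ring

lemma uu_coord_succ {k : ℕ} (hk : k + 1 ≤ 2 * s) :
    uu s t (k + 1) (k + 1) (2 * s - (k + 1)) 0 = (1 - t ^ (k + 1)) ^ 2 *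
      uu s t k k (2 * s - k) 0 := by
  show L1 (cas s t) (uu s t k) (k + 1) (2 * s - (k + 1)) 0 +
    (-cc s t k) * uu s t k (k + 1) (2 * s - (k + 1)) 0 = _
  unfold L1
  rw [M_cas, uu_coord_zero k (k + 1) (by omega) hk, mul_zero, mul_zero,
    if_pos (by omega : 1 ≤ k + 1), Nat.add_sub_cancel,
    show 2 * s - (k + 1) + 1 = 2 * s - k by omega]
  have e1 : t⁻¹ ^ (2 * s - k) = t ^ (k + 1) := inv_pow_eq h (by omega)
  rw [e1]
  by_cases hb : 1 ≤ 2 * s - (k + 1)
  · rw [if_pos hb, show 2 * s - (k + 1) - 1 = 2 * s - (k + 1 + 1) by omega,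
      uu_coord_zero k (k + 1 + 1) (by omega) (by omega)]
    ring
  · rw [if_neg hb]; ring

lemma uu_coord_ne {k : ℕ} (hk : k ≤ 2 * s) : uu s t k k (2 * s - k) 0 ≠ 0 := by
  have h0 : t ≠ 0 := h.ne_zero (by omega)
  induction k with
  | zero =>
    show eta s t 0 (2 * s - 0) 0 ≠ 0
    unfold eta
    rw [if_pos rfl]
    exact pow_ne_zero _ h0
  | succ k ih =>
    rw [uu_coord_succ h hk]
    exact mul_ne_zero (pow_ne_zero _ (one_sub_pow_ne h (by omega) hk)) (ih (by omega))

lemma uu_coord_sub {k : ℕ} (hk : k + 1 ≤ 2 * s) :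
    (1 - t) * uu s t (k + 1) k (2 * s - k) 0 =
      -(t ^ (s + 1) * t⁻¹ ^ (k + 1) * (1 - t ^ (k + 1))) *
        uu s t (k + 1) (k + 1) (2 * s - (k + 1)) 0 := by
  have h0 : t ≠ 0 := h.ne_zero (by omega)
  have hV := sq_mul h
  induction k with
  | zero =>
    rw [uu_coord_succ h hk]
    have e0 : uu s t (0 + 1) 0 (2 * s - 0) 0 = L1 (cas s t) (uu s t 0) 0 (2 * s - 0) 0 +
      (-cc s t 0) * uu s t 0 0 (2 * s - 0) 0 := rfl
    rw [e0]
    unfold L1
    rw [M_cas, if_neg (by omega), if_pos (by omega),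
      show 2 * s - 0 - 1 = 2 * s - (0 + 1) by omega, uu_coord_zero 0 (0 + 1) (by omega) hk]
    unfold cc dg
    have e1 : t⁻¹ ^ (2 * s - 0) = t ^ 1 := inv_pow_eq h (by omega)
    rw [e1]
    simp only [pow_succ, pow_zero, one_mul, mul_one, add_zero, zero_add, mul_zero]
    generalize uu s t 0 0 (2 * s - 0) 0 = P
    generalize t ^ s = V at *
    obtain ⟨ht, hV0⟩ := eq_inv_sq hV
    rw [ht]
    field_simp
    ring
  | succ k ih =>
    have ih' := ih (by omega)
    rw [uu_coord_succ h hk]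
    have e0 : uu s t (k + 1 + 1) (k + 1) (2 * s - (k + 1)) 0 =
      L1 (cas s t) (uu s t (k + 1)) (k + 1) (2 * s - (k + 1)) 0 +
      (-cc s t (k + 1)) * uu s t (k + 1) (k + 1) (2 * s - (k + 1)) 0 := rfl
    rw [e0]
    unfold L1
    rw [M_cas, if_pos (by omega), if_pos (by omega),
      show 2 * s - (k + 1) - 1 = 2 * s - (k + 1 + 1) by omega,
      uu_coord_zero (k + 1) (k + 1 + 1) (by omega) hk, Nat.add_sub_cancel,
      show 2 * s - (k + 1) + 1 = 2 * s - k by omega]
    unfold cc dg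
    have e1 : t⁻¹ ^ (2 * s - (k + 1)) = t ^ (k + 2) := inv_pow_eq h (by omega)
    have e2 : t⁻¹ ^ (2 * s - k) = t ^ (k + 1) := inv_pow_eq h (by omega)
    rw [e1, e2]
    have nx : t ^ k ≠ 0 := pow_ne_zero _ h0
    simp only [pow_succ, mul_zero, add_zero, inv_pow, pow_zero, one_mul] at ih' ⊢
    generalize uu s t (k + 1) (k + 1) (2 * s - (k + 1)) 0 = P at *
    generalize uu s t (k + 1) k (2 * s - k) 0 = Q at *
    generalize t ^ s = V at *
    generalize t ^ k = x at *
    obtain ⟨ht, hV0⟩ := eq_inv_sq hV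
    have h3 : (1 - t) * ((1 - x * t) * (1 - x * t) * Q) = (1 - x * t) * (1 - x * t) *
      (-(V * t * (x⁻¹ * t⁻¹) * (1 - x * t)) * P) := by rw [← ih']; ring
    have h4 : ∀ A B : ℂ, (1 - t) * (A + (1 - x * t) * (1 - x * t) * Q + B) =
      (1 - t) * (A + B) + (1 - x * t) * (1 - x * t) *
      (-(V * t * (x⁻¹ * t⁻¹) * (1 - x * t)) * P) := by
      intro A B; rw [← h3]; ring
    rw [h4]
    rw [ht]
    field_simp
    ring

end

end Pool.Agent.Work.MP_b30479_gt.TB
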