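import Pool.Agent.Work.MP_b30479_gt.TB.Asym
import Pool.Agent.Work.MP_b30479_gt.TB.Bounds

/-!
# Growth of the Kashaev invariants of two-bridge links
-/

namespace Pool.Agent.Work.MP_b30479_gt.TB

open Finset Pool.Agent.Work.MP_b30479_gt.Lob

lemma kashaev_norm (s : ℕ) (w : List (Fin 2 × Bool)) (δ : ℤ) :
    ∃ u : ℂˣ, (u : ℂ) = tt s ∧ ‖twoBridgeKashaev w δ (2 * s + 1)‖ = ‖tangleValue s w u‖ := by
  refine ⟨Units.mk0 (Complex.exp (2 * Real.pi * Complex.I / ((2 * s + 1 : ℕ) : ℂ)))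
    (Complex.exp_ne_zero _), rfl, ?_⟩
  unfold twoBridgeKashaev
  have e1 : (2 * s + 1 - 1) / 2 = s := by omega
  rw [e1]
  exact norm_twoBridgeJones (tt_prim s) w δ

theorem growth_upper {w : List (Fin 2 × Bool)} (hw : IsAlternating w) (hl : 4 ≤ w.length) (δ : ℤ)
    {n : ℕ} (hn : Odd n) (hn3 : 3 ≤ n) :
    ‖twoBridgeKashaev w δ n‖ ≤ (6 * (n : ℝ) ^ 3) ^ (w.length - 2) *
      Real.exp (n * volFigureEight / (2 * Real.pi)) ^ (w.length - 3) := by
  obtain ⟨s, rfl⟩ := hn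
  have hs : 1 ≤ s := by omega
  obtain ⟨u, hu, hk⟩ := kashaev_norm s w δ
  have hp : IsPrimitiveRoot (u : ℂ) (2 * s + 1) := by rw [hu]; exact tt_prim s
  rw [hk]
  have h1 := upper hp hw hl
  rw [hu] at h1
  have h2 := FF_le hs
  have h3 := LL_le hs
  have e0 : ((2 * s + 1 : ℕ) : ℝ) = 2 * s + 1 := by push_cast; ring
  rw [e0]
  set A : ℝ := 6 * (2 * s + 1) ^ 3 with hA
  set E : ℝ := Real.exp ((2 * s + 1) * volFigureEight / (2 * Real.pi)) with hE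
  have hA0 : 0 < A := by positivity
  have hE0 : 0 < E := Real.exp_pos _
  have e1 : Real.exp (2 * ((2 * s + 1) * volFigureEight / (2 * Real.pi))) = E ^ 2 := by
    rw [hE, ← Real.exp_nat_mul]
    push_cast
    rfl
  rw [e1] at h3
  have hF0 : 0 ≤ FF s (tt s) := by
    have := (one_le_FF hp).1
    rw [hu] at this
    linarith
  have hL0 : 0 ≤ LL s (tt s) := by
    have := LL_nonneg (s := s) (u := u)
    rwa [hu] at this
  have h4 : FF s (tt s) ^ 2 * LL s (tt s) ^ (w.length - 4) ≤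
      (A ^ 2 * E) ^ 2 * (A ^ 2 * E ^ 2) ^ (w.length - 4) :=
    mul_le_mul (pow_le_pow_left₀ hF0 h2 2) (pow_le_pow_left₀ hL0 h3 _) (pow_nonneg hL0 _)
      (by positivity)
  clear_value A E
  have h5 : (A ^ 2 * E) ^ 2 * (A ^ 2 * E ^ 2) ^ (w.length - 4) =
      (A ^ (w.length - 2) * E ^ (w.length - 3)) ^ 2 := by
    obtain ⟨m, hm⟩ : ∃ m, w.length = m + 4 := ⟨w.length - 4, by omega⟩
    rw [hm, show m + 4 - 4 = m by omega, show m + 4 - 2 = m + 2 by omega,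
      show m + 4 - 3 = m + 1 by omega]
    ring
  rw [h5] at h4
  exact abs_le_of_sq_le_sq' (h1.trans h4) (by positivity) |>.2

theorem growth_lower (k : ℕ) (hk : 2 ≤ k) (δ : ℤ) {n : ℕ} (hn : Odd n) (hn3 : 3 ≤ n) :
    Real.exp (n * volFigureEight / (2 * Real.pi)) ^ (k - 1) / (4 ^ (k - 1) * (n : ℝ) ^ (k - 2)) ≤
      ‖twoBridgeKashaev (powWord k) δ n‖ := by
  obtain ⟨s, rfl⟩ := hn
  have hs : 1 ≤ s := by omega
  obtain ⟨k, rfl⟩ : ∃ k', k = k' + 2 := ⟨k - 2, by omega⟩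
  obtain ⟨u, hu, hk2⟩ := kashaev_norm s (powWord (k + 2)) δ
  have hp : IsPrimitiveRoot (u : ℂ) (2 * s + 1) := by rw [hu]; exact tt_prim s
  rw [hk2, show k + 2 - 1 = k + 1 by omega, show k + 2 - 2 = k by omega]
  have h1 := lower hp k
  rw [hu] at h1
  have h2 := FF_lower hs
  have e0 : ((2 * s + 1 : ℕ) : ℝ) = 2 * s + 1 := by push_cast; ring
  rw [e0]
  set E : ℝ := Real.exp ((2 * s + 1) * volFigureEight / (2 * Real.pi)) with hE
  have hE0 : 0 < E := Real.exp_pos _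
  have h3 : (E / 4) ^ (k + 1) ≤ FF s (tt s) ^ (k + 1) := pow_le_pow_left₀ (by positivity) h2 _
  rw [div_le_iff₀ (by positivity)]
  rw [div_pow, div_le_iff₀ (by positivity)] at h3
  calc E ^ (k + 1) ≤ FF s (tt s) ^ (k + 1) * 4 ^ (k + 1) := h3
    _ ≤ (‖tangleValue s (powWord (k + 2)) u‖ * (2 * s + 1) ^ k) * 4 ^ (k + 1) :=
      mul_le_mul_of_nonneg_right h1 (by positivity)
    _ = _ := by ring

end Pool.Agent.Work.MP_b30479_gt.TB
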