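import Pool.Agent.Work.MP_b30479_gt.TB.Coord

/-!
# Positivity of the reflected Hermitian form on highest weight vectors
-/

namespace Pool.Agent.Work.MP_b30479_gt.TB

open Finset

section
variable {s : ℕ} {t : ℂ} (h : IsPrimitiveRoot t (2 * s + 1))
include h

lemma HH_uu_step (k : ℕ) (X : Arr) :
    HH (2 * s) (uu s t (k + 1)) X =
      HH (2 * s) (uu s t k) (fun a b c => L2 (cas s t) X a b c + (-cc s t k) * X a b c) := by
  have e1 : HH (2 * s) (uu s t (k + 1)) X = HH (2 * s) (L1 (cas s t) (uu s t k)) X +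
      star (-cc s t k) * HH (2 * s) (uu s t k) X := by
    rw [← HH_smul_left, ← HH_add_left]
    rfl
  rw [e1, HH_L1 (isDag_cas h _), star_neg, star_cc h, HH_add_right, HH_smul_right]

lemma shift_coord {X : Arr} (hX : HW s t X) (k : ℕ) {i : ℕ} (hi : i ≤ 2 * s) :
    L2 (cas s t) X i (2 * s - i) 0 + (-cc s t k) * X i (2 * s - i) 0 =
      (cc s t i - cc s t k) * X i (2 * s - i) 0 +
      (if i < 2 * s then (1 - t ^ (i + 1)) * (1 - t⁻¹ ^ (i + 1)) *
        X (i + 1) (2 * s - (i + 1)) 0 else 0) := by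
  rw [L2_cas_coord h hX hi]
  ring

lemma HH_uu_zero (k : ℕ) : ∀ X : Arr, HW s t X →
    (∀ i, k ≤ i → i ≤ 2 * s → X i (2 * s - i) 0 = 0) → HH (2 * s) (uu s t k) X = 0 := by
  have h0 : t ≠ 0 := h.ne_zero (by omega)
  induction k with
  | zero =>
    intro X hX hz
    apply HH_zero_right
    intro i j l hijl
    exact HW_inj h hX (fun i hi => hz i (by omega) hi) l i j hijl
  | succ k ih =>
    intro X hX hz
    rw [HH_uu_step h]
    apply ih
    · exact HW_lin (HW_L2 h0 (commC_cas h) hX) hX _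
    · intro i hki hi
      rw [shift_coord h hX k hi]
      have e2 : (if i < 2 * s then (1 - t ^ (i + 1)) * (1 - t⁻¹ ^ (i + 1)) *
        X (i + 1) (2 * s - (i + 1)) 0 else 0) = 0 := by
        by_cases h3 : i < 2 * s
        · rw [if_pos h3, hz (i + 1) (by omega) (by omega), mul_zero]
        · rw [if_neg h3]
      rw [e2, add_zero]
      rcases Nat.eq_or_lt_of_le hki with h4 | h4
      · rw [h4]; ring
      · rw [hz i (by omega) hi, mul_zero]

lemma phi_identity {k : ℕ} (hk : k + 1 ≤ 2 * s) :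
    (cc s t k - cc s t (k + 1)) * uu s t (k + 1) k (2 * s - k) 0 +
      (1 - t ^ (k + 1)) * (1 - t⁻¹ ^ (k + 1)) * uu s t (k + 1) (k + 1) (2 * s - (k + 1)) 0 =
      ((1 - t ^ (k + 1)) * (1 - t⁻¹ ^ (k + 1))) ^ 2 * uu s t k k (2 * s - k) 0 := by
  have h0 : t ≠ 0 := h.ne_zero (by omega)
  have hV := sq_mul h
  have h1 : 1 - t ≠ 0 := by
    have := one_sub_pow_ne h (k := 1) (by omega) (by omega)
    rwa [pow_one] at this
  have e1 := uu_coord_sub h hk
  have e2 := uu_coord_succ h hk
  apply mul_left_cancel₀ h1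
  have e3 : (1 - t) * ((cc s t k - cc s t (k + 1)) * uu s t (k + 1) k (2 * s - k) 0 +
      (1 - t ^ (k + 1)) * (1 - t⁻¹ ^ (k + 1)) * uu s t (k + 1) (k + 1) (2 * s - (k + 1)) 0) =
      (cc s t k - cc s t (k + 1)) * (-(t ^ (s + 1) * t⁻¹ ^ (k + 1) * (1 - t ^ (k + 1))) *
        uu s t (k + 1) (k + 1) (2 * s - (k + 1)) 0) + (1 - t) * ((1 - t ^ (k + 1)) *
        (1 - t⁻¹ ^ (k + 1)) * uu s t (k + 1) (k + 1) (2 * s - (k + 1)) 0) := by
    rw [← e1]; ring
  rw [e3, e2]
  unfold cc
  have nx : t ^ k ≠ 0 := pow_ne_zero _ h0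
  simp only [pow_succ, inv_pow, pow_zero, one_mul]
  generalize uu s t k k (2 * s - k) 0 = P at *
  generalize t ^ s = V at *
  generalize t ^ k = x at *
  clear e1 e2 e3
  obtain ⟨ht, hV0⟩ := eq_inv_sq hV
  rw [ht]
  field_simp
  ring

lemma HH_uu_succ {k : ℕ} (hk : k + 1 ≤ 2 * s) :
    HH (2 * s) (uu s t (k + 1)) (uu s t (k + 1)) =
      ((1 - t ^ (k + 1)) * (1 - t⁻¹ ^ (k + 1))) ^ 2 * HH (2 * s) (uu s t k) (uu s t k) := by
  have h0 : t ≠ 0 := h.ne_zero (by omega)
  have hW1 := HW_uu h (k + 1)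
  have hW := HW_uu h k
  have o1 : HH (2 * s) (uu s t k) (uu s t (k + 1)) = 0 := by
    rw [← HH_star, HH_uu_zero h (k + 1) _ hW (fun i hi hi2 => uu_coord_zero k i (by omega) hi2),
      star_zero]
  have e1 : HH (2 * s) (uu s t (k + 1)) (uu s t (k + 1)) = HH (2 * s) (uu s t k)
      (fun a b c => L2 (cas s t) (uu s t (k + 1)) a b c +
        (-cc s t (k + 1)) * uu s t (k + 1) a b c) := by
    rw [HH_uu_step h, HH_add_right, HH_add_right, HH_smul_right, HH_smul_right, o1]
    ring
  rw [e1]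
  have hW2 : HW s t (fun a b c => L2 (cas s t) (uu s t (k + 1)) a b c +
        (-cc s t (k + 1)) * uu s t (k + 1) a b c) :=
    HW_lin (HW_L2 h0 (commC_cas h) hW1) hW1 _
  have key := HH_uu_zero h k (fun a b c => (fun a b c => L2 (cas s t) (uu s t (k + 1)) a b c +
        (-cc s t (k + 1)) * uu s t (k + 1) a b c) a b c +
        (-((1 - t ^ (k + 1)) * (1 - t⁻¹ ^ (k + 1))) ^ 2) * uu s t k a b c)
        (HW_lin hW2 hW _) (by
    intro i hki hi
    simp only
    rw [shift_coord h hW1 (k + 1) hi]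
    rcases Nat.eq_or_lt_of_le hki with h4 | h4
    · subst h4
      rw [if_pos (by omega), phi_identity h hk]
      ring
    · rw [uu_coord_zero k i (by omega) hi]
      have e2 : (if i < 2 * s then (1 - t ^ (i + 1)) * (1 - t⁻¹ ^ (i + 1)) *
        uu s t (k + 1) (i + 1) (2 * s - (i + 1)) 0 else 0) = 0 := by
        by_cases h3 : i < 2 * s
        · rw [if_pos h3, uu_coord_zero (k + 1) (i + 1) (by omega) (by omega), mul_zero]
        · rw [if_neg h3]
      rw [e2]
      rcases Nat.eq_or_lt_of_le (Nat.succ_le_of_lt h4) with h5 | h5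
      · rw [← h5]; ring
      · rw [uu_coord_zero (k + 1) i (by omega) hi]; ring)
  rw [HH_add_right, HH_smul_right] at key
  linear_combination key

omit h in
lemma HH_self_add (S : ℕ) (Y U : Arr) (ξ : ℂ) :
    HH S (fun a b c => Y a b c + ξ * U a b c) (fun a b c => Y a b c + ξ * U a b c) =
      HH S Y Y + ξ * HH S Y U + star ξ * HH S U Y + ξ * star ξ * HH S U U := by
  rw [HH_add_right, HH_smul_right, HH_add_left, HH_add_left, HH_smul_left, HH_smul_left]
  ring

lemma norm_sq_one_sub (k : ℕ) :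
    (1 - t ^ k) * (1 - t⁻¹ ^ k) = ((‖1 - t ^ k‖ ^ 2 : ℝ) : ℂ) := by
  have e1 : star (1 - t ^ k) = 1 - t⁻¹ ^ k := by
    rw [star_sub, star_one, star_pow, star_root h]
  rw [← e1, ← Complex.normSq_eq_norm_sq]
  exact Complex.mul_conj _

lemma HH_eta : HH (2 * s) (eta s t) (eta s t) = 1 := by
  have h0 : t ≠ 0 := h.ne_zero (by omega)
  unfold HH
  rw [Finset.sum_eq_single (0, 2 * s), Finset.sum_eq_single (2 * s, 0)]
  · unfold eta
    simp only [if_true]
    rw [star_pow, star_root h, ← mul_pow, inv_mul_cancel₀ h0, one_pow]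
  · rintro ⟨a, b⟩ hq hne
    rw [mem_AD] at hq
    have hb : b ≠ 0 := by
      rintro rfl
      apply hne
      simp only [add_zero] at hq
      rw [hq]
    unfold eta
    rw [if_neg hb, star_zero, zero_mul]
  · intro hc
    exact absurd (mem_AD.mpr rfl) hc
  · rintro ⟨a, b⟩ hp hne
    rw [mem_AD] at hp
    have ha : a ≠ 0 := by
      rintro rfl
      apply hne
      simp only [zero_add] at hp
      rw [hp]
    apply Finset.sum_eq_zero
    intro q _
    unfold eta
    rw [if_neg ha, mul_zero]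
  · intro hc
    exact absurd (mem_AD.mpr (by simp)) hc

lemma HH_uu_self {k : ℕ} (hk : k ≤ 2 * s) :
    HH (2 * s) (uu s t k) (uu s t k) = ((‖qf t k‖ ^ 4 : ℝ) : ℂ) := by
  induction k with
  | zero =>
    simp only [qf_zero, norm_one, one_pow, Complex.ofReal_one]
    exact HH_eta h
  | succ k ih =>
    rw [HH_uu_succ h hk, ih (by omega), norm_sq_one_sub h, qf_succ, norm_mul]
    push_cast
    ring

/-- positivity of the form on highest weight vectors -/
lemma HH_pos_aux (k : ℕ) (hk : k ≤ 2 * s + 1) : ∀ X : Arr, HW s t X →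
    (∀ i, k ≤ i → i ≤ 2 * s → X i (2 * s - i) 0 = 0) →
    ∃ r : ℝ, HH (2 * s) X X = r ∧ 0 ≤ r ∧ (r = 0 → ∀ i j l, i + j + l = 2 * s → X i j l = 0) := by
  induction k with
  | zero =>
    intro X hX hz
    have hv : ∀ i j l, i + j + l = 2 * s → X i j l = 0 := fun i j l hijl =>
      HW_inj h hX (fun i hi => hz i (by omega) hi) l i j hijl
    refine ⟨0, ?_, le_refl _, fun _ => hv⟩
    rw [HH_zero_right hv]
    simp
  | succ k ih =>
    intro X hX hz
    have hk' : k ≤ 2 * s := by omega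
    have hne := uu_coord_ne h hk'
    set ξ : ℂ := X k (2 * s - k) 0 / uu s t k k (2 * s - k) 0 with hξ
    obtain ⟨r, hr, hr0, hr1⟩ := ih (by omega) (fun a b c => X a b c + (-ξ) * uu s t k a b c)
      (HW_lin hX (HW_uu h k) _) (by
        intro i hki hi
        rcases Nat.eq_or_lt_of_le hki with h4 | h4
        · rw [← h4, hξ]
          field_simp
          ring
        · rw [hz i (by omega) hi, uu_coord_zero k i (by omega) hi]
          ring)
    set Y : Arr := fun a b c => X a b c + (-ξ) * uu s t k a b c with hY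
    have hYW : HW s t Y := HW_lin hX (HW_uu h k) _
    have hYz : ∀ i, k ≤ i → i ≤ 2 * s → Y i (2 * s - i) 0 = 0 := by
      intro i hki hi
      simp only [hY]
      rcases Nat.eq_or_lt_of_le hki with h4 | h4
      · rw [← h4, hξ]
        field_simp
        ring
      · rw [hz i (by omega) hi, uu_coord_zero k i (by omega) hi]
        ring
    have o1 : HH (2 * s) (uu s t k) Y = 0 := HH_uu_zero h k Y hYW hYz
    have o2 : HH (2 * s) Y (uu s t k) = 0 := by rw [← HH_star, o1, star_zero]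
    have hXY : X = fun a b c => Y a b c + ξ * uu s t k a b c := by
      funext a b c
      simp only [hY]
      ring
    have hXX : HH (2 * s) X X = HH (2 * s) Y Y + (ξ * star ξ) * HH (2 * s) (uu s t k) (uu s t k) := by
      have e1 : HH (2 * s) X X = HH (2 * s) (fun a b c => Y a b c + ξ * uu s t k a b c)
          (fun a b c => Y a b c + ξ * uu s t k a b c) := by rw [← hXY]
      rw [e1, HH_self_add, o1, o2]
      ring
    rw [hr, HH_uu_self h hk'] at hXX
    have hq : 0 < ‖qf t k‖ := norm_pos_iff.mpr (qf_ne_zero h hk')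
    refine ⟨r + ‖ξ‖ ^ 2 * ‖qf t k‖ ^ 4, ?_, by positivity, ?_⟩
    · rw [hXX]
      have : ξ * star ξ = ((‖ξ‖ ^ 2 : ℝ) : ℂ) := by
        rw [← Complex.normSq_eq_norm_sq]
        exact Complex.mul_conj _
      rw [this]
      push_cast
      ring
    · intro h5
      have h6 : 0 ≤ ‖ξ‖ ^ 2 * ‖qf t k‖ ^ 4 := by positivity
      have h7 : r = 0 := by linarith
      have h8 : ‖ξ‖ ^ 2 * ‖qf t k‖ ^ 4 = 0 := by linarith
      have h9 : ξ = 0 := by
        rcases mul_eq_zero.mp h8 with h10 | h10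
        · exact norm_eq_zero.mp (pow_eq_zero_iff (by norm_num) |>.mp h10)
        · exact absurd h10 (by positivity)
      intro i j l hijl
      have := hr1 h7 i j l hijl
      rw [h9] at this
      simpa using this

/-- the form is positive definite on highest weight vectors -/
theorem HH_pos {X : Arr} (hX : HW s t X) :
    ∃ r : ℝ, HH (2 * s) X X = r ∧ 0 ≤ r ∧ (r = 0 → ∀ i j l, i + j + l = 2 * s → X i j l = 0) :=
  HH_pos_aux h (2 * s + 1) le_rfl X hX (fun i h1 h2 => by omega)

end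

end Pool.Agent.Work.MP_b30479_gt.TB
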