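import Pool.Agent.Work.MP_b30479_gt.TB.CommF
import Pool.Agent.Work.MP_b30479_gt.TB.Plat
import Pool.Agent.Work.MP_b30479_gt.TB.Pos

/-!
# Positivity for palindromic two-bridge links
-/

namespace Pool.Agent.Work.MP_b30479_gt.TB

open Finset

section
variable {s : ℕ} {u : ℂˣ} (h : IsPrimitiveRoot (u : ℂ) (2 * s + 1))
include h

lemma HH_op (g : Fin 2 × Bool) (X Y : Arr) :
    HH (2 * s) (op s u g X) Y = HH (2 * s) X (op s u (Fin.rev g.1, !g.2) Y) := by
  obtain ⟨g1, pos⟩ := g
  have hd := isDag_entry h (2 * s) le_rfl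
  fin_cases g1
  · cases pos
    · exact HH_L1 hd.symm X Y
    · exact HH_L1 hd X Y
  · cases pos
    · exact HH_L2 hd.symm X Y
    · exact HH_L2 hd X Y

lemma HH_opL (w : List (Fin 2 × Bool)) (X Y : Arr) :
    HH (2 * s) (opL s u w X) Y = HH (2 * s) X (opL s u (mirrorRev w) Y) := by
  induction w generalizing Y with
  | nil => rfl
  | cons g w ih =>
    have e1 : mirrorRev (g :: w) = mirrorRev w ++ [(Fin.rev g.1, !g.2)] := by
      unfold mirrorRev; simp
    rw [opL_cons, HH_op h, ih, e1, opL_append]
    rfl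

lemma HW_op (g : Fin 2 × Bool) {X : Arr} (hX : HW s u X) : HW s u (op s u g X) := by
  obtain ⟨g1, pos⟩ := g
  have hc : CommC s u (entry s u pos) := by
    cases pos
    · exact commC_false h
    · exact commC_true h
  fin_cases g1
  · exact HW_L1 hc hX
  · exact HW_L2 u.ne_zero hc hX

lemma HW_opL (w : List (Fin 2 × Bool)) {X : Arr} (hX : HW s u X) : HW s u (opL s u w X) := by
  induction w with
  | nil => exact hX
  | cons g w ih => exact HW_op h g ih

omit h in
lemma M_inj (pos : Bool) {m : ℕ} (Z : ℕ → ℕ → ℂ)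
    (hz : ∀ a b, a + b = m → M (entry s u pos) Z a b = 0) : ∀ i j, i + j = m → Z i j = 0 := by
  cases pos with
  | true =>
    have key : ∀ j i, i + j = m → Z i j = 0 := by
      intro j
      induction j using Nat.strong_induction_on with
      | _ j ih =>
        intro i hij
        have h1 := hz j i (by omega)
        unfold M at h1
        rw [Finset.sum_eq_single (i, j)] at h1
        · have e1 := entry_true s u i j 0 i (by omega)
          rw [Nat.add_zero] at e1
          simp only [e1, coeffPos_zero] at h1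
          rcases mul_eq_zero.mp h1 with h2 | h2
          · exact absurd h2 (zpow_ne_zero _ u.ne_zero)
          · exact h2
        · rintro ⟨a, b⟩ hp hne
          rw [mem_AD] at hp
          simp only at hp ⊢
          rcases lt_trichotomy b j with hb | hb | hb
          · rw [ih b hb a (by omega), mul_zero]
          · exfalso
            apply hne
            have : a = i := by omega
            rw [this, hb]
          · rw [entry_true_zero _ _ _ _ _ _ hb, zero_mul]
        · intro hc
          exact absurd (mem_AD.mpr (by simp only; omega)) hc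
    exact fun i j hij => key j i hij
  | false =>
    intro i
    induction i using Nat.strong_induction_on with
    | _ i ih =>
      intro j hij
      have h1 := hz j i (by omega)
      unfold M at h1
      rw [Finset.sum_eq_single (i, j)] at h1
      · have e1 := entry_false s u i j 0 j (by omega)
        rw [Nat.add_zero] at e1
        simp only [e1, coeffNeg_zero] at h1
        rcases mul_eq_zero.mp h1 with h2 | h2
        · exact absurd h2 (zpow_ne_zero _ u.ne_zero)
        · exact h2
      · rintro ⟨a, b⟩ hp hne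
        rw [mem_AD] at hp
        simp only at hp ⊢
        rcases lt_trichotomy a i with hb | hb | hb
        · rw [ih a hb b (by omega), mul_zero]
        · exfalso
          apply hne
          have : b = j := by omega
          rw [this, hb]
        · rw [entry_false_zero _ _ _ _ _ _ hb, zero_mul]
      · intro hc
        exact absurd (mem_AD.mpr (by simp only; omega)) hc

omit h in
lemma op_inj (g : Fin 2 × Bool) {S : ℕ} {X : Arr}
    (hz : ∀ i j k, i + j + k = S → op s u g X i j k = 0) : ∀ i j k, i + j + k = S → X i j k = 0 := by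
  obtain ⟨g1, pos⟩ := g
  intro i j k hijk
  fin_cases g1
  · exact M_inj pos (m := i + j) (fun a b => X a b k)
      (fun a b hab => hz a b k (by omega)) i j rfl
  · exact M_inj pos (m := j + k) (fun a b => X i a b)
      (fun a b hab => hz i a b (by omega)) j k rfl

omit h in
lemma opL_inj (w : List (Fin 2 × Bool)) {S : ℕ} {X : Arr}
    (hz : ∀ i j k, i + j + k = S → opL s u w X i j k = 0) :
    ∀ i j k, i + j + k = S → X i j k = 0 := by
  induction w with
  | nil => exact hz
  | cons g w ih => exact ih (op_inj g hz)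

lemma tangleValue_mirror (v w : List (Fin 2 × Bool)) :
    tangleValue s (mirrorRev v ++ w) u =
      HH (2 * s) (opL s u v (eta s u)) (opL s u w (eta s u)) := by
  rw [tangleValue_eq h, opL_append, ← HH_opL h]

/-- positivity -/
theorem tangleValue_pos (w : List (Fin 2 × Bool)) :
    ∃ r : ℝ, 0 < r ∧ tangleValue s (mirrorRev w ++ w) u = r := by
  rw [tangleValue_mirror h]
  obtain ⟨r, hr, hr0, hr1⟩ := HH_pos h (HW_opL h w (HW_eta h))
  refine ⟨r, lt_of_le_of_ne hr0 ?_, hr⟩
  intro h0
  have h2 := opL_inj w (hr1 h0.symm) 0 (2 * s) 0 (by omega)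
  unfold eta at h2
  rw [if_pos rfl] at h2
  exact pow_ne_zero _ u.ne_zero h2

end

/-! ### The writhe -/

lemma orientAfter_append (v w : List (Fin 2 × Bool)) (o : Fin 3 → ℤ) :
    orientAfter (v ++ w) o = orientAfter v (orientAfter w o) := by
  induction v with
  | nil => rfl
  | cons g v ih =>
    funext l
    show orientAfter (v ++ w) o _ = orientAfter v (orientAfter w o) _
    rw [ih]

lemma orientedWrithe_append (v w : List (Fin 2 × Bool)) (o : Fin 3 → ℤ) :
    orientedWrithe (v ++ w) o = orientedWrithe w o + orientedWrithe v (orientAfter w o) := by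
  induction v with
  | nil => simp [orientedWrithe]
  | cons g v ih =>
    show orientedWrithe (v ++ w) o + _ * (orientAfter (v ++ w) o _ * orientAfter (v ++ w) o _) =
      orientedWrithe w o + (orientedWrithe v (orientAfter w o) + _)
    rw [ih, orientAfter_append]
    ring

lemma orientAfter_perm (w : List (Fin 2 × Bool)) :
    ∃ π : Equiv.Perm (Fin 3), ∀ o, orientAfter w o = o ∘ π := by
  induction w with
  | nil => exact ⟨1, fun o => rfl⟩
  | cons g w ih =>
    obtain ⟨π, hπ⟩ := ih
    refine ⟨π * Equiv.swap g.1.castSucc g.1.succ, fun o => ?_⟩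
    funext l
    show orientAfter w o _ = _
    rw [hπ]
    rfl

lemma orientedWrithe_neg (w : List (Fin 2 × Bool)) (o : Fin 3 → ℤ) :
    orientedWrithe w (-o) = orientedWrithe w o := by
  have h1 : ∀ w : List (Fin 2 × Bool), orientAfter w (-o) = -orientAfter w o := by
    intro w
    obtain ⟨π, hπ⟩ := orientAfter_perm w
    rw [hπ, hπ]
    rfl
  induction w with
  | nil => rfl
  | cons g w ih =>
    show orientedWrithe w (-o) + _ * (orientAfter w (-o) _ * orientAfter w (-o) _) =
      orientedWrithe w o + _ * (orientAfter w o _ * orientAfter w o _)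
    rw [ih, h1]
    simp only [Pi.neg_apply]
    ring

/-- exchange of the positions `0` and `2` -/
def rv (o : Fin 3 → ℤ) : Fin 3 → ℤ := fun l => o (Fin.rev l)

lemma swap_rev (g : Fin 2) (m : Fin 3 → ℤ) (l : Fin 3) :
    m (Equiv.swap (Fin.rev g).castSucc (Fin.rev g).succ
      (Fin.rev (Equiv.swap g.castSucc g.succ l))) = m (Fin.rev l) := by
  fin_cases g <;> fin_cases l <;> rfl

lemma mirror_orient (w : List (Fin 2 × Bool)) : ∀ m : Fin 3 → ℤ,
    orientAfter w (rv (orientAfter (mirrorRev w) m)) = rv m ∧
    orientedWrithe (mirrorRev w) m = -orientedWrithe w (rv (orientAfter (mirrorRev w) m)) := by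
  induction w with
  | nil =>
    intro m
    exact ⟨rfl, rfl⟩
  | cons g w ih =>
    intro m
    have e1 : mirrorRev (g :: w) = mirrorRev w ++ [(Fin.rev g.1, !g.2)] := by
      unfold mirrorRev; simp
    rw [e1, orientAfter_append, orientedWrithe_append]
    set m' : Fin 3 → ℤ := orientAfter [(Fin.rev g.1, !g.2)] m with hm'
    have hm'2 : ∀ l, m' l = m (Equiv.swap (Fin.rev g.1).castSucc (Fin.rev g.1).succ l) :=
      fun l => rfl
    obtain ⟨ih1, ih2⟩ := ih m'
    have e2 : ∀ l, orientAfter w (rv (orientAfter (mirrorRev w) m')) l = m' (Fin.rev l) := by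
      intro l; rw [ih1]; rfl
    constructor
    · funext l
      show orientAfter w (rv (orientAfter (mirrorRev w) m')) (Equiv.swap g.1.castSucc g.1.succ l) =
        m (Fin.rev l)
      rw [e2, hm'2]
      exact swap_rev g.1 m l
    · rw [ih2]
      show (0 + (if (!g.2) = true then (1 : ℤ) else -1) * (m (Fin.rev g.1).castSucc *
        m (Fin.rev g.1).succ)) + _ = -(orientedWrithe w _ + (if g.2 then (1 : ℤ) else -1) *
        (orientAfter w (rv (orientAfter (mirrorRev w) m')) g.1.castSucc *
          orientAfter w (rv (orientAfter (mirrorRev w) m')) g.1.succ))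
      rw [e2, e2, hm'2, hm'2]
      obtain ⟨g1, pos⟩ := g
      fin_cases g1 <;> cases pos <;> simp [Fin.rev] <;> ring

lemma knot_perm : ∀ π : Equiv.Perm (Fin 3), ∀ δ : ℤ, (δ = 1 ∨ δ = -1) →
    (![1, δ, -δ] : Fin 3 → ℤ) (π (Fin.rev (π.symm (Fin.rev 2)))) = 1 →
    ¬ ((![1, 1, -1] : Fin 3 → ℤ) (π (Fin.rev (π.symm (Fin.rev 2)))) = 1 ∧
      (![1, -1, - -1] : Fin 3 → ℤ) (π (Fin.rev (π.symm (Fin.rev 2)))) = 1) →
    ∀ l, (![1, δ, -δ] : Fin 3 → ℤ) (π (Fin.rev (π.symm l))) = (![1, δ, -δ] : Fin 3 → ℤ) l := by
  intro π δ hδ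
  rcases hδ with rfl | rfl
  · revert π
    decide
  · revert π
    decide

/-- for knots the writhe of the palindromic diagram vanishes -/
theorem writhe_zero (w : List (Fin 2 × Bool)) {δ : ℤ}
    (hδ : IsOrientation (mirrorRev w ++ w) δ) (hk : IsTwoBridgeKnot (mirrorRev w ++ w)) :
    orientedWrithe (mirrorRev w ++ w) ![1, δ, -δ] = 0 := by
  obtain ⟨π, hπ⟩ := orientAfter_perm w
  -- the top state
  have top : ∀ o : Fin 3 → ℤ, rv (orientAfter (mirrorRev w ++ w) o) =
      fun l => o (π (Fin.rev (π.symm l))) := by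
    intro o
    obtain ⟨h1, _⟩ := mirror_orient w (orientAfter w o)
    rw [hπ, hπ] at h1
    rw [orientAfter_append, hπ]
    funext l
    have h2 := congrFun h1 (π.symm l)
    simp only [Function.comp_apply, Equiv.apply_symm_apply] at h2
    rw [h2]
    rfl
  have top2 : ∀ o : Fin 3 → ℤ, orientAfter (mirrorRev w ++ w) o 2 =
      o (π (Fin.rev (π.symm (Fin.rev 2)))) := by
    intro o
    have := congrFun (top o) (Fin.rev 2)
    rw [← this]
    rfl
  obtain ⟨hδ1, hδ2⟩ := hδ
  rw [top2] at hδ2
  have hk' : ¬ ((![1, 1, -1] : Fin 3 → ℤ) (π (Fin.rev (π.symm (Fin.rev 2)))) = 1 ∧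
      (![1, -1, - -1] : Fin 3 → ℤ) (π (Fin.rev (π.symm (Fin.rev 2)))) = 1) := by
    intro hc
    apply hk
    refine ⟨⟨Or.inl rfl, ?_⟩, ⟨Or.inr rfl, ?_⟩⟩
    · rw [top2]; exact hc.1
    · rw [top2]; exact hc.2
  have h3 := knot_perm π δ hδ1 hδ2 hk'
  have h4 : rv (orientAfter (mirrorRev w ++ w) ![1, δ, -δ]) = ![1, δ, -δ] := by
    rw [top]
    funext l
    exact h3 l
  rw [orientAfter_append] at h4
  rw [orientedWrithe_append, (mirror_orient w _).2, h4]
  ring

end Pool.Agent.Work.MP_b30479_gt.TB
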