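import Pool.Agent.Work.MP_b30479_gt.TB.Asym
import Pool.Agent.Work.MP_b30479_gt.TB.Lob2

/-!
# Estimates on the mesh
-/

namespace Pool.Agent.Work.MP_b30479_gt.TB

open Finset Pool.Agent.Work.MP_b30479_gt.Lob

lemma norm_one_sub_tt' (s j : ℕ) : ‖1 - tt s ^ j‖ = |2 * Real.sin (j * hh s)| := by
  have e1 : tt s ^ j = Complex.exp (Complex.I * ((2 * (j * hh s) : ℝ) : ℂ)) := by
    unfold tt hh
    rw [← Complex.exp_nat_mul]
    congr 1
    push_cast
    field_simp
  rw [e1, norm_sub_rev, Complex.norm_exp_I_mul_ofReal_sub_one,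
    show 2 * (j * hh s) / 2 = j * hh s by ring, Real.norm_eq_abs]

lemma norm_tt (s : ℕ) : ‖tt s‖ = 1 := (tt_prim s).norm'_eq_one (by omega)

lemma hh_nat (s : ℕ) : ((2 * s + 1 : ℕ) : ℝ) * hh s = Real.pi := by
  have := hh_mul s
  push_cast
  exact this

/-- the factor of index `n` is dropped -/
noncomputable def ww (s x : ℕ) : ℝ := if x = 2 * s + 1 then 1 else ‖1 - tt s ^ x‖

lemma tt_pow_add (s x : ℕ) : tt s ^ (2 * s + 1 + x) = tt s ^ x := by
  rw [pow_add, (tt_prim s).pow_eq_one, one_mul]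

section
variable {s : ℕ} (hs : 1 ≤ s)
include hs

lemma mesh_lower {x : ℕ} (h0 : 1 ≤ x) (h1 : x ≤ 2 * s) :
    4 / (2 * s + 1 : ℝ) ≤ ‖1 - tt s ^ x‖ := by
  have hp := hh_pos s
  have h3 := hh_le hs
  have hpi := Real.pi_pos
  rw [norm_one_sub_tt s x (by omega)]
  have hx0 : (1 : ℝ) ≤ x := by exact_mod_cast h0
  have e1 : Real.sin (hh s) ≤ Real.sin (x * hh s) := by
    rcases le_total (x * hh s) (Real.pi / 2) with h5 | h5
    · exact Real.sin_le_sin_of_le_of_le_pi_div_two (by linarith only [hp, h3]) h5 (by nlinarith only [hp, hx0])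
    · rw [← Real.sin_pi_sub (x * hh s)]
      apply Real.sin_le_sin_of_le_of_le_pi_div_two (by linarith only [hp, h3]) (by linarith only [h5])
      have : (x : ℝ) ≤ ((2 * s : ℕ) : ℝ) := by exact_mod_cast h1
      push_cast at this
      have h6 := hh_mul s
      nlinarith only [h6, hp, this]
  have e2 := Real.mul_le_sin hp.le (by linarith only [hp, h3])
  have e3 : 2 / Real.pi * hh s = 2 / (2 * (s : ℝ) + 1) := by
    unfold hh
    field_simp
  rw [e3] at e2
  have e4 : 4 / (2 * (s : ℝ) + 1) = 2 * (2 / (2 * (s : ℝ) + 1)) := by ring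
  rw [e4]
  linarith only [e1, e2]

lemma mesh_lower' {x : ℕ} (h0 : 1 ≤ x) (h1 : x ≤ 4 * s + 1) (hx : x ≠ 2 * s + 1) :
    4 / (2 * s + 1 : ℝ) ≤ ‖1 - tt s ^ x‖ := by
  rcases lt_or_gt_of_ne hx with h2 | h2
  · exact mesh_lower hs h0 (by omega)
  · obtain ⟨y, rfl⟩ : ∃ y, x = 2 * s + 1 + y := ⟨x - (2 * s + 1), by omega⟩
    rw [tt_pow_add]
    exact mesh_lower hs (by omega) (by omega)

lemma ww_pos {x : ℕ} (h0 : 1 ≤ x) (h1 : x ≤ 4 * s + 1) : 0 < ww s x := by
  unfold ww
  split_ifs with h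
  · exact one_pos
  · have := mesh_lower' hs h0 h1 h
    have h2 : (0 : ℝ) < 4 / (2 * s + 1) := by positivity
    linarith only [this, h2]

lemma exp_ff {y : ℕ} (h0 : 1 ≤ y) (h1 : y ≤ 4 * s + 1) : Real.exp (ff (y * hh s)) = ww s y := by
  unfold ww ff
  split_ifs with h
  · rw [h, hh_nat, Real.sin_pi, mul_zero, Real.log_zero, Real.exp_zero]
  · have h2 := mesh_lower' hs h0 h1 h
    have h3 : (0 : ℝ) < 4 / (2 * s + 1) := by positivity
    rw [norm_one_sub_tt'] at h2 ⊢
    rw [← Real.log_abs, Real.exp_log (by linarith only [h2, h3])]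

lemma ff_mesh {y : ℕ} (h0 : 1 ≤ y) (h1 : y ≤ 4 * s + 1) : -Real.log (2 * s + 1) ≤ ff (y * hh s) := by
  have h2 := exp_ff hs h0 h1
  have h4 : (1 : ℝ) ≤ 2 * s + 1 := by
    have : (0 : ℝ) ≤ s := Nat.cast_nonneg s
    linarith only []
  have h3 : (2 * s + 1 : ℝ)⁻¹ ≤ ww s y := by
    unfold ww
    split_ifs with h
    · exact inv_le_one_of_one_le₀ h4
    · have h5 := mesh_lower' hs h0 h1 h
      have h6 : (2 * s + 1 : ℝ)⁻¹ ≤ 4 / (2 * s + 1) := by
        rw [div_eq_mul_inv]
        have : (0 : ℝ) < (2 * s + 1 : ℝ)⁻¹ := by positivity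
        linarith only [this]
      linarith only [h5, h6]
  rw [← h2] at h3
  have h7 := Real.log_le_log (by positivity) h3
  rwa [Real.log_exp, Real.log_inv] at h7

omit hs in
lemma log_n_nonneg (s : ℕ) : (0 : ℝ) ≤ Real.log (2 * s + 1) := Real.log_nonneg (by
  have : (0 : ℝ) ≤ s := Nat.cast_nonneg s
  linarith only [])

/-- lower Riemann sum at the integer point -/
lemma SS_ge' {m : ℕ} (hm : m ≤ 2 * s) :
    LF (m * hh s) - hh s * Real.log (2 * s + 1) ≤ hh s * SS (hh s) m := by
  have hp := hh_pos s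
  have hpi := Real.pi_pos
  have hl := log_n_nonneg s
  rcases Nat.eq_zero_or_pos m with rfl | hm0
  · simp only [SS, Finset.range_zero, Finset.sum_empty, mul_zero, Nat.cast_zero, zero_mul, LF_zero,
      zero_sub]
    have := mul_nonneg hp.le hl
    linarith only [this]
  · have h1 := SS_ge hs hm
    have hm1 : (1 : ℝ) ≤ m := by exact_mod_cast hm0
    have hm2 : (m : ℝ) ≤ ((2 * s : ℕ) : ℝ) := by exact_mod_cast hm
    push_cast at hm2
    have hmul := hh_mul s
    have h2 := trapezoid (a := m * hh s) (b := (m + 1 / 2) * hh s) (by positivity)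
      (by nlinarith only [hp]) (by rw [← hmul]; nlinarith only [hp, hm2])
    rw [← LF_sub] at h2
    have h3 := ff_mesh hs hm0 (by omega)
    have h4 : -Real.log (2 * s + 1) ≤ ff ((m + 1 / 2) * hh s) := by
      unfold ff
      rw [← Real.log_inv]
      apply Real.log_le_log (by positivity)
      have e1 : Real.sin (hh s / 2) ≤ Real.sin ((m + 1 / 2) * hh s) := by
        have h3 := hh_le hs
        rcases le_total ((m + 1 / 2) * hh s) (Real.pi / 2) with h5 | h5
        · exact Real.sin_le_sin_of_le_of_le_pi_div_two (by linarith only [hp, h3]) h5 (by nlinarith only [hp])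
        · rw [← Real.sin_pi_sub ((m + 1 / 2) * hh s)]
          apply Real.sin_le_sin_of_le_of_le_pi_div_two (by linarith only [hp, h3]) (by linarith only [h5])
          nlinarith only [hmul, hp, hm2]
      have e2 := Real.mul_le_sin (x := hh s / 2) (by linarith only [hp]) (by linarith only [hpi, hs, hh_le hs])
      have e3 : 2 / Real.pi * (hh s / 2) = (2 * (s : ℝ) + 1)⁻¹ := by
        unfold hh
        field_simp
      have e4 : (0 : ℝ) < (2 * (s : ℝ) + 1)⁻¹ := by positivity
      rw [e3] at e2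
      linarith only [e1, e2, e4]
    have h5 := mul_le_mul_of_nonneg_left h3 hp.le
    have h6 := mul_le_mul_of_nonneg_left h4 hp.le
    have h7 : 2 * (LF ((m + 1 / 2) * hh s) - LF (m * hh s)) ≥
        -(hh s * Real.log (2 * s + 1)) := by
      have e5 : (m + 1 / 2) * hh s - m * hh s = hh s / 2 := by ring
      rw [e5] at h2
      linarith only [h2, h5, h6]
    have h8 := mul_nonneg hp.le hl
    linarith only [h1, h2, h5, h6, h8]

/-- shift by `n` -/
lemma SS_shift {x : ℕ} (hx : x ≤ 2 * s) :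
    SS (hh s) (2 * s + 1 + x) = Real.log (2 * s + 1) + SS (hh s) x := by
  induction x with
  | zero =>
    rw [Nat.add_zero, SS_succ]
    have e1 : ff (((2 * s : ℕ) + 1) * hh s) = 0 := by
      have := hh_nat s
      push_cast at this ⊢
      unfold ff
      rw [this, Real.sin_pi, mul_zero, Real.log_zero]
    rw [e1, add_zero]
    have h1 := norm_qf_eq (s := s) (m := 2 * s) le_rfl
    rw [qf_top (tt_prim s)] at h1
    have h2 : ‖(2 * s + 1 : ℂ)‖ = 2 * s + 1 := by
      have : ((2 * s + 1 : ℕ) : ℂ) = 2 * s + 1 := by push_cast; ring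
      rw [← this, Complex.norm_natCast]
      push_cast; ring
    rw [h2] at h1
    rw [h1, Real.log_exp]
    simp [SS]
  | succ x ih =>
    rw [← Nat.add_assoc, SS_succ, ih (by omega), SS_succ]
    have e1 : ff (((2 * s + 1 + x : ℕ) + 1) * hh s) = ff ((x + 1) * hh s) := by
      rw [← ff_add_pi ((x + 1) * hh s), ← hh_nat s]
      congr 1
      push_cast
      ring
    rw [e1]
    ring

/-- two-sided comparison -/
lemma SS_two {x : ℕ} (hx : x ≤ 4 * s + 1) :
    LF (x * hh s) - hh s * (1 + Real.log 2 + 2 * Real.log (2 * s + 1)) ≤ hh s * SS (hh s) x ∧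
    hh s * SS (hh s) x ≤ LF (x * hh s) + hh s * (1 + Real.log 2 + 2 * Real.log (2 * s + 1)) := by
  have hp := hh_pos s
  have hl := mul_nonneg hp.le (log_n_nonneg s)
  have hl2 : (0 : ℝ) ≤ hh s * Real.log 2 := mul_nonneg hp.le (Real.log_nonneg (by norm_num))
  rcases Nat.lt_or_ge x (2 * s + 1) with h1 | h1
  · have h2 := SS_le hs (m := x) (by omega)
    have h3 := SS_ge' hs (m := x) (by omega)
    constructor <;> nlinarith only [hp, hl, hl2, h3, h2]
  · obtain ⟨y, rfl⟩ : ∃ y, x = 2 * s + 1 + y := ⟨x - (2 * s + 1), by omega⟩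
    have h2 := SS_le hs (m := y) (by omega)
    have h3 := SS_ge' hs (m := y) (by omega)
    rw [SS_shift hs (by omega)]
    have e1 : LF (((2 * s + 1 + y : ℕ) : ℝ) * hh s) = LF (y * hh s) := by
      rw [← LF_add_pi (y * hh s), ← hh_nat s]
      congr 1
      push_cast
      ring
    rw [e1]
    constructor <;> nlinarith only [hp, hl, hl2, h3, h2]

/-- the exponent -/
lemma E_le {i j k : ℕ} (hji : j ≤ i) (hik : i ≤ k) (hk : k ≤ 2 * s) :
    hh s * (2 * SS (hh s) k - 2 * SS (hh s) j - SS (hh s) (i - j) - SS (hh s) (k - i) -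
      SS (hh s) (i + k + 1) + SS (hh s) (i + j)) ≤
      (LF (i * hh s + j * hh s) - LF (i * hh s - j * hh s) - 2 * LF (j * hh s)) +
      -4 * LF (Real.pi / 4) + hh s * (9 * (1 + Real.log 2 + 2 * Real.log (2 * s + 1))) := by
  have hp := hh_pos s
  have hl := mul_nonneg hp.le (log_n_nonneg s)
  have hl2 : (0 : ℝ) ≤ hh s * Real.log 2 := mul_nonneg hp.le (Real.log_nonneg (by norm_num))
  have h1 := (SS_two hs (x := k) (by omega)).2
  have h2 := (SS_two hs (x := j) (by omega)).1
  have h3 := (SS_two hs (x := i - j) (by omega)).1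
  have h4 := (SS_two hs (x := k - i) (by omega)).1
  have h5 := (SS_two hs (x := i + k) (by omega)).1
  have h6 := (SS_two hs (x := i + j) (by omega)).2
  have h7 := ff_mesh hs (y := i + k + 1) (by omega) (by omega)
  have e7 : SS (hh s) (i + k + 1) = SS (hh s) (i + k) + ff ((i + k + 1 : ℕ) * hh s) := by
    rw [SS_succ]
    push_cast
    rfl
  rw [e7]
  have h8 := mul_le_mul_of_nonneg_left h7 hp.le
  have c1 : ((i - j : ℕ) : ℝ) = i - j := Nat.cast_sub hji
  have c2 : ((k - i : ℕ) : ℝ) = k - i := Nat.cast_sub hik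
  rw [c1, sub_mul] at h3
  rw [c2, sub_mul] at h4
  push_cast at h5 h6
  rw [add_mul] at h5 h6
  have hmul := hh_nat s
  have bi : (i : ℝ) * hh s ≤ Real.pi := by
    rw [← hmul]
    apply mul_le_mul_of_nonneg_right _ hp.le
    exact_mod_cast (show i ≤ 2 * s + 1 by omega)
  have bk : (k : ℝ) * hh s ≤ Real.pi := by
    rw [← hmul]
    apply mul_le_mul_of_nonneg_right _ hp.le
    exact_mod_cast (show k ≤ 2 * s + 1 by omega)
  have h9 := P_le (i := i * hh s) (k := k * hh s) (by positivity) bi (by positivity) bk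
  rw [add_comm ((k : ℝ) * hh s)] at h9
  nlinarith only [hp, hl, hl2, h1, h2, h3, h4, h8, h5, h6, h9]

end

end Pool.Agent.Work.MP_b30479_gt.TB
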