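import Pool.Agent.Work.MP_b30479_gt.TB.Defo
import Pool.Agent.Work.MP_b30479_gt.TB.Mesh

/-!
# Bound for the matrix entries of the powers of the braiding
-/

namespace Pool.Agent.Work.MP_b30479_gt.TB

open Finset Pool.Agent.Work.MP_b30479_gt.Lob

/-- radius -/
noncomputable def rr (s m : ℕ) : ℝ := 1 / ((2 * s + 1) ^ 2 * (m + 1))

lemma rr_pos (s m : ℕ) : 0 < rr s m := by unfold rr; positivity

lemma n_ge_one (s : ℕ) : (1 : ℝ) ≤ 2 * s + 1 := by
  have : (0 : ℝ) ≤ s := Nat.cast_nonneg s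
  linarith only []

lemma rr_le (s m : ℕ) : rr s m ≤ 1 / (2 * s + 1) ^ 2 := by
  unfold rr
  apply div_le_div_of_nonneg_left zero_le_one (by positivity)
  have : (1 : ℝ) ≤ m + 1 := by
    have : (0 : ℝ) ≤ m := Nat.cast_nonneg m
    linarith only []
  nlinarith only [sq_nonneg ((2 * s + 1 : ℝ))]

lemma rr_le_one (s m : ℕ) : rr s m ≤ 1 := by
  refine (rr_le s m).trans ?_
  rw [div_le_one (by positivity)]
  exact one_le_pow₀ (n_ge_one s)

lemma rr_lt (s m : ℕ) : rr s m < 4 / (2 * s + 1) := by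
  have hn := n_ge_one s
  refine lt_of_le_of_lt (rr_le s m) ?_
  rw [div_lt_div_iff₀ (by positivity) (by positivity)]
  nlinarith only []

lemma norm_cz {s : ℕ} {t : ℂ} (ht : ‖t‖ = 1) (z : ℂ) (i l : ℕ) :
    ‖cz s t z i - cz s t z l‖ = ‖1 - t ^ ((i - l) + (l - i))‖ * ‖1 - z ^ 2 * t ^ (i + l + 1)‖ := by
  have h0 : t ≠ 0 := by rintro rfl; simp at ht
  have key : ∀ i l, l ≤ i → ‖cz s t z i - cz s t z l‖ =
      ‖1 - t ^ (i - l)‖ * ‖1 - z ^ 2 * t ^ (i + l + 1)‖ := by
    intro i l hl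
    obtain ⟨d, rfl⟩ : ∃ d, i = l + d := ⟨i - l, by omega⟩
    have e1 : cz s t z (l + d) - cz s t z l = t ^ s * t⁻¹ ^ (l + d) * ((1 - t ^ (l + d - l)) *
        (1 - z ^ 2 * t ^ (l + d + l + 1))) := by
      unfold cz
      rw [Nat.add_sub_cancel_left]
      have n1 : t ^ l ≠ 0 := pow_ne_zero _ h0
      have n2 : t ^ d ≠ 0 := pow_ne_zero _ h0
      simp only [pow_add, inv_pow, pow_one]
      field_simp
      ring
    rw [e1, norm_mul, norm_mul, norm_mul, norm_pow, norm_pow, norm_inv, ht]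
    simp
  rcases le_total l i with h1 | h1
  · rw [key i l h1, show l - i = 0 by omega, add_zero]
  · rw [norm_sub_rev, key l i h1, show i - l = 0 by omega, zero_add, add_comm l i]

section
variable {s : ℕ} (hs : 1 ≤ s)
include hs

omit hs in
lemma norm_zt {m : ℕ} {z : ℂ} (hz : ‖z - 1‖ ≤ rr s m) (x : ℕ) :
    ‖1 - tt s ^ x‖ - rr s m ≤ ‖1 - z * tt s ^ x‖ := by
  have e1 : 1 - z * tt s ^ x = (1 - tt s ^ x) - (z - 1) * tt s ^ x := by ring
  rw [e1]
  have h1 := norm_sub_norm_le (1 - tt s ^ x) ((z - 1) * tt s ^ x)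
  have h2 : ‖(z - 1) * tt s ^ x‖ = ‖z - 1‖ := by
    rw [norm_mul, norm_pow, norm_tt, one_pow, mul_one]
  rw [h2] at h1
  linarith only [hz, h1]

lemma ne_zt {m : ℕ} {z : ℂ} (hz : ‖z - 1‖ ≤ rr s m) : ∀ l, 1 ≤ l → l ≤ 2 * s →
    1 - z * tt s ^ l ≠ 0 := by
  intro l h0 h1 hc
  have h2 := norm_zt hz l
  rw [hc, norm_zero] at h2
  have h3 := mesh_lower hs h0 h1
  have h4 := rr_lt s m
  linarith only [h2, h3, h4]

/-- `ρ` -/
noncomputable def rho (s m x : ℕ) : ℝ := if x = 2 * s + 1 then rr s m else 1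

lemma norm_zzt {m : ℕ} {z : ℂ} (hz : ‖z - 1‖ = rr s m) {x : ℕ} (h0 : 1 ≤ x)
    (h1 : x ≤ 4 * s + 1) :
    ww s x * (1 - 1 / (2 * s + 1)) * rho s m x ≤ ‖1 - z ^ 2 * tt s ^ x‖ := by
  have hr := rr_pos s m
  have hr1 := rr_le_one s m
  have hr2 := rr_le s m
  have hn := n_ge_one s
  have hq : (0 : ℝ) ≤ 1 / (2 * s + 1) := by positivity
  have hz1 : ‖z + 1‖ ≤ 3 := by
    have e1 : z + 1 = (z - 1) + 2 := by ring
    rw [e1]
    have := norm_add_le (z - 1) (2 : ℂ)
    rw [hz] at this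
    have h2 : ‖(2 : ℂ)‖ = 2 := by simp
    linarith only [hr1, this, h2]
  by_cases hx : x = 2 * s + 1
  · unfold ww rho
    rw [if_pos hx, if_pos hx, hx, (tt_prim s).pow_eq_one, mul_one]
    have e1 : 1 - z ^ 2 = -((z - 1) * (z + 1)) := by ring
    rw [e1, norm_neg, norm_mul, hz]
    have h2 : 1 ≤ ‖z + 1‖ := by
      have e2 : z + 1 = 2 - (1 - z) := by ring
      rw [e2]
      have := norm_sub_norm_le (2 : ℂ) (1 - z)
      have h3 : ‖(2 : ℂ)‖ = 2 := by simp
      rw [norm_sub_rev 1 z, hz] at this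
      linarith only [hr1, this, h3]
    calc 1 * (1 - 1 / (2 * s + 1)) * rr s m ≤ rr s m := by nlinarith only [hr, hq]
      _ ≤ rr s m * ‖z + 1‖ := by nlinarith only [hr, h2]
  · have h2 := mesh_lower' hs h0 h1 hx
    unfold ww rho
    rw [if_neg hx, if_neg hx, mul_one]
    have e1 : 1 - z ^ 2 * tt s ^ x = (1 - tt s ^ x) - (z - 1) * (z + 1) * tt s ^ x := by ring
    rw [e1]
    have h3 := norm_sub_norm_le (1 - tt s ^ x) ((z - 1) * (z + 1) * tt s ^ x)
    have h4 : ‖(z - 1) * (z + 1) * tt s ^ x‖ ≤ 3 * rr s m := by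
      rw [norm_mul, norm_mul, norm_pow, norm_tt, one_pow, mul_one, hz]
      nlinarith only [hr, hz1]
    have h5 : 3 * rr s m ≤ 1 / (2 * s + 1) * ‖1 - tt s ^ x‖ := by
      have h6 : 1 / (2 * s + 1) * (4 / (2 * s + 1)) ≤ 1 / (2 * s + 1) * ‖1 - tt s ^ x‖ :=
        mul_le_mul_of_nonneg_left h2 hq
      have h7 : 1 / (2 * s + 1 : ℝ) * (4 / (2 * s + 1)) = 4 * (1 / (2 * s + 1) ^ 2) := by
        field_simp
      rw [h7] at h6
      linarith only [hr, hr2, h6]
    linarith only [h3, h4, h5]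

omit hs in
lemma prod_erase_split {j i k : ℕ} (hji : j ≤ i) (hik : i ≤ k) (f : ℕ → ℝ) :
    ∏ l ∈ (Icc j k).erase i, f l = (∏ l ∈ Ico j i, f l) * ∏ l ∈ Ico (i + 1) (k + 1), f l := by
  rw [← Finset.prod_union]
  · congr 1
    ext x
    simp only [Finset.mem_erase, Finset.mem_Icc, Finset.mem_union, Finset.mem_Ico]
    omega
  · rw [Finset.disjoint_left]
    intro x hx hx2
    rw [Finset.mem_Ico] at hx hx2
    omega

omit hs in
lemma prod_qf_left {j i : ℕ} (hji : j ≤ i) :
    ∏ l ∈ Ico j i, ‖1 - tt s ^ ((i - l) + (l - i))‖ = ‖qf (tt s) (i - j)‖ := by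
  rw [Finset.prod_Ico_eq_prod_range, ← Finset.prod_range_reflect]
  unfold qf
  rw [norm_prod]
  apply Finset.prod_congr rfl
  intro x hx
  rw [mem_range] at hx
  congr 3
  omega

omit hs in
lemma prod_qf_right {i k : ℕ} (hik : i ≤ k) :
    ∏ l ∈ Ico (i + 1) (k + 1), ‖1 - tt s ^ ((i - l) + (l - i))‖ = ‖qf (tt s) (k - i)‖ := by
  rw [Finset.prod_Ico_eq_prod_range, show k + 1 - (i + 1) = k - i by omega]
  unfold qf
  rw [norm_prod]
  apply Finset.prod_congr rfl
  intro x hx
  congr 3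
  omega

lemma prod_ww {i a b : ℕ} (hab : a ≤ b) (hib : i + b ≤ 4 * s + 1) :
    ∏ l ∈ Ico a b, ww s (i + l + 1) = Real.exp (SS (hh s) (i + b) - SS (hh s) (i + a)) := by
  obtain ⟨d, rfl⟩ : ∃ d, b = a + d := ⟨b - a, by omega⟩
  induction d with
  | zero => simp
  | succ d ih =>
    rw [← Nat.add_assoc, Finset.prod_Ico_succ_top (by omega), ih (by omega) (by omega),
      ← exp_ff hs (by omega) (by omega), ← Real.exp_add]
    congr 1
    rw [show i + (a + d + 1) = (i + (a + d)) + 1 by ring, SS_succ]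
    push_cast
    ring

/-- lower bound of the denominators -/
lemma den_lower {m : ℕ} {z : ℂ} (hz : ‖z - 1‖ = rr s m) {j i k : ℕ} (hji : j ≤ i) (hik : i ≤ k)
    (hk : k ≤ 2 * s) :
    Real.exp (SS (hh s) (i - j) + SS (hh s) (k - i) + SS (hh s) (i + k + 1) -
      SS (hh s) (i + j)) * (rr s m / (2 * Real.exp 1)) ≤
      ∏ l ∈ (Icc j k).erase i, ‖cz s (tt s) z i - cz s (tt s) z l‖ := by
  have hr := rr_pos s m
  have hr1 := rr_le_one s m
  have hn := n_ge_one s
  set q : ℝ := 1 - 1 / (2 * s + 1) with hq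
  have hq0 : 0 < q := by
    have h1 : (1 : ℝ) / (2 * s + 1) < 1 := by
      rw [div_lt_one (by positivity)]
      have : (1 : ℝ) ≤ s := by exact_mod_cast hs
      linarith only [this]
    rw [hq]; linarith only [h1]
  have hq1 : q ≤ 1 := by
    have : (0 : ℝ) ≤ 1 / (2 * s + 1) := by positivity
    rw [hq]; linarith only [this]
  have h1 : ∏ l ∈ (Icc j k).erase i, (‖1 - tt s ^ ((i - l) + (l - i))‖ *
      (ww s (i + l + 1) * q * rho s m (i + l + 1))) ≤
      ∏ l ∈ (Icc j k).erase i, ‖cz s (tt s) z i - cz s (tt s) z l‖ := by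
    apply Finset.prod_le_prod
    · intro l hl
      rw [Finset.mem_erase, Finset.mem_Icc] at hl
      have h2 := (ww_pos hs (x := i + l + 1) (by omega) (by omega)).le
      have h3 : 0 ≤ rho s m (i + l + 1) := by
        unfold rho
        split_ifs
        · exact hr.le
        · exact zero_le_one
      positivity
    · intro l hl
      rw [Finset.mem_erase, Finset.mem_Icc] at hl
      rw [norm_cz (norm_tt s)]
      apply mul_le_mul_of_nonneg_left _ (norm_nonneg _)
      exact norm_zzt hs hz (by omega) (by omega)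
  refine le_trans ?_ h1
  rw [Finset.prod_mul_distrib, Finset.prod_mul_distrib, Finset.prod_mul_distrib,
    Finset.prod_const]
  -- the four factors
  have f1 : ∏ l ∈ (Icc j k).erase i, ‖1 - tt s ^ ((i - l) + (l - i))‖ =
      Real.exp (SS (hh s) (i - j) + SS (hh s) (k - i)) := by
    rw [prod_erase_split hji hik, prod_qf_left hji, prod_qf_right hik,
      norm_qf_eq (by omega), norm_qf_eq (by omega), ← Real.exp_add]
  have f2 : Real.exp (SS (hh s) (i + k + 1) - SS (hh s) (i + j)) / 2 ≤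
      ∏ l ∈ (Icc j k).erase i, ww s (i + l + 1) := by
    rw [prod_erase_split hji hik, prod_ww hs hji (by omega), prod_ww hs (by omega) (by omega),
      ← Real.exp_add]
    have e1 : SS (hh s) (i + (i + 1)) = SS (hh s) (i + i) + ff ((i + i + 1 : ℕ) * hh s) := by
      rw [show i + (i + 1) = (i + i) + 1 by ring, SS_succ]
      push_cast
      rfl
    rw [e1, div_le_iff₀ two_pos]
    have e2 : Real.exp (SS (hh s) (i + i) - SS (hh s) (i + j) + (SS (hh s) (i + (k + 1)) -
        (SS (hh s) (i + i) + ff ((i + i + 1 : ℕ) * hh s)))) * 2 =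
        Real.exp (SS (hh s) (i + k + 1) - SS (hh s) (i + j)) *
          (2 * Real.exp (-ff ((i + i + 1 : ℕ) * hh s))) := by
      rw [mul_comm (2 : ℝ), ← mul_assoc, ← Real.exp_add]
      congr 2
      rw [show i + (k + 1) = i + k + 1 by ring]
      ring
    rw [e2]
    have e3 : 1 ≤ 2 * Real.exp (-ff ((i + i + 1 : ℕ) * hh s)) := by
      have h5 := ff_le ((i + i + 1 : ℕ) * hh s)
      have h6 : Real.exp (-Real.log 2) ≤ Real.exp (-ff ((i + i + 1 : ℕ) * hh s)) :=
        Real.exp_le_exp.mpr (by linarith only [h5])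
      rw [Real.exp_neg, Real.exp_log two_pos] at h6
      linarith only [h6]
    exact le_mul_of_one_le_right (Real.exp_pos _).le e3
  have f3 : (Real.exp 1)⁻¹ ≤ q ^ ((Icc j k).erase i).card := by
    have hcard : ((Icc j k).erase i).card ≤ 2 * s := by
      rw [Finset.card_erase_of_mem (Finset.mem_Icc.mpr ⟨hji, hik⟩), Nat.card_Icc]
      omega
    have h5 : q ^ (2 * s) ≤ q ^ ((Icc j k).erase i).card :=
      pow_le_pow_of_le_one hq0.le hq1 hcard
    refine le_trans ?_ h5
    have hs0 : (0 : ℝ) < 2 * s := by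
      have : (1 : ℝ) ≤ s := by exact_mod_cast hs
      linarith only [this]
    have e1 : q = (1 + 1 / (2 * s : ℝ))⁻¹ := by
      rw [hq]
      field_simp
      ring
    have e2 : (1 + 1 / (2 * s : ℝ)) ^ (2 * s) ≤ Real.exp 1 := by
      have h6 : (1 + 1 / (2 * s : ℝ)) ≤ Real.exp (1 / (2 * s)) := by
        have := Real.add_one_le_exp (1 / (2 * s : ℝ))
        linarith only [this]
      have h7 := pow_le_pow_left₀ (by positivity) h6 (2 * s)
      rw [← Real.exp_nat_mul] at h7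
      have e3 : ((2 * s : ℕ) : ℝ) * (1 / (2 * s)) = 1 := by
        push_cast
        field_simp
      rwa [e3] at h7
    rw [e1, inv_pow]
    exact inv_anti₀ (by positivity) e2
  have f4 : rr s m ≤ ∏ l ∈ (Icc j k).erase i, rho s m (i + l + 1) := by
    have e1 : ∏ l ∈ (Icc j k).erase i, rho s m (i + l + 1) =
        ∏ l ∈ (Icc j k).erase i, (if l = 2 * s - i then rr s m else 1) := by
      apply Finset.prod_congr rfl
      intro l hl
      unfold rho
      by_cases h5 : l = 2 * s - i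
      · rw [if_pos h5, if_pos (by omega)]
      · rw [if_neg h5, if_neg (by omega)]
    rw [e1, Finset.prod_ite_eq']
    split_ifs
    · exact le_rfl
    · exact hr1
  rw [f1]
  have g1 : 0 < Real.exp (SS (hh s) (i - j) + SS (hh s) (k - i)) := Real.exp_pos _
  have g2 : 0 < Real.exp (SS (hh s) (i + k + 1) - SS (hh s) (i + j)) := Real.exp_pos _
  have g3 : 0 < (Real.exp 1)⁻¹ := by positivity
  calc Real.exp (SS (hh s) (i - j) + SS (hh s) (k - i) + SS (hh s) (i + k + 1) -
        SS (hh s) (i + j)) * (rr s m / (2 * Real.exp 1))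
      = Real.exp (SS (hh s) (i - j) + SS (hh s) (k - i)) *
        ((Real.exp (SS (hh s) (i + k + 1) - SS (hh s) (i + j)) / 2) * (Real.exp 1)⁻¹ *
          rr s m) := by
        have e1 : SS (hh s) (i - j) + SS (hh s) (k - i) + SS (hh s) (i + k + 1) -
          SS (hh s) (i + j) = (SS (hh s) (i - j) + SS (hh s) (k - i)) +
            (SS (hh s) (i + k + 1) - SS (hh s) (i + j)) := by ring
        rw [e1, Real.exp_add]
        field_simp
    _ ≤ Real.exp (SS (hh s) (i - j) + SS (hh s) (k - i)) *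
        ((∏ l ∈ (Icc j k).erase i, ww s (i + l + 1)) * q ^ ((Icc j k).erase i).card *
          ∏ l ∈ (Icc j k).erase i, rho s m (i + l + 1)) := by
        apply mul_le_mul_of_nonneg_left _ g1.le
        apply mul_le_mul _ f4 hr.le
        · refine mul_nonneg ?_ (pow_nonneg hq0.le _)
          exact le_trans (by positivity) f2
        · exact mul_le_mul f2 f3 g3.le (le_trans (by positivity) f2)

end

end Pool.Agent.Work.MP_b30479_gt.TB
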